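import Mathlib

/-!
Exactly one of `-D`, `-εD` is a square modulo a prime of odd degree.
-/

namespace Pool.Agent.H83.T5

open Polynomial

theorem not_isSquare_algebraMap {F : Type*} [Field F] {W : F[X]} (hW : Irreducible W)
    (hodd : Odd W.natDegree) {ε : F} (hε : ¬ IsSquare ε) :
    ¬ IsSquare (AdjoinRoot.mk W (C ε)) := by
  have : Fact (Irreducible W) := ⟨hW⟩
  rintro ⟨y, hy⟩
  apply hε
  have hε0 : ε ≠ 0 := by rintro rfl; exact hε ⟨0, by rw [mul_zero]⟩
  have h1 := congrArg (Algebra.norm F) hy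
  have h3 : AdjoinRoot.mk W (C ε) = algebraMap F (AdjoinRoot W) ε := rfl
  rw [h3, Algebra.norm_algebraMap, (AdjoinRoot.powerBasis hW.ne_zero).finrank,
    AdjoinRoot.powerBasis_dim, map_mul] at h1
  obtain ⟨j, hj⟩ := hodd
  rw [hj] at h1
  refine ⟨Algebra.norm F y / ε ^ j, ?_⟩
  rw [div_mul_div_comm, ← h1, ← pow_add, ← two_mul, pow_succ, mul_comm, mul_div_assoc,
    div_self (pow_ne_zero _ hε0), mul_one]

theorem xor_twist {F : Type*} [Field F] [Finite F] {W D : F[X]} (hW : Irreducible W)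
    (hodd : Odd W.natDegree) (hWD : ¬ W ∣ D) {ε : F} (hε : ¬ IsSquare ε) :
    Xor (IsSquare (AdjoinRoot.mk W (-D))) (IsSquare (AdjoinRoot.mk W (-(C ε * D)))) := by
  classical
  have : Fact (Irreducible W) := ⟨hW⟩
  have : FiniteDimensional F (AdjoinRoot W) := (AdjoinRoot.powerBasis hW.ne_zero).finite
  have : Finite (AdjoinRoot W) := Module.finite_of_finite F
  have : Fintype (AdjoinRoot W) := Fintype.ofFinite _
  have ha : AdjoinRoot.mk W (-D) ≠ 0 := by
    rw [Ne, AdjoinRoot.mk_eq_zero, dvd_neg]; exact hWD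
  have he := not_isSquare_algebraMap hW hodd hε
  have he0 : AdjoinRoot.mk W (C ε) ≠ 0 := by
    intro h0
    rw [h0] at he
    exact he ⟨0, by rw [mul_zero]⟩
  have h1 : AdjoinRoot.mk W (-(C ε * D)) = AdjoinRoot.mk W (C ε) * AdjoinRoot.mk W (-D) := by
    rw [← map_mul, mul_neg]
  rw [h1]
  set a := AdjoinRoot.mk W (-D) with ha'
  set e := AdjoinRoot.mk W (C ε) with he'
  have he2 := quadraticChar_neg_one_iff_not_isSquare.2 he
  have hea : e * a ≠ 0 := mul_ne_zero he0 ha
  by_cases h : IsSquare a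
  · left
    refine ⟨h, fun h3 => ?_⟩
    have h4 := (quadraticChar_one_iff_isSquare hea).2 h3
    rw [map_mul, he2, (quadraticChar_one_iff_isSquare ha).2 h] at h4
    norm_num at h4
  · right
    refine ⟨?_, h⟩
    rw [← quadraticChar_one_iff_isSquare hea, map_mul, he2,
      quadraticChar_neg_one_iff_not_isSquare.2 h]
    norm_num

end Pool.Agent.H83.T5
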