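import Pool.Agent.H83.T5.Pair

/-!
The local lemmas over the completion `L_w` of the field of fractions of a Dedekind domain.
-/

set_option linter.unusedSectionVars false
set_option linter.style.haveILetI false

namespace Pool.Agent.H83.T5

open Polynomial WithZero IsDedekindDomain HeightOneSpectrum
open Pool.Agent.H94.LT

section

variable {B L : Type*} [CommRing B] [IsDedekindDomain B] [Field L] [Algebra B L]
  [IsFractionRing B L] (w : HeightOneSpectrum B)

theorem adic_good {ι : Type*} [Fintype ι] (hodd : Odd (Fintype.card ι))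
    {c : w.adicCompletion L} (hc : (Valued.v c : ℤᵐ⁰) = 1) (r : ι → w.adicCompletion L)
    (hr : ∀ i, (Valued.v (r i) : ℤᵐ⁰) ≤ 1)
    (hrr : ∀ i j, i ≠ j → (Valued.v (r i - r j) : ℤᵐ⁰) = 1)
    (A Q : (w.adicCompletion L)[X]) (hA : A.Monic) (hcop : IsCoprime A (∏ i, (X - C (r i))))
    (hdvd : A ∣ C c * Q ^ 2 - ∏ i, (X - C (r i))) (i : ι) :
    Ev (Valued.v : Valuation (w.adicCompletion L) ℤᵐ⁰) (A.eval (r i)) := by
  letI : (Valued.v : Valuation (w.adicCompletion L) ℤᵐ⁰).RankOne :=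
    Valuation.IsRankOneDiscrete.rankOne _ (e := 2) one_lt_two
  letI : NontriviallyNormedField (w.adicCompletion L) :=
    Valued.toNontriviallyNormedField _ ℤᵐ⁰
  haveI : IsUltrametricDist (w.adicCompletion L) := inferInstance
  haveI : CompleteSpace (w.adicCompletion L) := inferInstance
  exact pair_good (M := w.adicCompletion L) (w := Valued.v)
    (fun x => Valued.toNormedField.norm_lt_one_iff) hodd hc r hr hrr A Q hA hcop hdvd i

theorem adic_node (h2 : (Valued.v (2 : w.adicCompletion L) : ℤᵐ⁰) = 1) {ι : Type*} [Fintype ι]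
    (heven : Even (Fintype.card ι)) {ϖ c r0 : w.adicCompletion L}
    (hϖ : (Valued.v ϖ : ℤᵐ⁰) = exp (-1 : ℤ)) (hc : (Valued.v c : ℤᵐ⁰) = 1)
    (hr0 : (Valued.v r0 : ℤᵐ⁰) = 1) (r : ι → w.adicCompletion L)
    (hr : ∀ i, (Valued.v (r i) : ℤᵐ⁰) = exp (-1 : ℤ))
    (hrr : ∀ i j, i ≠ j → (Valued.v (r i - r j) : ℤᵐ⁰) = exp (-1 : ℤ))
    (A Q : (w.adicCompletion L)[X]) (hA : A.Monic)
    (hcop : IsCoprime A ((X - C r0) * ∏ i, (X - C (r i))))
    (hdvd : A ∣ C c * Q ^ 2 - (X - C r0) * ∏ i, (X - C (r i))) :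
    (Cl (Valued.v : Valuation (w.adicCompletion L) ℤᵐ⁰) ((-c) ^ A.natDegree * A.eval r0) ∧
      ∀ i, Ev (Valued.v : Valuation (w.adicCompletion L) ℤᵐ⁰) (A.eval (r i))) ∨
    (Cl (Valued.v : Valuation (w.adicCompletion L) ℤᵐ⁰)
      ((-c) ^ A.natDegree * A.eval r0 * (-(c * r0))) ∧
      ∀ i, Ev (Valued.v : Valuation (w.adicCompletion L) ℤᵐ⁰) (ϖ * A.eval (r i))) := by
  letI : (Valued.v : Valuation (w.adicCompletion L) ℤᵐ⁰).RankOne :=
    Valuation.IsRankOneDiscrete.rankOne _ (e := 2) one_lt_two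
  letI : NontriviallyNormedField (w.adicCompletion L) :=
    Valued.toNontriviallyNormedField _ ℤᵐ⁰
  haveI : IsUltrametricDist (w.adicCompletion L) := inferInstance
  haveI : CompleteSpace (w.adicCompletion L) := inferInstance
  exact pair_node (M := w.adicCompletion L) (w := Valued.v)
    (fun x => Valued.toNormedField.norm_lt_one_iff) h2 heven hϖ hc hr0 r hr hrr A Q hA hcop hdvd

end

end Pool.Agent.H83.T5
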