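import Pool.Agent.H83.T5.Par

/-!
The two alternatives for a Selmer element.
-/

set_option linter.unusedSectionVars false
set_option linter.style.haveILetI false

namespace Pool.Agent.H83.T5

open Polynomial WithZero IsDedekindDomain HeightOneSpectrum
open Pool.Agent.H94.LT Pool.Agent.H94.TC

section

variable {F k : Type*} [Field F] [Field k] [Algebra F k] [FiniteDimensional F k]

attribute [local instance] polyAlg ratAlg isScalarTower_rat

variable [Fintype (k ≃ₐ[F] k)] [DecidableEq (k ≃ₐ[F] k)]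

theorem natDegree_P {P : F[X]} {τ : k}
    (hP : P.map (algebraMap F k) = ∏ σ : k ≃ₐ[F] k, (X - C (σ τ))) :
    P.natDegree = Fintype.card (k ≃ₐ[F] k) := by
  have h1 : (P.map (algebraMap F k)).natDegree = P.natDegree := natDegree_map _
  rw [← h1, hP, natDegree_prod _ _ fun σ _ => X_sub_C_ne_zero _]
  simp

theorem qq_irreducible {P φ : F[X]} {τ : k}
    (hP : P.map (algebraMap F k) = ∏ σ : k ≃ₐ[F] k, (X - C (σ τ)))
    (hcard : Fintype.card (k ≃ₐ[F] k) = Module.finrank F k) (hW : Irreducible (P.comp φ))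
    (σ : k ≃ₐ[F] k) : Irreducible (qq φ τ σ) := by
  refine irreducible_of_degree hW ?_ ?_
  · rw [prod_qq φ τ P hP, ← qq_mul_th φ τ σ]
    exact Dvd.intro _ rfl
  · rw [natDegree_comp, natDegree_P hP, hcard, qq, natDegree_sub_C, natDegree_map]

/-- `D` is a unit at the primes over `W` -/
theorem D_notMem {P φ D : F[X]} {τ : k}
    (hP : P.map (algebraMap F k) = ∏ σ : k ≃ₐ[F] k, (X - C (σ τ)))
    (hW : Irreducible (P.comp φ)) (hWD : ¬ P.comp φ ∣ D) (w : HeightOneSpectrum k[X])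
    (hw : (∏ σ, qq φ τ σ) ∈ w.asIdeal) : D.map (algebraMap F k) ∉ w.asIdeal := by
  intro hD
  obtain ⟨v, hv⟩ := exists_below (F := F) w
  rw [← mem_below hv] at hD
  rw [← prod_qq φ τ P hP, ← mem_below hv] at hw
  rw [asIdeal_eq_span hW hw, Ideal.mem_span_singleton] at hD
  exact hWD hD

theorem alt (P φ D : F[X]) (τ : k)
    (hP : P.map (algebraMap F k) = ∏ σ : k ≃ₐ[F] k, (X - C (σ τ)))
    (hτ : ∀ σ ρ : k ≃ₐ[F] k, σ τ = ρ τ → σ = ρ)
    (hcard : Fintype.card (k ≃ₐ[F] k) = Module.finrank F k)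
    (hodd : Odd (Fintype.card (k ≃ₐ[F] k))) (h2 : (2 : k) ≠ 0) (hW : Irreducible (P.comp φ))
    (hD : ∀ Q : F[X], Irreducible Q → Q ∣ D → Nat.Coprime Q.natDegree (Module.finrank F k))
    (hWD : ¬ P.comp φ ∣ D) (Δ : (RatFunc F)[X])
    (hloc : ∀ v : HeightOneSpectrum F[X], LocImTw (fPoly P φ) D v Δ)
    (hne : dd φ τ Δ 1 ≠ 0) (hnorm : IsSquare (∏ σ, dd φ τ Δ σ))
    (w0 : HeightOneSpectrum k[X]) (hw0 : w0.asIdeal = Ideal.span {qq φ τ 1}) :
    (∀ w : HeightOneSpectrum k[X], Ev (w.valuation (RatFunc k)) (dd φ τ Δ 1)) ∨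
    ((∀ w : HeightOneSpectrum k[X], Ev (w.valuation (RatFunc k))
      (algebraMap k[X] (RatFunc k) (th φ τ 1) * dd φ τ Δ 1)) ∧
      Cl (Valued.v : Valuation (w0.adicCompletion (RatFunc k)) ℤᵐ⁰)
        (algebraMap (RatFunc k) (w0.adicCompletion (RatFunc k))
          (dd φ τ Δ 1 * (-(algebraMap F[X] (RatFunc k) D *
            algebraMap k[X] (RatFunc k) (th φ τ 1)))))) := by
  have hirr : ∀ σ, Irreducible (qq φ τ σ) := qq_irreducible hP hcard hW
  have hqne : ∀ σ, qq φ τ σ ≠ 0 := fun σ => (hirr σ).ne_zero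
  have hmem0 : (∏ σ, qq φ τ σ) ∈ w0.asIdeal := by
    rw [← qq_mul_th φ τ 1]
    refine Ideal.mul_mem_right _ _ ?_
    rw [hw0]; exact Ideal.mem_span_singleton_self _
  have hD0 : D.map (algebraMap F k) ∉ w0.asIdeal := D_notMem hP hW hWD w0 hmem0
  have hDval : w0.valuation (RatFunc k) (algebraMap F[X] (RatFunc k) D) = 1 := by
    rw [IsScalarTower.algebraMap_apply F[X] k[X] (RatFunc k)]
    exact val_eq_one hD0
  have h2val : w0.valuation (RatFunc k) 2 = 1 := by
    have h3 : (2 : RatFunc k) = algebraMap k[X] (RatFunc k) (C 2) := by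
      rw [C_ofNat, map_ofNat]
    rw [h3]
    exact val_eq_one (C_notMem h2)
  have hth0 : w0.valuation (RatFunc k) (algebraMap k[X] (RatFunc k) (th φ τ 1)) = 1 :=
    val_eq_one (bad_th_self φ τ hw0 hτ)
  have hϖ : w0.valuation (RatFunc k) (algebraMap k[X] (RatFunc k) (qq φ τ 1)) = exp (-1 : ℤ) :=
    val_gen (hqne 1) hw0
  obtain ⟨v0, hv0⟩ := exists_below (F := F) w0
  haveI := hv0
  have hnode := place_node v0 w0 hodd 1 (fPoly P φ) D Δ
    (fun σ => algebraMap k[X] (RatFunc k) (th φ τ σ)) (fPoly_split P φ τ hP hqne) (hloc v0)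
    h2val (algebraMap k[X] (RatFunc k) (qq φ τ 1)) hϖ hDval hth0
    (fun σ hσ => bad_th φ τ (hqne 1) hw0 hτ hσ)
    (fun σ ρ hσ hρ h => bad_sub φ τ (hqne 1) hw0 hτ hσ hρ h)
  -- transport from the prime `q_σ` to `q_1`
  have htrans : ∀ (w : HeightOneSpectrum k[X]) (σ : k ≃ₐ[F] k), qq φ τ σ ∈ w.asIdeal →
      ∀ x, w.valuation (RatFunc k) x = w0.valuation (RatFunc k) (sL σ⁻¹ x) := by
    intro w σ hσ x
    have hspan := asIdeal_eq_span (hirr σ) hσ
    refine (val_transport σ⁻¹ w0 w (fun p => ?_) x).symm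
    rw [hspan, hw0, Ideal.mem_span_singleton, Ideal.mem_span_singleton]
    have h3 : qq φ τ (1 : k ≃ₐ[F] k) = sB σ⁻¹ (qq φ τ σ) := by
      rw [sB_qq, inv_mul_cancel]
    rw [h3]
    exact map_dvd_iff (sB σ⁻¹)
  have hfind : ∀ w : HeightOneSpectrum k[X], (∏ σ, qq φ τ σ) ∈ w.asIdeal →
      ∃ σ, qq φ τ σ ∈ w.asIdeal := by
    intro w hw
    obtain ⟨σ, -, hσ⟩ := (w.isPrime.prod_mem_iff).1 hw
    exact ⟨σ, hσ⟩
  rcases hnode with ⟨ha, hb⟩ | ⟨ha, hb⟩
  · left
    intro w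
    by_cases hDw : D.map (algebraMap F k) ∈ w.asIdeal
    · exact par_inert φ D τ hodd hD Δ hne hnorm w hDw
    by_cases hWw : (∏ σ, qq φ τ σ) ∈ w.asIdeal
    · obtain ⟨σ, hσ⟩ := hfind w hWw
      refine ⟨hne, ?_⟩
      rw [htrans w σ hσ, sL_dd, mul_one]
      by_cases h1 : σ⁻¹ = 1
      · rw [h1]
        exact ((ev_alg_iff w0 _).1 ha.ev).2
      · exact (hb _ h1).2
    · exact par_good P φ D τ hP hqne hτ hodd Δ hloc w hDw hWw
  · right
    refine ⟨?_, ha⟩
    intro w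
    by_cases hWw : (∏ σ, qq φ τ σ) ∈ w.asIdeal
    · obtain ⟨σ, hσ⟩ := hfind w hWw
      have hthne : algebraMap k[X] (RatFunc k) (th φ τ 1) ≠ 0 := by
        intro h0
        rw [h0, map_zero] at hth0
        exact zero_ne_one hth0
      refine ⟨mul_ne_zero hthne hne, ?_⟩
      rw [htrans w σ hσ, map_mul, sL_dd, sL_alg, sB_th, mul_one]
      by_cases h1 : σ⁻¹ = 1
      · rw [h1]
        have h4 : Ev (w0.valuation (RatFunc k)) (dd φ τ Δ 1 *
            (-(algebraMap F[X] (RatFunc k) D * algebraMap k[X] (RatFunc k) (th φ τ 1)))) :=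
          (ev_alg_iff w0 _).1 ha.ev
        have h5 : Ev (w0.valuation (RatFunc k)) (-(algebraMap F[X] (RatFunc k) D *
            algebraMap k[X] (RatFunc k) (th φ τ 1))) :=
          Ev.of_val (by rw [Valuation.map_neg, map_mul, hDval, hth0, one_mul])
        have h6 : Ev (w0.valuation (RatFunc k)) (dd φ τ Δ 1) := by
          rw [mul_comm] at h4
          exact h5.of_mul h4
        exact ((Ev.of_val hth0).mul h6).2
      · have h4 := (hb _ h1).2
        have h5 := bad_th φ τ (hqne 1) hw0 hτ h1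
        rw [map_mul, h5, ← hϖ, ← map_mul]
        exact h4
    · have hthw : Ev (w.valuation (RatFunc k)) (algebraMap k[X] (RatFunc k) (th φ τ 1)) :=
        Ev.of_val (val_eq_one (good_th φ τ hWw 1))
      by_cases hDw : D.map (algebraMap F k) ∈ w.asIdeal
      · exact hthw.mul (par_inert φ D τ hodd hD Δ hne hnorm w hDw)
      · exact hthw.mul (par_good P φ D τ hP hqne hτ hodd Δ hloc w hDw hWw)

end

end Pool.Agent.H83.T5
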