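import Pool.Agent.H83.T5.Unram

/-!
Closed points: parity and square classes of `N(α - r)` for a point `c β² = ∏ (α - r)` over a finite
extension of a complete discretely valued field; good reduction and a node.
-/

set_option linter.unusedSectionVars false
set_option linter.style.haveILetI false

namespace Pool.Agent.H83.T5

open Polynomial WithZero
open Pool.Agent.H94.LT

section

variable {M : Type*} [Field M] {w : Valuation M ℤᵐ⁰}

theorem Ev.iff_log {x : M} (hx : x ≠ 0) : Ev w x ↔ Even (log (w x)) :=
  ⟨fun h => h.2, fun h => ⟨hx, h⟩⟩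

theorem Cl.pow_even {x : M} (hx : x ≠ 0) {n : ℕ} (hn : Even n) : Cl w (x ^ n) := by
  obtain ⟨k, rfl⟩ := hn
  rw [pow_add]
  exact Cl.mul_self (pow_ne_zero k hx)

theorem Cl.pow {x : M} (hx : Cl w x) (n : ℕ) : Cl w (x ^ n) := by
  induction n with
  | zero => simpa using Cl.one
  | succ n ih => rw [pow_succ]; exact ih.mul hx

theorem Cl.prod {ι : Type*} (s : Finset ι) (f : ι → M) (h : ∀ i ∈ s, Cl w (f i)) :
    Cl w (∏ i ∈ s, f i) := by
  classical
  induction s using Finset.induction_on with
  | empty => simpa using Cl.one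
  | insert a s ha ih =>
    rw [Finset.prod_insert ha]
    exact (h a (Finset.mem_insert_self _ _)).mul
      (ih fun i hi => h i (Finset.mem_insert_of_mem hi))

theorem log_prod' {ι : Type*} (s : Finset ι) (f : ι → M) (h : ∀ i ∈ s, f i ≠ 0) :
    log (w (∏ i ∈ s, f i)) = ∑ i ∈ s, log (w (f i)) := by
  classical
  induction s using Finset.induction_on with
  | empty => simp
  | insert a s ha ih =>
    rw [Finset.prod_insert ha, Finset.sum_insert ha, log_mul' (h a (Finset.mem_insert_self _ _))
      (Finset.prod_ne_zero_iff.2 fun i hi => h i (Finset.mem_insert_of_mem hi)),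
      ih fun i hi => h i (Finset.mem_insert_of_mem hi)]

end

section

variable {M : Type*} [NontriviallyNormedField M] [IsUltrametricDist M] [CompleteSpace M]
  {M' : Type*} [Field M'] [Algebra M M'] [FiniteDimensional M M'] {w : Valuation M ℤᵐ⁰}

theorem norm_ne_zero' {x : M'} (hx : x ≠ 0) : Algebra.norm M x ≠ 0 := by
  rw [Ne, Algebra.norm_eq_zero_iff]; exact hx

theorem val_norm_of_sn_one (hw : ∀ x : M, ‖x‖ < 1 ↔ w x < 1) {x : M'}
    (hx : spectralNorm M M' x = 1) : w (Algebra.norm M x) = 1 := by
  rw [← norm_eq_one_iff' hw, norm_algNorm, hx, one_pow]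

theorem cl_norm_one_add (hw : ∀ x : M, ‖x‖ < 1 ↔ w x < 1) {z : M'}
    (hz : spectralNorm M M' z < 1) : Cl w (Algebra.norm M (1 + z)) :=
  Cl.of_lt ((hw _).1 (norm_one_add_sub_one z hz))

/-- dominant term -/
theorem cl_norm_add (hw : ∀ x : M, ‖x‖ < 1 ↔ w x < 1) {x y : M'}
    (h : spectralNorm M M' y < spectralNorm M M' x) :
    Cl w (Algebra.norm M (x + y) * Algebra.norm M x) := by
  have hx : x ≠ 0 := by
    rintro rfl
    rw [spectralNorm_zero] at h
    exact absurd h (not_lt.2 (spectralNorm_nonneg y))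
  have h1 : x + y = x * (1 + y / x) := by field_simp
  have h2 : spectralNorm M M' (y / x) < 1 := by
    rw [sn_div, div_lt_one (sn_pos hx)]; exact h
  rw [h1, map_mul]
  have h3 : Algebra.norm M x * Algebra.norm M (1 + y / x) * Algebra.norm M x =
      Algebra.norm M (1 + y / x) * Algebra.norm M x ^ 2 := by ring
  rw [h3]
  exact (cl_norm_one_add hw h2).mul (Cl.sq (norm_ne_zero' hx))

theorem cl_norm_sub (hw : ∀ x : M, ‖x‖ < 1 ↔ w x < 1) {x y : M'}
    (h : spectralNorm M M' y < spectralNorm M M' x) :
    Cl w (Algebra.norm M (x - y) * Algebra.norm M x) := by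
  rw [sub_eq_add_neg]
  exact cl_norm_add hw (by rw [sn_neg]; exact h)

/-- unit differences: the common argument -/
theorem ev_of_units (hw : ∀ x : M, ‖x‖ < 1 ↔ w x < 1) {ι : Type*} [Fintype ι] (s : ι → M)
    (hss : ∀ i j, i ≠ j → w (s i - s j) = 1) (hs : ∀ i, w (s i) ≤ 1) (a : M')
    (ha : spectralNorm M M' a ≤ 1) (hne : ∀ i, a - algebraMap M M' (s i) ≠ 0)
    (hprod : Ev w (∏ i, Algebra.norm M (a - algebraMap M M' (s i)))) (i : ι) :
    Ev w (Algebra.norm M (a - algebraMap M M' (s i))) := by
  classical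
  have hs' : ∀ i, spectralNorm M M' (algebraMap M M' (s i)) ≤ 1 := by
    intro i; rw [sn_alg]; exact (norm_le_one_iff' hw _).2 (hs i)
  have hle : spectralNorm M M' (a - algebraMap M M' (s i)) ≤ 1 :=
    (sn_sub _ _).trans (max_le ha (hs' i))
  rcases lt_or_eq_of_le hle with hlt | heq
  · have hother : ∀ j, j ≠ i → w (Algebra.norm M (a - algebraMap M M' (s j))) = 1 := by
      intro j hj
      apply val_norm_of_sn_one hw
      have h1 : a - algebraMap M M' (s j) = (a - algebraMap M M' (s i)) +
          algebraMap M M' (s i - s j) := by rw [map_sub]; ring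
      have h2 : spectralNorm M M' (algebraMap M M' (s i - s j)) = 1 := by
        rw [sn_alg]; exact (norm_eq_one_iff' hw _).2 (hss i j (Ne.symm hj))
      rw [h1, sn_add_eq_of_lt (by rw [h2]; exact hlt), h2]
    have h3 : w (∏ i, Algebra.norm M (a - algebraMap M M' (s i))) =
        w (Algebra.norm M (a - algebraMap M M' (s i))) := by
      rw [map_prod]
      exact Finset.prod_eq_single i (fun j _ hj => hother j hj)
        (fun h => absurd (Finset.mem_univ i) h)
    exact ⟨norm_ne_zero' (hne i), by rw [← h3]; exact hprod.2⟩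
  · exact Ev.of_val (val_norm_of_sn_one hw heq)

theorem closed_good (hw : ∀ x : M, ‖x‖ < 1 ↔ w x < 1) {ι : Type*} [Fintype ι]
    (hodd : Odd (Fintype.card ι)) {c : M} (hc : w c = 1) (r : ι → M) (hr : ∀ i, w (r i) ≤ 1)
    (hrr : ∀ i j, i ≠ j → w (r i - r j) = 1) {α β : M'} (hβ : β ≠ 0)
    (h : algebraMap M M' c * β ^ 2 = ∏ i, (α - algebraMap M M' (r i))) (i : ι) :
    Ev w (Algebra.norm M (α - algebraMap M M' (r i))) := by
  classical
  have hc0 : c ≠ 0 := by rintro rfl; simp at hc
  have hne : ∀ i, α - algebraMap M M' (r i) ≠ 0 := by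
    intro j hj
    have h1 : ∏ i, (α - algebraMap M M' (r i)) = 0 := Finset.prod_eq_zero (Finset.mem_univ j) hj
    rw [← h] at h1
    exact (mul_ne_zero (by rw [Ne, map_eq_zero]; exact hc0) (pow_ne_zero 2 hβ)) h1
  have hNprod : ∏ i, Algebra.norm M (α - algebraMap M M' (r i)) =
      c ^ Module.finrank M M' * Algebra.norm M β ^ 2 := by
    rw [← map_prod, ← h, map_mul, map_pow, Algebra.norm_algebraMap]
  have hprod : Ev w (∏ i, Algebra.norm M (α - algebraMap M M' (r i))) := by
    rw [hNprod]
    exact (Ev.of_val (by rw [map_pow, hc, one_pow])).mul (Ev.sq (norm_ne_zero' hβ))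
  rcases le_or_gt (spectralNorm M M' α) 1 with hα | hα
  · exact ev_of_units hw r hrr hr α hα hne hprod i
  · have hα0 : α ≠ 0 := by
      rintro rfl
      rw [spectralNorm_zero] at hα
      exact absurd hα (by norm_num)
    have hcl : ∀ j, Cl w (Algebra.norm M (α - algebraMap M M' (r j)) * Algebra.norm M α) := by
      intro j
      apply cl_norm_sub hw
      rw [sn_alg]
      exact lt_of_le_of_lt ((norm_le_one_iff' hw _).2 (hr j)) hα
    have ha0 : Algebra.norm M α ≠ 0 := norm_ne_zero' hα0
    have heach : ∀ j, Even (log (w (Algebra.norm M (α - algebraMap M M' (r j)))) +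
        log (w (Algebra.norm M α))) := by
      intro j
      have h1 := (hcl j).ev.2
      rwa [log_mul' (norm_ne_zero' (hne j)) ha0] at h1
    have hsum := hprod.2
    rw [log_prod' _ _ fun j _ => norm_ne_zero' (hne j)] at hsum
    have hall : Even (∑ j : ι, (log (w (Algebra.norm M (α - algebraMap M M' (r j)))) +
        log (w (Algebra.norm M α)))) := Finset.even_sum _ fun j _ => heach j
    rw [Finset.sum_add_distrib, Finset.sum_const, Finset.card_univ, nsmul_eq_mul,
      Int.even_add] at hall
    have h2 : Even ((Fintype.card ι : ℤ) * log (w (Algebra.norm M α))) := hall.1 hsum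
    have h3 : Even (log (w (Algebra.norm M α))) := by
      rw [Int.even_mul] at h2
      rcases h2 with h2 | h2
      · exfalso
        rw [Int.even_coe_nat] at h2
        exact (Nat.not_even_iff_odd.2 hodd) h2
      · exact h2
    refine ⟨norm_ne_zero' (hne i), ?_⟩
    have h4 := heach i
    rw [Int.even_add] at h4
    exact h4.2 h3

end

end Pool.Agent.H83.T5
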