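import Pool.Agent.H83.T5.Gal

/-!
The conjugates `q_σ = φ - σ τ` and `θ_σ = ∏_{ρ ≠ σ} q_ρ` and their valuations.
-/

set_option linter.unusedSectionVars false
set_option linter.style.haveILetI false

namespace Pool.Agent.H83.T5

open Polynomial WithZero IsDedekindDomain HeightOneSpectrum
open Pool.Agent.H94.LT

section

variable {F k : Type*} [Field F] [Field k] [Algebra F k] [Fintype (k ≃ₐ[F] k)]
  [DecidableEq (k ≃ₐ[F] k)] (φ : F[X]) (τ : k)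

/-- `φ - σ τ` -/
noncomputable def qq (σ : k ≃ₐ[F] k) : k[X] := φ.map (algebraMap F k) - C (σ τ)

/-- the product of the other conjugates -/
noncomputable def th (σ : k ≃ₐ[F] k) : k[X] := ∏ ρ ∈ Finset.univ.erase σ, qq φ τ ρ

theorem sB_qq (σ ρ : k ≃ₐ[F] k) : sB σ (qq φ τ ρ) = qq φ τ (σ * ρ) := by
  rw [qq, qq, map_sub, sB_base, sB_C]
  rfl

theorem sB_th (σ ρ : k ≃ₐ[F] k) : sB σ (th φ τ ρ) = th φ τ (σ * ρ) := by
  rw [th, th, map_prod]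
  refine Finset.prod_bij (fun κ _ => σ * κ) ?_ ?_ ?_ ?_
  · intro κ hκ
    rw [Finset.mem_erase] at hκ ⊢
    exact ⟨fun h => hκ.1 (mul_left_cancel h), Finset.mem_univ _⟩
  · intro κ _ κ' _ h
    exact mul_left_cancel h
  · intro κ hκ
    rw [Finset.mem_erase] at hκ
    refine ⟨σ⁻¹ * κ, ?_, by rw [mul_inv_cancel_left]⟩
    rw [Finset.mem_erase]
    refine ⟨fun h => hκ.1 ?_, Finset.mem_univ _⟩
    rw [← h, mul_inv_cancel_left]
  · intro κ _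
    exact sB_qq φ τ σ κ

theorem qq_sub (σ ρ : k ≃ₐ[F] k) : qq φ τ σ - qq φ τ ρ = C (ρ τ - σ τ) := by
  rw [qq, qq, C_sub]; ring

theorem qq_mul_th (σ : k ≃ₐ[F] k) : qq φ τ σ * th φ τ σ = ∏ ρ, qq φ τ ρ :=
  Finset.mul_prod_erase Finset.univ _ (Finset.mem_univ σ)

theorem th_eq {σ ρ : k ≃ₐ[F] k} (h : σ ≠ ρ) :
    th φ τ σ = qq φ τ ρ * ∏ κ ∈ (Finset.univ.erase σ).erase ρ, qq φ τ κ :=
  (Finset.mul_prod_erase (Finset.univ.erase σ) _ (by simp [Ne.symm h])).symm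

theorem th_sub {σ ρ : k ≃ₐ[F] k} (h : σ ≠ ρ) : th φ τ σ - th φ τ ρ =
    C (σ τ - ρ τ) * ∏ κ ∈ (Finset.univ.erase σ).erase ρ, qq φ τ κ := by
  rw [th_eq φ τ h, th_eq φ τ (Ne.symm h), Finset.erase_right_comm, ← sub_mul, qq_sub]

theorem prod_qq (P : F[X]) (hP : P.map (algebraMap F k) = ∏ σ : k ≃ₐ[F] k, (X - C (σ τ))) :
    (P.comp φ).map (algebraMap F k) = ∏ σ, qq φ τ σ := by
  rw [Polynomial.map_comp, hP, prod_comp]
  refine Finset.prod_congr rfl fun σ _ => ?_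
  rw [sub_comp, X_comp, C_comp, qq]

/-- valuation of a polynomial outside the prime -/
theorem val_eq_one {w : HeightOneSpectrum k[X]} {p : k[X]} (hp : p ∉ w.asIdeal) :
    w.valuation (RatFunc k) (algebraMap k[X] (RatFunc k) p) = 1 := by
  rw [w.valuation_of_algebraMap, intValuation_eq_one_iff]
  exact hp

theorem C_notMem {w : HeightOneSpectrum k[X]} {a : k} (ha : a ≠ 0) : C a ∉ w.asIdeal := by
  intro h
  refine w.isPrime.ne_top (Ideal.eq_top_of_isUnit_mem _ h ?_)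
  rw [isUnit_C, isUnit_iff_ne_zero]; exact ha

theorem prod_notMem {ι : Type*} {w : HeightOneSpectrum k[X]} (s : Finset ι) (g : ι → k[X])
    (h : ∀ i ∈ s, g i ∉ w.asIdeal) : ∏ i ∈ s, g i ∉ w.asIdeal := by
  intro h0
  obtain ⟨i, hi, h1⟩ := (w.isPrime.prod_mem_iff).1 h0
  exact h i hi h1

/-- good primes -/
theorem good_qq {w : HeightOneSpectrum k[X]} (hw : (∏ σ, qq φ τ σ) ∉ w.asIdeal)
    (σ : k ≃ₐ[F] k) : qq φ τ σ ∉ w.asIdeal := by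
  intro h
  apply hw
  rw [← qq_mul_th φ τ σ]
  exact Ideal.mul_mem_right _ _ h

theorem good_th {w : HeightOneSpectrum k[X]} (hw : (∏ σ, qq φ τ σ) ∉ w.asIdeal)
    (σ : k ≃ₐ[F] k) : th φ τ σ ∉ w.asIdeal :=
  prod_notMem _ _ fun ρ _ => good_qq φ τ hw ρ

theorem good_sub {w : HeightOneSpectrum k[X]} (hw : (∏ σ, qq φ τ σ) ∉ w.asIdeal)
    (hτ : ∀ σ ρ : k ≃ₐ[F] k, σ τ = ρ τ → σ = ρ) {σ ρ : k ≃ₐ[F] k} (h : σ ≠ ρ) :
    th φ τ σ - th φ τ ρ ∉ w.asIdeal := by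
  rw [th_sub φ τ h]
  intro h0
  rcases w.isPrime.mem_or_mem h0 with h1 | h1
  · exact C_notMem (sub_ne_zero.2 fun h2 => h (hτ _ _ h2)) h1
  · exact prod_notMem _ _ (fun κ _ => good_qq φ τ hw κ) h1

/-- the prime `q_σ` -/
theorem bad_qq {w : HeightOneSpectrum k[X]} {σ : k ≃ₐ[F] k} (hw : w.asIdeal = Ideal.span {qq φ τ σ})
    (hτ : ∀ σ ρ : k ≃ₐ[F] k, σ τ = ρ τ → σ = ρ) {ρ : k ≃ₐ[F] k} (h : ρ ≠ σ) :
    qq φ τ ρ ∉ w.asIdeal := by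
  intro h0
  have h1 : qq φ τ σ ∈ w.asIdeal := by rw [hw]; exact Ideal.mem_span_singleton_self _
  have h2 := sub_mem h1 h0
  rw [qq_sub] at h2
  exact C_notMem (sub_ne_zero.2 fun h3 => h (hτ _ _ h3)) h2

theorem val_gen {w : HeightOneSpectrum k[X]} {p : k[X]} (hp : p ≠ 0)
    (hw : w.asIdeal = Ideal.span {p}) :
    w.valuation (RatFunc k) (algebraMap k[X] (RatFunc k) p) = exp (-1 : ℤ) := by
  rw [w.valuation_of_algebraMap, w.intValuation_singleton hp hw]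

theorem bad_th_self {w : HeightOneSpectrum k[X]} {σ : k ≃ₐ[F] k}
    (hw : w.asIdeal = Ideal.span {qq φ τ σ}) (hτ : ∀ σ ρ : k ≃ₐ[F] k, σ τ = ρ τ → σ = ρ) :
    th φ τ σ ∉ w.asIdeal :=
  prod_notMem _ _ fun ρ hρ => bad_qq φ τ hw hτ (Finset.mem_erase.1 hρ).1

theorem bad_th {w : HeightOneSpectrum k[X]} {σ : k ≃ₐ[F] k} (hne : qq φ τ σ ≠ 0)
    (hw : w.asIdeal = Ideal.span {qq φ τ σ}) (hτ : ∀ σ ρ : k ≃ₐ[F] k, σ τ = ρ τ → σ = ρ)
    {ρ : k ≃ₐ[F] k} (h : ρ ≠ σ) :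
    w.valuation (RatFunc k) (algebraMap k[X] (RatFunc k) (th φ τ ρ)) = exp (-1 : ℤ) := by
  rw [th_eq φ τ h, map_mul, map_mul, val_gen hne hw, val_eq_one, mul_one]
  refine prod_notMem _ _ fun κ hκ => ?_
  exact bad_qq φ τ hw hτ (Finset.mem_erase.1 hκ).1

theorem bad_sub {w : HeightOneSpectrum k[X]} {σ : k ≃ₐ[F] k} (hne : qq φ τ σ ≠ 0)
    (hw : w.asIdeal = Ideal.span {qq φ τ σ}) (hτ : ∀ σ ρ : k ≃ₐ[F] k, σ τ = ρ τ → σ = ρ)
    {ρ κ : k ≃ₐ[F] k} (h : ρ ≠ σ) (h' : κ ≠ σ) (h'' : ρ ≠ κ) :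
    w.valuation (RatFunc k) (algebraMap k[X] (RatFunc k) (th φ τ ρ) -
      algebraMap k[X] (RatFunc k) (th φ τ κ)) = exp (-1 : ℤ) := by
  have h1 : ∏ x ∈ (Finset.univ.erase ρ).erase κ, qq φ τ x =
      qq φ τ σ * ∏ x ∈ ((Finset.univ.erase ρ).erase κ).erase σ, qq φ τ x :=
    (Finset.mul_prod_erase _ _ (by simp [Ne.symm h, Ne.symm h'])).symm
  rw [← map_sub, th_sub φ τ h'', h1, map_mul, map_mul, map_mul, map_mul, val_gen hne hw,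
    val_eq_one (C_notMem (sub_ne_zero.2 fun h3 => h'' (hτ _ _ h3))), one_mul, val_eq_one, mul_one]
  refine prod_notMem _ _ fun x hx => ?_
  exact bad_qq φ τ hw hτ (Finset.mem_erase.1 hx).1

end

end Pool.Agent.H83.T5
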