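import Pool.Agent.H83.T5.Gal
import Pool.Agent.H94.TC.Global

/-!
Elements of `k(x)` with even valuations; constants and squares.
-/

set_option linter.unusedSectionVars false
set_option linter.style.haveILetI false

namespace Pool.Agent.H83.T5

open Polynomial WithZero IsDedekindDomain HeightOneSpectrum
open Pool.Agent.H94.LT Pool.Agent.H94.TC

section

variable {k : Type*} [Field k]

theorem exists_const_sq (x : RatFunc k) (hx0 : x ≠ 0)
    (h : ∀ w : HeightOneSpectrum k[X], Ev (w.valuation (RatFunc k)) x) :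
    ∃ (e : k) (g : RatFunc k), e ≠ 0 ∧ g ≠ 0 ∧ x = algebraMap k[X] (RatFunc k) (C e) * g ^ 2 := by
  obtain ⟨a, b, hb, rfl⟩ := IsFractionRing.div_surjective (A := k[X]) x
  have hb0 : b ≠ 0 := nonZeroDivisors.ne_zero hb
  have ha0 : a ≠ 0 := by
    rintro rfl
    rw [map_zero, zero_div] at hx0
    exact hx0 rfl
  have hbL : algebraMap k[X] (RatFunc k) b ≠ 0 := by
    rw [Ne, FaithfulSMul.algebraMap_eq_zero_iff]; exact hb0
  have hab0 : a * b ≠ 0 := mul_ne_zero ha0 hb0
  have hcl : ∀ c : ClassGroup k[X], c ^ 2 = 1 → c = 1 := fun c _ => Subsingleton.elim _ _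
  have hev : ∀ w : HeightOneSpectrum k[X], Even (multiplicity w.asIdeal (Ideal.span {a * b})) := by
    intro w
    have h1 := h w
    have h2 : Ev (w.valuation (RatFunc k)) (algebraMap k[X] (RatFunc k) (a * b)) := by
      have h3 : algebraMap k[X] (RatFunc k) (a * b) =
          algebraMap k[X] (RatFunc k) a / algebraMap k[X] (RatFunc k) b *
            algebraMap k[X] (RatFunc k) b ^ 2 := by
        rw [map_mul]; field_simp
      rw [h3]
      exact h1.mul (Ev.sq hbL)
    have h4 := h2.2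
    rw [w.valuation_of_algebraMap, intValuation_eq_exp_neg_multiplicity w hab0, log_exp,
      even_neg, Int.even_coe_nat] at h4
    exact h4
  obtain ⟨u, g, hug⟩ := exists_unit_sq hcl (a * b) hab0 hev
  obtain ⟨e, he, hue⟩ := Polynomial.isUnit_iff.1 u.isUnit
  have hg0 : g ≠ 0 := by
    rintro rfl
    apply hab0
    rw [hug]; ring
  have hgL : algebraMap k[X] (RatFunc k) g ≠ 0 := by
    rw [Ne, FaithfulSMul.algebraMap_eq_zero_iff]; exact hg0
  refine ⟨e, algebraMap k[X] (RatFunc k) g / algebraMap k[X] (RatFunc k) b, he.ne_zero,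
    div_ne_zero hgL hbL, ?_⟩
  have h5 : algebraMap k[X] (RatFunc k) a * algebraMap k[X] (RatFunc k) b =
      algebraMap k[X] (RatFunc k) (C e) * algebraMap k[X] (RatFunc k) g ^ 2 := by
    rw [← map_mul, ← map_pow, ← map_mul, hue, hug]
  rw [div_pow, div_eq_iff hbL]
  have h6 : algebraMap k[X] (RatFunc k) (C e) *
      (algebraMap k[X] (RatFunc k) g ^ 2 / algebraMap k[X] (RatFunc k) b ^ 2) *
      algebraMap k[X] (RatFunc k) b = (algebraMap k[X] (RatFunc k) (C e) *
        algebraMap k[X] (RatFunc k) g ^ 2) / algebraMap k[X] (RatFunc k) b := by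
    field_simp
  rw [h6, ← h5]
  field_simp

theorem isSquare_const {a : k} (h : IsSquare (algebraMap k[X] (RatFunc k) (C a))) :
    IsSquare a := by
  obtain ⟨s, hs⟩ := h
  have hint : IsIntegral k[X] (s ^ 2) := by
    rw [sq, ← hs]; exact isIntegral_algebraMap
  obtain ⟨p, rfl⟩ := IsIntegrallyClosed.exists_algebraMap_eq_of_isIntegral_pow
    (R := k[X]) two_pos hint
  rw [← map_mul] at hs
  have h1 : C a = p * p := IsFractionRing.injective k[X] (RatFunc k) hs
  by_cases hp : p = 0
  · subst hp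
    rw [mul_zero, C_eq_zero] at h1
    exact ⟨0, by rw [h1, mul_zero]⟩
  · have h2 := congrArg natDegree h1
    rw [natDegree_C, natDegree_mul hp hp] at h2
    have h3 : p.natDegree = 0 := by omega
    obtain ⟨b, rfl⟩ := natDegree_eq_zero.1 h3
    rw [← C_mul] at h1
    exact ⟨b, C_injective h1⟩

theorem isSquare_of_prod {F : Type*} [Field F] [Algebra F k] [Finite k]
    [Fintype (k ≃ₐ[F] k)] (hodd : Odd (Fintype.card (k ≃ₐ[F] k))) {e : k} (he : e ≠ 0)
    (h : IsSquare (∏ σ : k ≃ₐ[F] k, σ e)) : IsSquare e := by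
  classical
  haveI : Fintype k := Fintype.ofFinite k
  have hσ : ∀ σ : k ≃ₐ[F] k, IsSquare (σ e) ↔ IsSquare e := by
    intro σ
    constructor
    · rintro ⟨r, hr⟩
      refine ⟨σ.symm r, ?_⟩
      rw [← map_mul, ← hr, AlgEquiv.symm_apply_apply]
    · rintro ⟨r, hr⟩
      exact ⟨σ r, by rw [← map_mul, ← hr]⟩
  have hσ0 : ∀ σ : k ≃ₐ[F] k, σ e ≠ 0 := fun σ => by rw [Ne, map_eq_zero]; exact he
  have hprod0 : ∏ σ : k ≃ₐ[F] k, σ e ≠ 0 := Finset.prod_ne_zero_iff.2 fun σ _ => hσ0 σ
  have h1 := (quadraticChar_one_iff_isSquare hprod0).2 h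
  rw [map_prod] at h1
  have h2 : ∀ σ : k ≃ₐ[F] k, quadraticChar k (σ e) = quadraticChar k e := by
    intro σ
    rcases quadraticChar_dichotomy he with h3 | h3
    · rw [h3, quadraticChar_one_iff_isSquare (hσ0 σ), hσ,
        ← quadraticChar_one_iff_isSquare he]
      exact h3
    · rw [h3, quadraticChar_neg_one_iff_not_isSquare, hσ,
        ← quadraticChar_neg_one_iff_not_isSquare]
      exact h3
  rw [Finset.prod_congr rfl fun σ _ => h2 σ, Finset.prod_const, Finset.card_univ] at h1
  rcases quadraticChar_dichotomy he with h3 | h3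
  · exact (quadraticChar_one_iff_isSquare he).1 h3
  · rw [h3, hodd.neg_one_pow] at h1
    exact absurd h1 (by norm_num)

end

end Pool.Agent.H83.T5
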