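import Pool.Agent.H83.T5.Alt
import Pool.Agent.H83.T5.Unit
import Pool.Agent.H94.LT.Fin

/-!
The core theorem: a Selmer element is a square.
-/

set_option linter.unusedSectionVars false
set_option linter.style.haveILetI false

namespace Pool.Agent.H83.T5

open Polynomial WithZero IsDedekindDomain HeightOneSpectrum
open Pool.Agent.H94.LT Pool.Agent.H94.TC

section

variable {F k : Type*} [Field F] [Field k] [Algebra F k] [FiniteDimensional F k]

attribute [local instance] polyAlg ratAlg isScalarTower_rat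

variable [Fintype (k ≃ₐ[F] k)] [DecidableEq (k ≃ₐ[F] k)]

/-- the residue field of `k[x]` at `φ - τ` is the residue field of `F[x]` at `W` -/
theorem exists_resid {P φ : F[X]} {τ : k}
    (hP : P.map (algebraMap F k) = ∏ σ : k ≃ₐ[F] k, (X - C (σ τ)))
    (hcard : Fintype.card (k ≃ₐ[F] k) = Module.finrank F k) (hW : Irreducible (P.comp φ))
    (y : k[X]) : ∃ z : F[X], qq φ τ 1 ∣ y - z.map (algebraMap F k) := by
  have hq := qq_irreducible hP hcard hW 1
  haveI : Fact (Irreducible (qq φ τ (1 : k ≃ₐ[F] k))) := ⟨hq⟩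
  haveI : Fact (Irreducible (P.comp φ)) := ⟨hW⟩
  haveI : FiniteDimensional k (AdjoinRoot (qq φ τ (1 : k ≃ₐ[F] k))) :=
    (AdjoinRoot.powerBasis hq.ne_zero).finite
  haveI : FiniteDimensional F (AdjoinRoot (qq φ τ (1 : k ≃ₐ[F] k))) :=
    FiniteDimensional.trans F k _
  haveI : FiniteDimensional F (AdjoinRoot (P.comp φ)) := (AdjoinRoot.powerBasis hW.ne_zero).finite
  set E := AdjoinRoot (qq φ τ (1 : k ≃ₐ[F] k)) with hE
  have heval : ∀ z : F[X], aeval (AdjoinRoot.root (qq φ τ (1 : k ≃ₐ[F] k))) z =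
      AdjoinRoot.mk (qq φ τ (1 : k ≃ₐ[F] k)) (z.map (algebraMap F k)) := by
    intro z
    rw [← aeval_map_algebraMap k, AdjoinRoot.aeval_eq]
  have hroot : aeval (AdjoinRoot.root (qq φ τ (1 : k ≃ₐ[F] k))) (P.comp φ) = 0 := by
    rw [heval, AdjoinRoot.mk_eq_zero, prod_qq φ τ P hP, ← qq_mul_th φ τ 1]
    exact Dvd.intro _ rfl
  set f : AdjoinRoot (P.comp φ) →ₐ[F] E :=
    AdjoinRoot.liftAlgHom (P.comp φ) (Algebra.ofId F E) (AdjoinRoot.root _) hroot with hf
  have hfin : Module.finrank F (AdjoinRoot (P.comp φ)) = Module.finrank F E := by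
    rw [← Module.finrank_mul_finrank F k E]
    have h1 : Module.finrank F (AdjoinRoot (P.comp φ)) = (P.comp φ).natDegree := by
      rw [(AdjoinRoot.powerBasis hW.ne_zero).finrank, AdjoinRoot.powerBasis_dim]
    have h2 : Module.finrank k E = (qq φ τ (1 : k ≃ₐ[F] k)).natDegree := by
      rw [(AdjoinRoot.powerBasis hq.ne_zero).finrank, AdjoinRoot.powerBasis_dim]
    rw [h1, h2, natDegree_comp, natDegree_P hP, hcard, qq, natDegree_sub_C, natDegree_map]
  have hinj : Function.Injective f.toLinearMap := f.toRingHom.injective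
  have hsurj : Function.Surjective f.toLinearMap :=
    (LinearMap.injective_iff_surjective_of_finrank_eq_finrank hfin).1 hinj
  obtain ⟨z', hz'⟩ := hsurj (AdjoinRoot.mk _ y)
  obtain ⟨z, rfl⟩ := AdjoinRoot.mk_surjective z'
  refine ⟨z, ?_⟩
  have h3 : f (AdjoinRoot.mk (P.comp φ) z) = AdjoinRoot.mk _ y := hz'
  have h4 : f (AdjoinRoot.mk (P.comp φ) z) =
      aeval (AdjoinRoot.root (qq φ τ (1 : k ≃ₐ[F] k))) z := by
    rw [hf]
    exact AdjoinRoot.liftAlgHom_mk (P.comp φ) (Algebra.ofId F E) _ _ z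
  rw [h4, heval, AdjoinRoot.mk_eq_mk, dvd_sub_comm] at h3
  exact h3

/-- if `-D` is a square at the prime `φ - τ` of `k[x]` then it is a square modulo `W` -/
theorem isSquare_of_resid {P φ D : F[X]} {τ : k}
    (hP : P.map (algebraMap F k) = ∏ σ : k ≃ₐ[F] k, (X - C (σ τ)))
    (hcard : Fintype.card (k ≃ₐ[F] k) = Module.finrank F k) (hW : Irreducible (P.comp φ))
    (w0 : HeightOneSpectrum k[X]) (hw0 : w0.asIdeal = Ideal.span {qq φ τ 1}) (y : k[X])
    (hy : (-D.map (algebraMap F k)) * y ^ 2 - 1 ∈ w0.asIdeal) :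
    IsSquare (AdjoinRoot.mk (P.comp φ) (-D)) := by
  obtain ⟨z, hz⟩ := exists_resid hP hcard hW y
  obtain ⟨v0, hv0⟩ := exists_below (F := F) w0
  have hmem0 : (∏ σ, qq φ τ σ) ∈ w0.asIdeal := by
    rw [← qq_mul_th φ τ 1]
    refine Ideal.mul_mem_right _ _ ?_
    rw [hw0]; exact Ideal.mem_span_singleton_self _
  rw [← prod_qq φ τ P hP, ← mem_below hv0] at hmem0
  have hspan := asIdeal_eq_span hW hmem0
  have h1 : ((-D) * z ^ 2 - 1).map (algebraMap F k) ∈ w0.asIdeal := by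
    have h2 : ((-D) * z ^ 2 - 1).map (algebraMap F k) =
        ((-D.map (algebraMap F k)) * y ^ 2 - 1) +
        (y - z.map (algebraMap F k)) * (D.map (algebraMap F k) *
          (y + z.map (algebraMap F k))) := by
      rw [Polynomial.map_sub, Polynomial.map_mul, Polynomial.map_neg, Polynomial.map_pow,
        Polynomial.map_one]
      ring
    rw [h2]
    refine add_mem hy (Ideal.mul_mem_right _ _ ?_)
    rw [hw0, Ideal.mem_span_singleton]
    exact hz
  rw [← mem_below hv0, hspan, Ideal.mem_span_singleton] at h1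
  haveI : Fact (Irreducible (P.comp φ)) := ⟨hW⟩
  rw [← AdjoinRoot.mk_eq_zero, map_sub, map_mul, map_pow, map_one, sub_eq_zero] at h1
  have hz0 : AdjoinRoot.mk (P.comp φ) z ≠ 0 := by
    intro h0
    rw [h0, zero_pow two_ne_zero, mul_zero] at h1
    exact zero_ne_one h1
  refine ⟨(AdjoinRoot.mk (P.comp φ) z)⁻¹, ?_⟩
  rw [← mul_inv, ← sq]
  exact eq_inv_of_mul_eq_one_left h1

/-- every Selmer element is a square or `θ` times a square; the latter happens only if `-D` is a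
square modulo `W` -/
theorem core [Finite k] (P φ D : F[X]) (τ : k)
    (hP : P.map (algebraMap F k) = ∏ σ : k ≃ₐ[F] k, (X - C (σ τ)))
    (hτ : ∀ σ ρ : k ≃ₐ[F] k, σ τ = ρ τ → σ = ρ)
    (hcard : Fintype.card (k ≃ₐ[F] k) = Module.finrank F k)
    (hodd : Odd (Fintype.card (k ≃ₐ[F] k))) (h2 : (2 : k) ≠ 0) (hW : Irreducible (P.comp φ))
    (hD : ∀ Q : F[X], Irreducible Q → Q ∣ D → Nat.Coprime Q.natDegree (Module.finrank F k))
    (hWD : ¬ P.comp φ ∣ D) (Δ : (RatFunc F)[X])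
    (hloc : ∀ v : HeightOneSpectrum F[X], LocImTw (fPoly P φ) D v Δ)
    (hne : dd φ τ Δ 1 ≠ 0) (hnorm : IsSquare (∏ σ, dd φ τ Δ σ)) :
    IsSquare (dd φ τ Δ 1) ∨ (IsSquare (AdjoinRoot.mk (P.comp φ) (-D)) ∧
      IsSquare (algebraMap k[X] (RatFunc k) (th φ τ 1) * dd φ τ Δ 1)) := by
  have hq := qq_irreducible hP hcard hW 1
  -- the place `φ - τ`
  set w0 : HeightOneSpectrum k[X] := place (qq φ τ 1) hq with hw0def
  have hw0 : w0.asIdeal = Ideal.span {qq φ τ 1} := rfl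
  have hthne : ∀ σ, algebraMap k[X] (RatFunc k) (th φ τ σ) ≠ 0 := by
    intro σ
    rw [Ne, FaithfulSMul.algebraMap_eq_zero_iff, th]
    exact Finset.prod_ne_zero_iff.2 fun ρ _ => (qq_irreducible hP hcard hW ρ).ne_zero
  rcases alt P φ D τ hP hτ hcard hodd h2 hW hD hWD Δ hloc hne hnorm w0 hw0 with h | ⟨h, hcl⟩
  · left
    obtain ⟨e, g, he, hg, hx⟩ := exists_const_sq _ hne h
    have hσ : ∀ σ : k ≃ₐ[F] k, dd φ τ Δ σ =
        algebraMap k[X] (RatFunc k) (C (σ e)) * (sL σ g) ^ 2 := by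
      intro σ
      have h3 := congrArg (sL σ) hx
      rw [sL_dd, mul_one, map_mul, map_pow, sL_alg, sB_C] at h3
      exact h3
    have h4 : IsSquare (algebraMap k[X] (RatFunc k) (C (∏ σ : k ≃ₐ[F] k, σ e))) := by
      obtain ⟨s, hs⟩ := hnorm
      rw [Finset.prod_congr rfl fun σ _ => hσ σ, Finset.prod_mul_distrib, Finset.prod_pow] at hs
      have h5 : algebraMap k[X] (RatFunc k) (C (∏ σ : k ≃ₐ[F] k, σ e)) =
          ∏ σ : k ≃ₐ[F] k, algebraMap k[X] (RatFunc k) (C (σ e)) := by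
        rw [map_prod, map_prod]
      have h6 : ∏ σ : k ≃ₐ[F] k, sL σ g ≠ 0 :=
        Finset.prod_ne_zero_iff.2 fun σ _ => sL_ne_zero σ hg
      refine ⟨s / ∏ σ : k ≃ₐ[F] k, sL σ g, ?_⟩
      rw [h5, div_mul_div_comm, ← hs, ← sq, mul_div_assoc, div_self (pow_ne_zero 2 h6), mul_one]
    have h7 := isSquare_of_prod hodd he (isSquare_const h4)
    obtain ⟨s, hs⟩ := h7
    refine ⟨algebraMap k[X] (RatFunc k) (C s) * g, ?_⟩
    rw [hx, hs, C_mul, map_mul]; ring
  · right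
    have hne' : algebraMap k[X] (RatFunc k) (th φ τ 1) * dd φ τ Δ 1 ≠ 0 :=
      mul_ne_zero (hthne 1) hne
    obtain ⟨e, g, he, hg, hx⟩ := exists_const_sq _ hne' h
    have hσ : ∀ σ : k ≃ₐ[F] k, algebraMap k[X] (RatFunc k) (th φ τ σ) * dd φ τ Δ σ =
        algebraMap k[X] (RatFunc k) (C (σ e)) * (sL σ g) ^ 2 := by
      intro σ
      have h3 := congrArg (sL σ) hx
      rw [map_mul, sL_dd, mul_one, sL_alg, sB_th, mul_one, map_mul, map_pow, sL_alg, sB_C] at h3
      exact h3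
    -- `∏ θ_σ` is a square
    have hthsq : IsSquare (∏ σ : k ≃ₐ[F] k, th φ τ σ) := by
      set V := ∏ σ : k ≃ₐ[F] k, qq φ τ σ with hV
      have hV0 : V ≠ 0 :=
        Finset.prod_ne_zero_iff.2 fun ρ _ => (qq_irreducible hP hcard hW ρ).ne_zero
      have h3 : V * ∏ σ : k ≃ₐ[F] k, th φ τ σ = V ^ Fintype.card (k ≃ₐ[F] k) := by
        rw [hV, ← Finset.prod_mul_distrib, Finset.prod_congr rfl fun σ _ => qq_mul_th φ τ σ,
          Finset.prod_const, Finset.card_univ]
      obtain ⟨j, hj⟩ := hodd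
      refine ⟨V ^ j, mul_left_cancel₀ hV0 ?_⟩
      rw [h3, hj]; ring
    have h4 : IsSquare (algebraMap k[X] (RatFunc k) (C (∏ σ : k ≃ₐ[F] k, σ e))) := by
      obtain ⟨s, hs⟩ := hnorm
      obtain ⟨t, ht⟩ := hthsq
      have h5 : algebraMap k[X] (RatFunc k) (C (∏ σ : k ≃ₐ[F] k, σ e)) =
          ∏ σ : k ≃ₐ[F] k, algebraMap k[X] (RatFunc k) (C (σ e)) := by
        rw [map_prod, map_prod]
      have h6 : ∏ σ : k ≃ₐ[F] k, sL σ g ≠ 0 :=
        Finset.prod_ne_zero_iff.2 fun σ _ => sL_ne_zero σ hg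
      have h8 : (∏ σ : k ≃ₐ[F] k, algebraMap k[X] (RatFunc k) (C (σ e))) *
          (∏ σ : k ≃ₐ[F] k, sL σ g) ^ 2 = (algebraMap k[X] (RatFunc k) t * s) ^ 2 := by
        rw [← Finset.prod_pow, ← Finset.prod_mul_distrib,
          ← Finset.prod_congr rfl fun σ _ => hσ σ, Finset.prod_mul_distrib, hs, ← map_prod, ht,
          map_mul]
        ring
      refine ⟨(algebraMap k[X] (RatFunc k) t * s) / ∏ σ : k ≃ₐ[F] k, sL σ g, ?_⟩
      rw [h5, div_mul_div_comm, ← sq, ← sq, ← h8, mul_div_assoc, div_self (pow_ne_zero 2 h6),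
        mul_one]
    have h7 := isSquare_of_prod hodd he (isSquare_const h4)
    obtain ⟨s, hs⟩ := h7
    -- `θ δ` is a square
    set θ := algebraMap k[X] (RatFunc k) (th φ τ 1) with hθ
    set δ := dd φ τ Δ 1 with hδ
    set DL := algebraMap F[X] (RatFunc k) D with hDL
    have hs0 : s ≠ 0 := by rintro rfl; rw [mul_zero] at hs; exact he hs
    have hsq : θ * δ = (algebraMap k[X] (RatFunc k) (C s) * g) ^ 2 := by
      rw [hx, hs, C_mul, map_mul]; ring
    have hroot0 : algebraMap k[X] (RatFunc k) (C s) * g ≠ 0 := by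
      refine mul_ne_zero ?_ hg
      rw [Ne, FaithfulSMul.algebraMap_eq_zero_iff, C_eq_zero]
      exact hs0
    set ι := algebraMap (RatFunc k) (w0.adicCompletion (RatFunc k)) with hι
    have hc1 : Cl (Valued.v : Valuation (w0.adicCompletion (RatFunc k)) ℤᵐ⁰) (ι θ * ι δ) := by
      rw [← map_mul, hsq, map_pow]
      refine Cl.sq ?_
      rw [Ne, map_eq_zero]
      exact hroot0
    rw [map_mul] at hcl
    have hc2 := hc1.trans hcl
    have hc3 : Cl (Valued.v : Valuation (w0.adicCompletion (RatFunc k)) ℤᵐ⁰) (ι (-DL)) := by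
      have h8 : ι θ * ι (-(DL * θ)) = ι (-DL) * ι θ ^ 2 := by
        rw [← map_mul, ← map_pow, ← map_mul]
        congr 1
        ring
      rw [h8] at hc2
      refine Cl.of_mul_sq ?_ hc2
      rw [Ne, map_eq_zero]
      exact hthne 1
    have hmem0 : (∏ σ, qq φ τ σ) ∈ w0.asIdeal := by
      rw [← qq_mul_th φ τ 1]
      refine Ideal.mul_mem_right _ _ ?_
      rw [hw0]; exact Ideal.mem_span_singleton_self _
    have hD0 : -D.map (algebraMap F k) ∉ w0.asIdeal := by
      rw [neg_mem_iff]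
      exact D_notMem hP hW hWD w0 hmem0
    have hDL' : -DL = algebraMap k[X] (RatFunc k) (-D.map (algebraMap F k)) := by
      rw [hDL, IsScalarTower.algebraMap_apply F[X] k[X] (RatFunc k), map_neg]
      rfl
    rw [hDL'] at hc3
    obtain ⟨y, hy⟩ := exists_of_Cl (K := RatFunc k) w0 (qq φ τ 1) hq.ne_zero hw0 _ hD0 hc3
    exact ⟨isSquare_of_resid hP hcard hW w0 hw0 y hy,
      ⟨algebraMap k[X] (RatFunc k) (C s) * g, by rw [hsq, sq]⟩⟩

end

end Pool.Agent.H83.T5
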