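import Mathlib

/-!
Factorisation over an extension `k / F` of polynomials with coefficients in `F`.
-/

set_option linter.unusedSectionVars false
set_option linter.style.haveILetI false

namespace Pool.Agent.H83.T5

open Polynomial

section

variable {F k : Type*} [Field F] [Field k] [Algebra F k] [FiniteDimensional F k]

/-- the degree of an irreducible polynomial over `F` divides `[k : F]` times the degree of each
of its irreducible factors over `k` -/
theorem natDegree_dvd_of_factor {Q : F[X]} (hQ : Irreducible Q) {q : k[X]} (hq : Irreducible q)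
    (hdvd : q ∣ Q.map (algebraMap F k)) : Q.natDegree ∣ Module.finrank F k * q.natDegree := by
  haveI : Fact (Irreducible q) := ⟨hq⟩
  haveI : FiniteDimensional k (AdjoinRoot q) := (AdjoinRoot.powerBasis hq.ne_zero).finite
  haveI : FiniteDimensional F (AdjoinRoot q) := FiniteDimensional.trans F k (AdjoinRoot q)
  have h1 : Module.finrank k (AdjoinRoot q) = q.natDegree := by
    rw [(AdjoinRoot.powerBasis hq.ne_zero).finrank, AdjoinRoot.powerBasis_dim]
  have h2 : Module.finrank F (AdjoinRoot q) = Module.finrank F k * q.natDegree := by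
    rw [← h1, Module.finrank_mul_finrank]
  set x := AdjoinRoot.root q with hx
  have hint : IsIntegral F x := Algebra.IsIntegral.isIntegral x
  have hroot : aeval x Q = 0 := by
    have h3 : aeval x Q = AdjoinRoot.mk q (Q.map (algebraMap F k)) := by
      rw [← aeval_map_algebraMap k, AdjoinRoot.aeval_eq]
    rw [h3, AdjoinRoot.mk_eq_zero]
    exact hdvd
  have h4 : (minpoly F x).natDegree = Q.natDegree := by
    have h5 := minpoly.eq_of_irreducible hQ hroot
    rw [← h5, natDegree_mul_C]
    exact inv_ne_zero (leadingCoeff_ne_zero.2 hQ.ne_zero)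
  rw [← h4, ← IntermediateField.adjoin.finrank hint, ← h2]
  exact ⟨_, (Module.finrank_mul_finrank F (IntermediateField.adjoin F {x}) (AdjoinRoot q)).symm⟩

/-- if the degree is prime to `[k : F]` then the polynomial stays irreducible -/
theorem irreducible_map_of_coprime {Q : F[X]} (hQ : Irreducible Q)
    (hcop : Nat.Coprime Q.natDegree (Module.finrank F k)) :
    Irreducible (Q.map (algebraMap F k)) := by
  have hQ0 : Q.map (algebraMap F k) ≠ 0 := by
    rw [Ne, Polynomial.map_eq_zero]; exact hQ.ne_zero
  have hdeg : (Q.map (algebraMap F k)).natDegree = Q.natDegree := natDegree_map _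
  have hnu : ¬ IsUnit (Q.map (algebraMap F k)) := by
    intro hu
    have h1 := natDegree_eq_zero_of_isUnit hu
    rw [hdeg] at h1
    exact absurd hQ.natDegree_pos (by omega)
  obtain ⟨q, hq, hdvd⟩ := WfDvdMonoid.exists_irreducible_factor hnu hQ0
  have h1 := natDegree_dvd_of_factor hQ hq hdvd
  have h2 : Q.natDegree ∣ q.natDegree := hcop.dvd_of_dvd_mul_left h1
  have h3 : Q.natDegree ≤ q.natDegree := Nat.le_of_dvd hq.natDegree_pos h2
  obtain ⟨r, hr⟩ := hdvd
  have hr0 : r ≠ 0 := by rintro rfl; rw [mul_zero] at hr; exact hQ0 hr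
  have h4 : Q.natDegree = q.natDegree + r.natDegree := by
    rw [← hdeg, hr, natDegree_mul hq.ne_zero hr0]
  have h5 : r.natDegree = 0 := by omega
  have h6 : IsUnit r := isUnit_iff_degree_eq_zero.2 (by
    rw [degree_eq_natDegree hr0, h5]; rfl)
  rw [hr]
  exact (irreducible_mul_isUnit h6).2 hq

/-- a factor whose degree is the degree over `F` divided by `[k : F]` is irreducible -/
theorem irreducible_of_degree {Q : F[X]} (hQ : Irreducible Q) {q : k[X]}
    (hdvd : q ∣ Q.map (algebraMap F k)) (hdeg : Q.natDegree = Module.finrank F k * q.natDegree) :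
    Irreducible q := by
  have hm : 0 < Module.finrank F k := Module.finrank_pos
  have hQ0 : Q.map (algebraMap F k) ≠ 0 := by
    rw [Ne, Polynomial.map_eq_zero]; exact hQ.ne_zero
  have hq0 : q ≠ 0 := by rintro rfl; exact hQ0 (zero_dvd_iff.1 hdvd)
  have hnu : ¬ IsUnit q := by
    intro hu
    have h1 := natDegree_eq_zero_of_isUnit hu
    rw [h1, mul_zero] at hdeg
    exact absurd hQ.natDegree_pos (by omega)
  obtain ⟨p, hp, hpq⟩ := WfDvdMonoid.exists_irreducible_factor hnu hq0
  have h1 := natDegree_dvd_of_factor hQ hp (hpq.trans hdvd)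
  rw [hdeg] at h1
  have h2 : q.natDegree ∣ p.natDegree := Nat.dvd_of_mul_dvd_mul_left hm h1
  have h3 : q.natDegree ≤ p.natDegree := Nat.le_of_dvd hp.natDegree_pos h2
  obtain ⟨r, hr⟩ := hpq
  have hr0 : r ≠ 0 := by rintro rfl; rw [mul_zero] at hr; exact hq0 hr
  have h4 : q.natDegree = p.natDegree + r.natDegree := by
    conv_lhs => rw [hr]
    rw [natDegree_mul hp.ne_zero hr0]
  have h5 : r.natDegree = 0 := by omega
  have h6 : IsUnit r := isUnit_iff_degree_eq_zero.2 (by
    rw [degree_eq_natDegree hr0, h5]; rfl)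
  rw [hr]
  exact (irreducible_mul_isUnit h6).2 hp

end

end Pool.Agent.H83.T5
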