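import Pool.Agent.H94.LT.Cl

/-!
The action of `Gal(k/F)` on `k[x]` and `k(x)`.
-/

set_option linter.unusedSectionVars false
set_option linter.style.haveILetI false

namespace Pool.Agent.H83.T5

open Polynomial WithZero IsDedekindDomain HeightOneSpectrum
open Pool.Agent.H94.LT

section

variable (F k : Type*) [Field F] [Field k] [Algebra F k]

/-- `k[x]` as an algebra over `F[x]` -/
@[reducible] noncomputable def polyAlg : Algebra F[X] k[X] :=
  (mapRingHom (algebraMap F k)).toAlgebra

attribute [local instance] polyAlg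

/-- `k(x)` as an algebra over `F(x)` -/
@[reducible] noncomputable def ratAlg : Algebra (RatFunc F) (RatFunc k) :=
  (IsFractionRing.map (A := F[X]) (B := k[X]) (K := RatFunc F) (L := RatFunc k)
    (j := mapRingHom (algebraMap F k)) (map_injective _ (algebraMap F k).injective)).toAlgebra

attribute [local instance] ratAlg

theorem ratAlg_algebraMap (p : F[X]) :
    algebraMap (RatFunc F) (RatFunc k) (algebraMap F[X] (RatFunc F) p) =
      algebraMap k[X] (RatFunc k) (p.map (algebraMap F k)) := by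
  exact IsLocalization.map_eq (M := nonZeroDivisors F[X]) (T := nonZeroDivisors k[X])
    (S := RatFunc F) (Q := RatFunc k) (nonZeroDivisors_le_comap_nonZeroDivisors_of_injective _
      (map_injective _ (algebraMap F k).injective)) p

theorem isScalarTower_rat : IsScalarTower F[X] (RatFunc F) (RatFunc k) := by
  refine IsScalarTower.of_algebraMap_eq fun p => ?_
  rw [ratAlg_algebraMap, IsScalarTower.algebraMap_apply F[X] k[X] (RatFunc k)]
  rfl

variable {F k}

/-- the action on `k[x]` -/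
noncomputable def sB (σ : k ≃ₐ[F] k) : k[X] ≃+* k[X] := mapEquiv σ.toRingEquiv

theorem sB_apply (σ : k ≃ₐ[F] k) (p : k[X]) : sB σ p = p.map (σ : k →+* k) := rfl

theorem sB_C (σ : k ≃ₐ[F] k) (a : k) : sB σ (C a) = C (σ a) := by
  rw [sB_apply, Polynomial.map_C]; rfl

theorem sB_X (σ : k ≃ₐ[F] k) : sB σ (X : k[X]) = X := by rw [sB_apply, Polynomial.map_X]

theorem sB_base (σ : k ≃ₐ[F] k) (p : F[X]) :
    sB σ (p.map (algebraMap F k)) = p.map (algebraMap F k) := by
  rw [sB_apply, Polynomial.map_map]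
  congr 1
  ext a
  simp

theorem sB_mul (σ ρ : k ≃ₐ[F] k) (p : k[X]) : sB (σ * ρ) p = sB σ (sB ρ p) := by
  rw [sB_apply, sB_apply, sB_apply, Polynomial.map_map]
  rfl

theorem sB_one (p : k[X]) : sB (1 : k ≃ₐ[F] k) p = p := by
  rw [sB_apply]
  have : ((1 : k ≃ₐ[F] k) : k →+* k) = RingHom.id k := rfl
  rw [this, Polynomial.map_id]

/-- the action on `k(x)` -/
noncomputable def sL (σ : k ≃ₐ[F] k) : RatFunc k →+* RatFunc k :=
  IsFractionRing.map (A := k[X]) (B := k[X]) (K := RatFunc k) (L := RatFunc k)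
    (j := (sB σ : k[X] →+* k[X])) (sB σ).injective

theorem sL_alg (σ : k ≃ₐ[F] k) (p : k[X]) :
    sL σ (algebraMap k[X] (RatFunc k) p) = algebraMap k[X] (RatFunc k) (sB σ p) := by
  exact IsLocalization.map_eq (M := nonZeroDivisors k[X]) (T := nonZeroDivisors k[X])
    (S := RatFunc k) (Q := RatFunc k) (nonZeroDivisors_le_comap_nonZeroDivisors_of_injective _
      (sB σ).injective) p

theorem sL_mul (σ ρ : k ≃ₐ[F] k) (x : RatFunc k) : sL (σ * ρ) x = sL σ (sL ρ x) := by
  have h : sL (σ * ρ) = (sL σ).comp (sL ρ) := by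
    refine IsFractionRing.ringHom_ext (A := k[X]) fun p => ?_
    rw [RingHom.comp_apply, sL_alg, sL_alg, sL_alg, sB_mul]
  rw [h]; rfl

theorem sL_one (x : RatFunc k) : sL (1 : k ≃ₐ[F] k) x = x := by
  have h : sL (1 : k ≃ₐ[F] k) = RingHom.id (RatFunc k) := by
    refine IsFractionRing.ringHom_ext (A := k[X]) fun p => ?_
    rw [sL_alg, sB_one]; rfl
  rw [h]; rfl

theorem sL_base (σ : k ≃ₐ[F] k) (x : RatFunc F) :
    sL σ (algebraMap (RatFunc F) (RatFunc k) x) = algebraMap (RatFunc F) (RatFunc k) x := by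
  have h : (sL σ).comp (algebraMap (RatFunc F) (RatFunc k)) =
      algebraMap (RatFunc F) (RatFunc k) := by
    refine IsFractionRing.ringHom_ext (A := F[X]) fun p => ?_
    rw [RingHom.comp_apply, ratAlg_algebraMap, sL_alg, sB_base]
  exact RingHom.congr_fun h x

theorem sL_aeval (σ : k ≃ₐ[F] k) (y : RatFunc k) (Δ : (RatFunc F)[X]) :
    sL σ (aeval y Δ) = aeval (sL σ y) Δ := by
  rw [aeval_def, aeval_def, hom_eval₂]
  congr 1
  exact RingHom.ext fun x => sL_base σ x

theorem sL_ne_zero (σ : k ≃ₐ[F] k) {x : RatFunc k} (hx : x ≠ 0) : sL σ x ≠ 0 := by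
  rw [Ne, map_eq_zero]; exact hx

/-- transport of valuations -/
theorem intVal_transport (e : k[X] ≃+* k[X]) (w w' : HeightOneSpectrum k[X])
    (h : ∀ p, e p ∈ w.asIdeal ↔ p ∈ w'.asIdeal) (p : k[X]) :
    w.intValuation (e p) = w'.intValuation p := by
  have hcomap : w'.asIdeal = w.asIdeal.comap (e : k[X] →+* k[X]) := by
    ext x
    rw [Ideal.mem_comap]
    exact (h x).symm
  have hpow : ∀ n : ℕ, p ∈ w'.asIdeal ^ n ↔ e p ∈ w.asIdeal ^ n := by
    intro n
    have h1 : w'.asIdeal ^ n = (w.asIdeal ^ n).comap (e : k[X] →+* k[X]) := by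
      rw [hcomap]
      have h2 : ∀ I : Ideal k[X], I.comap (e : k[X] →+* k[X]) = I.map (e.symm : k[X] →+* k[X]) := by
        intro I
        exact (Ideal.map_symm e).symm
      rw [h2, h2, Ideal.map_pow]
    rw [h1, Ideal.mem_comap]
    rfl
  by_cases hp : p = 0
  · subst hp; simp
  have hep : e p ≠ 0 := by rw [Ne, map_eq_zero_iff _ e.injective]; exact hp
  apply le_antisymm
  · -- `w'.intValuation p = exp (-n)`
    rw [w'.intValuation_if_neg hp]
    rw [intValuation_le_pow_iff_mem, ← hpow, ← intValuation_le_pow_iff_mem,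
      w'.intValuation_if_neg hp]
  · rw [w.intValuation_if_neg hep]
    rw [intValuation_le_pow_iff_mem, hpow, ← intValuation_le_pow_iff_mem,
      w.intValuation_if_neg hep]

theorem val_transport (σ : k ≃ₐ[F] k) (w w' : HeightOneSpectrum k[X])
    (h : ∀ p, sB σ p ∈ w.asIdeal ↔ p ∈ w'.asIdeal) (x : RatFunc k) :
    w.valuation (RatFunc k) (sL σ x) = w'.valuation (RatFunc k) x := by
  obtain ⟨a, b, hb, rfl⟩ := IsFractionRing.div_surjective (A := k[X]) x
  rw [map_div₀, map_div₀, map_div₀, sL_alg, sL_alg, w.valuation_of_algebraMap,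
    w.valuation_of_algebraMap, w'.valuation_of_algebraMap, w'.valuation_of_algebraMap,
    intVal_transport (sB σ) w w' h, intVal_transport (sB σ) w w' h]

end

end Pool.Agent.H83.T5
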