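import Pool.Agent.H83.T5.Model

/-!
The identity between the models `z² = D P(t) (φ - t)` and `D y² = f(U)`.
-/

namespace Pool.Agent.H83.T5

open Polynomial

section

variable {F : Type*} [Field F]

theorem natDegree_lin (φ : F[X]) : (C φ * X - 1 : F[X][X]).natDegree ≤ 1 := by
  refine (natDegree_sub_le _ _).trans ?_
  rw [natDegree_one]
  refine max_le ?_ zero_le_one
  refine (natDegree_C_mul_le _ _).trans ?_
  rw [natDegree_X]

theorem natDegree_lin_pow (φ : F[X]) (i : ℕ) : ((C φ * X - 1 : F[X][X]) ^ i).natDegree ≤ i := by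
  have h1 := natDegree_pow_le_of_le (p := (C φ * X - 1 : F[X][X])) i (natDegree_lin φ)
  rwa [mul_one] at h1

theorem hPoly_natDegree_le (P φ : F[X]) : (hPoly P φ).natDegree ≤ P.natDegree := by
  refine natDegree_sum_le_of_forall_le _ _ fun i hi => ?_
  have hi' : i ≤ P.natDegree := Nat.lt_succ_iff.1 (Finset.mem_range.1 hi)
  rw [mul_assoc]
  refine (natDegree_C_mul_le _ _).trans ((natDegree_mul_le).trans ?_)
  rw [natDegree_X_pow]
  have := natDegree_lin_pow φ i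
  omega

theorem hPoly_coeff (P φ : F[X]) : (hPoly P φ).coeff P.natDegree = P.comp φ := by
  rw [hPoly, finsetSum_coeff, comp, eval₂_eq_sum_range]
  refine Finset.sum_congr rfl fun i hi => ?_
  have hi' : i ≤ P.natDegree := Nat.lt_succ_iff.1 (Finset.mem_range.1 hi)
  rw [mul_assoc, coeff_C_mul, coeff_mul_X_pow', if_pos (Nat.sub_le _ _), Nat.sub_sub_self hi']
  congr 1
  have h1 := coeff_pow_of_natDegree_le (p := (C φ * X - 1 : F[X][X])) (m := i) (natDegree_lin φ)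
  rw [mul_one] at h1
  rw [h1, coeff_sub, coeff_C_mul, coeff_X_one, mul_one, coeff_one, if_neg one_ne_zero, sub_zero]

theorem hPoly_eval₂ {M : Type*} [Field M] (ι : F[X] →+* M) (P φ : F[X]) (t : M)
    (h : ι φ - t ≠ 0) :
    (hPoly P φ).eval₂ ι (ι φ - t)⁻¹ = ((ι φ - t)⁻¹) ^ P.natDegree * P.eval₂ (ι.comp C) t := by
  have h1 : ι φ * (ι φ - t)⁻¹ - 1 = t * (ι φ - t)⁻¹ := by
    field_simp
    ring
  rw [hPoly, eval₂_finsetSum, eval₂_eq_sum_range, Finset.mul_sum]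
  refine Finset.sum_congr rfl fun i hi => ?_
  have hi' : i ≤ P.natDegree := Nat.lt_succ_iff.1 (Finset.mem_range.1 hi)
  rw [eval₂_mul, eval₂_mul, eval₂_pow, eval₂_pow, eval₂_sub, eval₂_mul, eval₂_C, eval₂_C,
    eval₂_X, eval₂_one, h1, mul_pow, RingHom.comp_apply]
  have h2 : ((ι φ - t)⁻¹) ^ P.natDegree =
      ((ι φ - t)⁻¹) ^ i * ((ι φ - t)⁻¹) ^ (P.natDegree - i) := by
    rw [← pow_add, Nat.add_sub_cancel' hi']
  rw [h2]; ring

theorem hPoly_lead (P φ : F[X]) (hW : P.comp φ ≠ 0) :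
    (hPoly P φ).natDegree = P.natDegree ∧ (hPoly P φ).leadingCoeff = P.comp φ := by
  have hnd : (hPoly P φ).natDegree = P.natDegree := by
    refine le_antisymm (hPoly_natDegree_le P φ) (le_natDegree_of_ne_zero ?_)
    rw [hPoly_coeff]; exact hW
  exact ⟨hnd, by rw [leadingCoeff, hnd, hPoly_coeff]⟩

theorem fPoly_monic (P φ : F[X]) (hW : P.comp φ ≠ 0) : (fPoly P φ).Monic := by
  refine monic_integralNormalization ?_
  intro h0
  have h1 := (hPoly_lead P φ hW).2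
  rw [h0, leadingCoeff_zero] at h1
  exact hW h1.symm

theorem fPoly_natDegree (P φ : F[X]) (hW : P.comp φ ≠ 0) :
    (fPoly P φ).natDegree = P.natDegree := by
  rw [fPoly, natDegree_integralNormalization]
  exact (hPoly_lead P φ hW).1

theorem fPoly_eval₂ {M : Type*} [Field M] (ι : F[X] →+* M) (P φ : F[X]) (hdeg : 1 ≤ P.natDegree)
    (hW : P.comp φ ≠ 0) (t : M) (h : ι φ - t ≠ 0) :
    (fPoly P φ).eval₂ ι (ι (P.comp φ) / (ι φ - t)) * (ι φ - t) ^ P.natDegree =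
      ι (P.comp φ) ^ (P.natDegree - 1) * P.eval₂ (ι.comp C) t := by
  have hnd : (hPoly P φ).natDegree = P.natDegree := by
    refine le_antisymm (hPoly_natDegree_le P φ) (le_natDegree_of_ne_zero ?_)
    rw [hPoly_coeff]; exact hW
  have hlc : (hPoly P φ).leadingCoeff = P.comp φ := by
    rw [leadingCoeff, hnd, hPoly_coeff]
  have h1 := integralNormalization_eval₂_leadingCoeff_mul (p := hPoly P φ) (by rw [hnd]; exact hdeg)
    ι (ι φ - t)⁻¹
  rw [hnd, hlc, hPoly_eval₂ ι P φ t h, ← div_eq_mul_inv] at h1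
  rw [fPoly, h1]
  have h2 : ((ι φ - t)⁻¹) ^ P.natDegree * (ι φ - t) ^ P.natDegree = 1 := by
    rw [← mul_pow, inv_mul_cancel₀ h, one_pow]
  linear_combination (ι (P.comp φ) ^ (P.natDegree - 1) * P.eval₂ (ι.comp C) t) * h2

theorem model_iff {M : Type*} [Field M] (ι : F[X] →+* M) (P φ D : F[X]) (g : ℕ)
    (hdeg : P.natDegree = 2 * g + 1) (hW : P.comp φ ≠ 0) (hW' : ι (P.comp φ) ≠ 0)
    (hD' : ι D ≠ 0) (t z : M) (h : t ≠ ι φ) :
    z ^ 2 = ι D * P.eval₂ (ι.comp C) t * (ι φ - t) ↔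
      ι D * (ι (P.comp φ) ^ g * z / (ι D * (ι φ - t) ^ (g + 1))) ^ 2 =
        (fPoly P φ).eval₂ ι (ι (P.comp φ) / (ι φ - t)) := by
  have hs : ι φ - t ≠ 0 := sub_ne_zero.2 (Ne.symm h)
  have h1 := fPoly_eval₂ ι P φ (by omega) hW t hs
  rw [hdeg] at h1
  have h2 : 2 * g + 1 - 1 = 2 * g := by omega
  rw [h2] at h1
  set A := (fPoly P φ).eval₂ ι (ι (P.comp φ) / (ι φ - t)) with hA
  set B := P.eval₂ (ι.comp C) t with hB
  set s := ι φ - t with hs'
  set w := ι (P.comp φ) with hw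
  set d := ι D with hd
  have h3 : d * (w ^ g * z / (d * s ^ (g + 1))) ^ 2 = w ^ (2 * g) * z ^ 2 / (d * s ^ (2 * g + 2)) := by
    field_simp
    ring
  have h4 : A = w ^ (2 * g) * B / s ^ (2 * g + 1) := by
    rw [eq_div_iff (pow_ne_zero _ hs)]; exact h1
  rw [h3, h4, div_eq_div_iff (mul_ne_zero hD' (pow_ne_zero _ hs)) (pow_ne_zero _ hs)]
  have hw2 : w ^ (2 * g) * s ^ (2 * g + 1) ≠ 0 :=
    mul_ne_zero (pow_ne_zero _ hW') (pow_ne_zero _ hs)
  constructor
  · intro h5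
    rw [h5]; ring
  · intro h5
    refine mul_left_cancel₀ hw2 ?_
    linear_combination h5

end

end Pool.Agent.H83.T5
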