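import Mathlib

/-!
The polynomials `h(u) = u^m P(φ - 1/u)` and `f(U) = W^(m-1) h(U/W)`, `W = P(φ)`.
-/

set_option linter.unusedSectionVars false
set_option linter.style.haveILetI false

namespace Pool.Agent.H83.T5

open Polynomial

section

variable {R : Type*} [CommRing R]

/-- `h(u) = u^m P(φ - 1/u) = ∑ p_i (φ u - 1)^i u^(m-i)` -/
noncomputable def hPoly (P φ : R[X]) : R[X][X] :=
  ∑ i ∈ Finset.range (P.natDegree + 1), C (C (P.coeff i)) * (C φ * X - 1) ^ i *
    X ^ (P.natDegree - i)

/-- the monic polynomial `f(U) = W^(m-1) h(U / W)`, where `W = P(φ)` is the leading coefficient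
of `h` -/
noncomputable def fPoly (P φ : R[X]) : R[X][X] := (hPoly P φ).integralNormalization

theorem hPoly_eq_eval (P φ : R[X]) : hPoly P φ =
    ((P.map ((C : R[X] →+* R[X][X]).comp C)).scaleRoots X).eval (C φ * X - 1) := by
  by_cases hR : Nontrivial R
  swap
  · haveI := not_nontrivial_iff_subsingleton.1 hR
    exact Subsingleton.elim _ _
  have hinj : Function.Injective ((C : R[X] →+* R[X][X]).comp C) :=
    (C_injective).comp C_injective
  rw [eval_eq_sum_range, natDegree_scaleRoots, natDegree_map_eq_of_injective hinj, hPoly]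
  refine Finset.sum_congr rfl fun i _ => ?_
  rw [coeff_scaleRoots, coeff_map, natDegree_map_eq_of_injective hinj]
  simp only [RingHom.comp_apply]
  ring

theorem hPoly_map {S : Type*} [CommRing S] (g : R →+* S) (hg : Function.Injective g)
    (P φ : R[X]) : (hPoly P φ).map (mapRingHom g) = hPoly (P.map g) (φ.map g) := by
  rw [hPoly, hPoly, natDegree_map_eq_of_injective hg, Polynomial.map_sum]
  refine Finset.sum_congr rfl fun i _ => ?_
  simp only [Polynomial.map_mul, Polynomial.map_pow, Polynomial.map_sub, Polynomial.map_C,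
    Polynomial.map_X, Polynomial.map_one, coe_mapRingHom, coeff_map]

end

section

variable {R : Type*} [CommRing R] [IsDomain R]

theorem prod_scaleRoots {S : Type*} [CommRing S] [IsDomain S] {ι : Type*} (s : Finset ι)
    (g : ι → S[X]) (r : S) : (∏ i ∈ s, g i).scaleRoots r = ∏ i ∈ s, (g i).scaleRoots r := by
  classical
  induction s using Finset.induction_on with
  | empty => rw [Finset.prod_empty, Finset.prod_empty, one_scaleRoots]
  | insert a s ha ih =>
    rw [Finset.prod_insert ha, Finset.prod_insert ha, mul_scaleRoots_of_noZeroDivisors, ih]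

theorem hPoly_prod {ι : Type*} [Fintype ι] (τ : ι → R) (φ : R[X]) :
    hPoly (∏ i, (X - C (τ i))) φ = ∏ i, (C (φ - C (τ i)) * X - 1) := by
  rw [hPoly_eq_eval, Polynomial.map_prod, prod_scaleRoots, eval_prod]
  refine Finset.prod_congr rfl fun i _ => ?_
  rw [Polynomial.map_sub, Polynomial.map_X, Polynomial.map_C, X_sub_C_scaleRoots, eval_sub,
    eval_X, eval_C, RingHom.comp_apply, C_sub]
  ring

theorem leadingCoeff_lin {S : Type*} [CommRing S] [IsDomain S] {q : S} (hq : q ≠ 0) :
    (C q * X - 1 : S[X]).leadingCoeff = q ∧ (C q * X - 1 : S[X]).natDegree = 1 := by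
  have h1 : (C q * X - 1 : S[X]) = C q * X + C (-1) := by rw [C_neg, C_1]; ring
  rw [h1]
  exact ⟨leadingCoeff_linear hq, natDegree_linear hq⟩

theorem lin_scaleRoots {S : Type*} [CommRing S] [IsDomain S] {q : S} (hq : q ≠ 0) (V : S) :
    (C q * X - 1 : S[X]).scaleRoots V = C q * X - C V := by
  have h3 : (C q * X - 1 : S[X]) = C q * X + C (-1) := by rw [C_neg, C_1]; ring
  rw [h3]
  ext n
  rw [coeff_scaleRoots, natDegree_linear hq]
  rcases n with _ | _ | n
  · simp
  · simp [coeff_one]
  · simp [coeff_X, coeff_one]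

theorem fPoly_prod {ι : Type*} [Fintype ι] [DecidableEq ι] (τ : ι → R) (φ : R[X])
    (h : ∀ i, φ - C (τ i) ≠ 0) :
    fPoly (∏ i, (X - C (τ i))) φ =
      ∏ i, (X - C (∏ j ∈ Finset.univ.erase i, (φ - C (τ j)))) := by
  set q : ι → R[X] := fun i => φ - C (τ i) with hq
  have hW : (∏ i, q i) ≠ 0 := Finset.prod_ne_zero_iff.2 fun i _ => h i
  have hlead : (hPoly (∏ i, (X - C (τ i))) φ).leadingCoeff = ∏ i, q i := by
    rw [hPoly_prod, leadingCoeff_prod]
    exact Finset.prod_congr rfl fun i _ => (leadingCoeff_lin (h i)).1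
  have h1 := integralNormalization_mul_C_leadingCoeff (hPoly (∏ i, (X - C (τ i))) φ)
  rw [hlead] at h1
  have hCW : (C (∏ i, q i) : R[X][X]) ≠ 0 := by rwa [Ne, C_eq_zero]
  apply mul_right_cancel₀ hCW
  have hCp : (C (∏ i, q i) : R[X][X]) = ∏ i, C (q i) := map_prod C _ _
  rw [fPoly, h1, hPoly_prod, prod_scaleRoots, hCp, ← Finset.prod_mul_distrib]
  refine Finset.prod_congr rfl fun i _ => ?_
  -- `scaleRoots (q X - 1) W = q X - W = q (X - W / q)`
  have h2 : (C (φ - C (τ i)) * X - 1 : R[X][X]).scaleRoots (∏ i, q i) =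
      C (q i) * X - C (∏ i, q i) := lin_scaleRoots (h i) _
  rw [h2, ← Finset.mul_prod_erase Finset.univ q (Finset.mem_univ i), C_mul]
  ring

theorem hPoly_leadingCoeff_ne {ι : Type*} [Fintype ι] (τ : ι → R) (φ : R[X])
    (h : ∀ i, φ - C (τ i) ≠ 0) : hPoly (∏ i, (X - C (τ i))) φ ≠ 0 := by
  rw [hPoly_prod]
  refine Finset.prod_ne_zero_iff.2 fun i _ h0 => ?_
  have h1 := (leadingCoeff_lin (h i)).2
  rw [h0] at h1
  simp at h1

/-- over a splitting field -/
theorem fPoly_map {F k : Type*} [Field F] [Field k] (g : F →+* k) {ι : Type*} [Fintype ι]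
    [DecidableEq ι] (P φ : F[X]) (τ : ι → k) (hP : P.map g = ∏ i, (X - C (τ i)))
    (h : ∀ i, φ.map g - C (τ i) ≠ 0) :
    (fPoly P φ).map (mapRingHom g) =
      ∏ i, (X - C (∏ j ∈ Finset.univ.erase i, (φ.map g - C (τ j)))) := by
  have h1 : (mapRingHom g) (hPoly P φ).leadingCoeff ≠ 0 := by
    intro h0
    have h2 : (hPoly P φ).leadingCoeff = 0 := by
      have h3 : Function.Injective (mapRingHom g) := map_injective g g.injective
      rwa [map_eq_zero_iff _ h3] at h0
    rw [leadingCoeff_eq_zero] at h2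
    have h4 := hPoly_map g g.injective P φ
    rw [h2, Polynomial.map_zero, hP] at h4
    exact hPoly_leadingCoeff_ne τ (φ.map g) h h4.symm
  rw [fPoly, ← integralNormalization_map _ _ h1, hPoly_map g g.injective, hP]
  exact fPoly_prod τ (φ.map g) h

end

end Pool.Agent.H83.T5
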