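import Pool.Agent.H83.T5.Closed

/-!
Closed points near a node.
-/

set_option linter.unusedSectionVars false
set_option linter.style.haveILetI false

namespace Pool.Agent.H83.T5

open Polynomial WithZero
open Pool.Agent.H94.LT

section

variable {M : Type*} [NontriviallyNormedField M] [IsUltrametricDist M] [CompleteSpace M]
  {M' : Type*} [Field M'] [Algebra M M'] [FiniteDimensional M M'] {w : Valuation M ℤᵐ⁰}

/-- the middle of the annulus: if `-c r₀` is not a square then all norms are even -/
theorem annulus (hw : ∀ x : M, ‖x‖ < 1 ↔ w x < 1) (h2 : w 2 = 1) {ι : Type*} [Fintype ι]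
    (heven : Even (Fintype.card ι)) {c r0 : M} (hc : w c = 1) (hr0 : w r0 = 1) (r : ι → M)
    {α β : M'} (hα : spectralNorm M M' α < 1) (hr : ∀ i, ‖r i‖ < spectralNorm M M' α)
    (h : algebraMap M M' c * β ^ 2 = (α - algebraMap M M' r0) * ∏ i, (α - algebraMap M M' (r i)))
    (hcl : ¬ Cl w (-(c * r0))) :
    Even (Module.finrank M M') ∧ ∀ x : M', x ≠ 0 → Ev w (Algebra.norm M x) := by
  classical
  have hc0 : c ≠ 0 := by rintro rfl; simp at hc
  have hr00 : r0 ≠ 0 := by rintro rfl; simp at hr0
  have hu : w (-(c * r0)) = 1 := by rw [Valuation.map_neg, map_mul, hc, hr0, one_mul]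
  -- `α ≠ 0`
  have hα0 : α ≠ 0 ∨ IsEmpty ι := by
    by_cases hι : IsEmpty ι
    · exact Or.inr hι
    · left
      rw [not_isEmpty_iff] at hι
      obtain ⟨i⟩ := hι
      rintro rfl
      have := hr i
      rw [spectralNorm_zero] at this
      exact absurd this (not_lt.2 (norm_nonneg _))
  obtain ⟨g, hg⟩ := heven
  set R0 := algebraMap M M' r0 with hR0
  have hR00 : R0 ≠ 0 := by rw [hR0, Ne, map_eq_zero]; exact hr00
  have hsR0 : spectralNorm M M' R0 = 1 := by
    rw [hR0, sn_alg]; exact (norm_eq_one_iff' hw _).2 hr0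
  -- principal units
  have hprin : ∀ {x y : M'}, spectralNorm M M' (x - 1) < 1 → spectralNorm M M' (y - 1) < 1 →
      spectralNorm M M' (x * y - 1) < 1 := by
    intro x y hx hy
    have h1 : x * y - 1 = (x - 1) * (y - 1) + ((x - 1) + (y - 1)) := by ring
    rw [h1]
    refine lt_of_le_of_lt (sn_add _ _) (max_lt ?_ (lt_of_le_of_lt (sn_add _ _) (max_lt hx hy)))
    rw [sn_mul]
    calc _ ≤ spectralNorm M M' (x - 1) * 1 :=
          mul_le_mul_of_nonneg_left hy.le (spectralNorm_nonneg _)
      _ < 1 := by rw [mul_one]; exact hx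
  have hprinprod : ∀ (s : Finset ι) (f : ι → M'), (∀ i ∈ s, spectralNorm M M' (f i - 1) < 1) →
      spectralNorm M M' (∏ i ∈ s, f i - 1) < 1 := by
    intro s f
    induction s using Finset.induction_on with
    | empty => intro _; simp [spectralNorm_zero]
    | insert a s ha ih =>
      intro hf
      rw [Finset.prod_insert ha]
      exact hprin (hf a (Finset.mem_insert_self _ _))
        (ih fun i hi => hf i (Finset.mem_insert_of_mem hi))
  -- the principal unit
  set P := ∏ i : ι, (1 - algebraMap M M' (r i) / α) with hP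
  have hP1 : spectralNorm M M' (P - 1) < 1 := by
    rw [hP]
    refine hprinprod _ _ fun i _ => ?_
    have h3 : 1 - algebraMap M M' (r i) / α - 1 = -(algebraMap M M' (r i) / α) := by ring
    rw [h3, sn_neg, sn_div, sn_alg]
    have hpos : 0 < spectralNorm M M' α := lt_of_le_of_lt (norm_nonneg _) (hr i)
    rw [div_lt_one hpos]
    exact hr i
  set Q := (1 - α / R0) * P with hQ
  have hQ1 : spectralNorm M M' (Q - 1) < 1 := by
    rw [hQ]
    refine hprin ?_ hP1
    have h3 : 1 - α / R0 - 1 = -(α / R0) := by ring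
    rw [h3, sn_neg, sn_div, hsR0, div_one]
    exact hα
  obtain ⟨σ, hσ⟩ := exists_sq_ext (M := M) ((norm_eq_one_iff' hw _).2 h2) (Q - 1) hQ1
  have hσ' : σ ^ 2 = Q := by rw [hσ]; ring
  have hQ0 : Q ≠ 0 := by
    intro h0
    rw [h0, zero_sub, sn_neg, spectralNorm_one] at hQ1
    exact lt_irrefl _ hQ1
  have hσ0 : σ ≠ 0 := by
    rintro rfl
    apply hQ0; rw [← hσ']; ring
  -- the product
  have hprodα : ∏ i : ι, (α - algebraMap M M' (r i)) = α ^ (2 * g) * P := by
    rcases hα0 with hα0 | hι
    · rw [hP]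
      have h3 : α ^ (2 * g) = ∏ _i : ι, α := by
        rw [Finset.prod_const, Finset.card_univ, hg]; congr 1; omega
      rw [h3, ← Finset.prod_mul_distrib]
      refine Finset.prod_congr rfl fun i _ => ?_
      field_simp
    · have hcard : Fintype.card ι = 0 := Fintype.card_eq_zero
      have hg0 : g = 0 := by omega
      subst hg0
      rw [hP]
      simp
  have hαg : α ^ g ≠ 0 := by
    rcases hα0 with hα0 | hι
    · exact pow_ne_zero g hα0
    · have hcard : Fintype.card ι = 0 := Fintype.card_eq_zero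
      have hg0 : g = 0 := by omega
      subst hg0; simp
  have hmain : algebraMap M M' c * β ^ 2 = -R0 * (α ^ g) ^ 2 * Q := by
    rw [h, hprodα, hQ]
    field_simp
    ring
  refine unram (M' := M') hw hu hcl (ρ := algebraMap M M' c * β / (α ^ g * σ)) ?_
  rw [div_pow, mul_pow, mul_pow, hσ']
  rw [div_eq_iff (mul_ne_zero (pow_ne_zero 2 hαg) hQ0)]
  rw [map_neg, map_mul]
  linear_combination (algebraMap M M' c) * hmain

theorem closed_node (hw : ∀ x : M, ‖x‖ < 1 ↔ w x < 1) (h2 : w 2 = 1) {ι : Type*} [Fintype ι]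
    (heven : Even (Fintype.card ι)) {ϖ c r0 : M} (hϖ : w ϖ = exp (-1 : ℤ)) (hc : w c = 1)
    (hr0 : w r0 = 1) (r : ι → M) (hr : ∀ i, w (r i) = exp (-1 : ℤ))
    (hrr : ∀ i j, i ≠ j → w (r i - r j) = exp (-1 : ℤ)) {α β : M'} (hβ : β ≠ 0)
    (h : algebraMap M M' c * β ^ 2 =
      (α - algebraMap M M' r0) * ∏ i, (α - algebraMap M M' (r i))) :
    (Cl w (c ^ Module.finrank M M' * Algebra.norm M (α - algebraMap M M' r0)) ∧
      ∀ i, Ev w (Algebra.norm M (α - algebraMap M M' (r i)))) ∨
    (Cl w (c ^ Module.finrank M M' * Algebra.norm M (α - algebraMap M M' r0) * (-(c * r0))) ∧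
      ∀ i, Ev w (ϖ * Algebra.norm M (α - algebraMap M M' (r i)))) := by
  classical
  have hc0 : c ≠ 0 := by rintro rfl; simp at hc
  have hr00 : r0 ≠ 0 := by rintro rfl; simp at hr0
  have hϖ0 : ϖ ≠ 0 := by rintro rfl; rw [map_zero] at hϖ; exact exp_ne_zero hϖ.symm
  set d := Module.finrank M M' with hd
  set n0 := Algebra.norm M (α - algebraMap M M' r0) with hn0
  set a := Algebra.norm M α with ha
  have hprod0 : (α - algebraMap M M' r0) * ∏ i, (α - algebraMap M M' (r i)) ≠ 0 := by
    rw [← h]
    exact mul_ne_zero (by rw [Ne, map_eq_zero]; exact hc0) (pow_ne_zero 2 hβ)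
  have hne0 : α - algebraMap M M' r0 ≠ 0 := left_ne_zero_of_mul hprod0
  have hne : ∀ i, α - algebraMap M M' (r i) ≠ 0 := by
    intro i
    exact Finset.prod_ne_zero_iff.1 (right_ne_zero_of_mul hprod0) i (Finset.mem_univ i)
  have hn00 : n0 ≠ 0 := norm_ne_zero' hne0
  have hN : n0 * ∏ i, Algebra.norm M (α - algebraMap M M' (r i)) =
      c ^ d * Algebra.norm M β ^ 2 := by
    rw [hn0, ← map_prod, ← map_mul, ← h, map_mul, map_pow, Algebra.norm_algebraMap]
  have hcd : w (c ^ d) = 1 := by rw [map_pow, hc, one_pow]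
  have hcd0 : c ^ d ≠ 0 := pow_ne_zero d hc0
  have hlt1 : exp (-1 : ℤ) < (1 : ℤᵐ⁰) := by
    rw [← exp_zero, exp_lt_exp]; norm_num
  have hrlt : ∀ i, ‖r i‖ < 1 := fun i => (hw _).2 (by rw [hr i]; exact hlt1)
  have hϖlt : ‖ϖ‖ < 1 := (hw _).2 (by rw [hϖ]; exact hlt1)
  have hrϖ : ∀ i, ‖r i‖ = ‖ϖ‖ := fun i => (norm_eq_iff hw _ _).2 (by rw [hr i, hϖ])
  rcases le_or_gt 1 (spectralNorm M M' α) with hα | hα
  · -- `|α| ≥ 1`
    left
    have hα0 : α ≠ 0 := by
      rintro rfl
      rw [spectralNorm_zero] at hα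
      exact absurd hα (by norm_num)
    have ha0 : a ≠ 0 := norm_ne_zero' hα0
    have hcl : ∀ j, Cl w (Algebra.norm M (α - algebraMap M M' (r j)) * a) := by
      intro j
      apply cl_norm_sub hw
      rw [sn_alg]
      exact lt_of_lt_of_le (hrlt j) hα
    have h3 : Cl w (∏ i, Algebra.norm M (α - algebraMap M M' (r i))) := by
      have h4 := Cl.prod Finset.univ (fun j => Algebra.norm M (α - algebraMap M M' (r j)) * a)
        (fun j _ => hcl j)
      rw [Finset.prod_mul_distrib, Finset.prod_const, Finset.card_univ] at h4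
      obtain ⟨g, hg⟩ := heven
      rw [hg] at h4
      have h5 : a ^ (g + g) = (a ^ g) ^ 2 := by ring
      rw [h5] at h4
      exact Cl.of_mul_sq (pow_ne_zero g ha0) h4
    have h6 : Cl w (c ^ d * n0) := by
      have h7 : Cl w ((∏ i, Algebra.norm M (α - algebraMap M M' (r i))) * (c ^ d * n0)) := by
        have h8 : (∏ i, Algebra.norm M (α - algebraMap M M' (r i))) * (c ^ d * n0) =
            (c ^ d * Algebra.norm M β) ^ 2 := by
          linear_combination (c ^ d) * hN
        rw [h8]
        exact Cl.sq (mul_ne_zero hcd0 (norm_ne_zero' hβ))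
      exact h3.of_mul h7
    refine ⟨h6, ?_⟩
    have hEva : Ev w a := by
      rcases lt_or_eq_of_le hα with hlt | heq
      · have h9 : Cl w (n0 * a) := by
          apply cl_norm_sub hw
          rw [sn_alg, (norm_eq_one_iff' hw _).2 hr0]
          exact hlt
        have h10 : Ev w n0 := (Ev.of_val hcd).of_mul h6.ev
        exact h10.of_mul h9.ev
      · exact Ev.of_val (val_norm_of_sn_one hw heq.symm)
    intro i
    have h11 := (hcl i).ev
    rw [mul_comm] at h11
    exact hEva.of_mul h11
  · -- `|α| < 1`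
    have hneg : Cl w (n0 * (-r0) ^ d) := by
      have h3 := cl_norm_add (M := M) hw (x := -algebraMap M M' r0) (y := α)
        (by rw [sn_neg, sn_alg, (norm_eq_one_iff' hw _).2 hr0]; exact hα)
      have h4 : -algebraMap M M' r0 + α = α - algebraMap M M' r0 := by ring
      rw [h4, ← map_neg, Algebra.norm_algebraMap] at h3
      exact h3
    have hkey : Cl w (c ^ d * n0 * (-(c * r0)) ^ d) := by
      have h3 : c ^ d * n0 * (-(c * r0)) ^ d = n0 * (-r0) ^ d * (c ^ d) ^ 2 := by
        have : (-(c * r0)) ^ d = c ^ d * (-r0) ^ d := by rw [← mul_pow]; ring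
        rw [this]; ring
      rw [h3]
      exact hneg.mul (Cl.sq hcd0)
    have hu0 : (-(c * r0)) ≠ 0 := neg_ne_zero.2 (mul_ne_zero hc0 hr00)
    have hdeven : Even d → Cl w (c ^ d * n0) := by
      intro he
      have h3 := Cl.pow_even (w := w) hu0 he
      rw [mul_comm] at hkey
      exact h3.of_mul hkey
    rcases lt_or_ge ‖ϖ‖ (spectralNorm M M' α) with hα2 | hα2
    · -- the annulus
      have hα0 : α ≠ 0 := by
        rintro rfl
        rw [spectralNorm_zero] at hα2
        exact absurd hα2 (not_lt.2 (norm_nonneg _))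
      have ha0 : a ≠ 0 := norm_ne_zero' hα0
      have hcl : ∀ j, Cl w (Algebra.norm M (α - algebraMap M M' (r j)) * a) := by
        intro j
        apply cl_norm_sub hw
        rw [sn_alg, hrϖ j]
        exact hα2
      by_cases hcu : Cl w (-(c * r0))
      · have hall : Cl w (c ^ d * n0) := by
          have h3 := Cl.pow hcu d
          rw [mul_comm] at hkey
          exact h3.of_mul hkey
        by_cases hEva : Ev w a
        · left
          refine ⟨hall, fun i => ?_⟩
          have h11 := (hcl i).ev
          rw [mul_comm] at h11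
          exact hEva.of_mul h11
        · right
          refine ⟨hall.mul hcu, fun i => ?_⟩
          have hni : Algebra.norm M (α - algebraMap M M' (r i)) ≠ 0 := norm_ne_zero' (hne i)
          have h12 := (hcl i).ev.2
          rw [log_mul' hni ha0, Int.even_add] at h12
          refine ⟨mul_ne_zero hϖ0 hni, ?_⟩
          rw [log_mul' hϖ0 hni, hϖ, log_exp, Int.even_add]
          have h13 : ¬ Even (log (w a)) := fun he => hEva ⟨ha0, he⟩
          have h14 : ¬ Even (log (w (Algebra.norm M (α - algebraMap M M' (r i))))) := by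
            rw [h12]; exact h13
          have h15 : ¬ Even (-1 : ℤ) := by decide
          tauto
      · left
        obtain ⟨he, hall⟩ := annulus hw h2 heven hc hr0 r hα
          (fun i => by rw [hrϖ i]; exact hα2) h hcu
        exact ⟨hdeven he, fun i => hall _ (hne i)⟩
    · -- `|α| ≤ |ϖ|`
      have hϖ' : algebraMap M M' ϖ ≠ 0 := by rw [Ne, map_eq_zero]; exact hϖ0
      set b := α / algebraMap M M' ϖ with hb
      have hbα : α = algebraMap M M' ϖ * b := by rw [hb]; field_simp
      have hsb : spectralNorm M M' b ≤ 1 := by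
        rw [hb, sn_div, sn_alg]
        exact div_le_one_of_le₀ hα2 (norm_nonneg _)
      set s : ι → M := fun i => r i / ϖ with hs
      have hrs : ∀ i, r i = ϖ * s i := by intro i; simp only [hs]; field_simp
      have hs1 : ∀ i, w (s i) ≤ 1 := by
        intro i
        simp only [hs]
        rw [map_div₀, hr i, hϖ, div_self exp_ne_zero]
      have hss : ∀ i j, i ≠ j → w (s i - s j) = 1 := by
        intro i j hij
        simp only [hs]
        rw [← sub_div, map_div₀, hrr i j hij, hϖ, div_self exp_ne_zero]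
      have hfac : ∀ i, α - algebraMap M M' (r i) =
          algebraMap M M' ϖ * (b - algebraMap M M' (s i)) := by
        intro i
        rw [hrs i, map_mul, mul_sub, ← hbα]
      have hnfac : ∀ i, Algebra.norm M (α - algebraMap M M' (r i)) =
          ϖ ^ d * Algebra.norm M (b - algebraMap M M' (s i)) := by
        intro i
        rw [hfac i, map_mul, Algebra.norm_algebraMap]
      have hbne : ∀ i, b - algebraMap M M' (s i) ≠ 0 := by
        intro i h0
        apply hne i
        rw [hfac i, h0, mul_zero]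
      have hn0w : w n0 = 1 := by
        apply val_norm_of_sn_one hw
        have h3 : α - algebraMap M M' r0 = α + -(algebraMap M M' r0) := by ring
        rw [h3, sn_add_eq_of_lt, sn_neg, sn_alg, (norm_eq_one_iff' hw _).2 hr0]
        rw [sn_neg, sn_alg, (norm_eq_one_iff' hw _).2 hr0]
        exact hα
      have hEvprod : Ev w (∏ i, Algebra.norm M (b - algebraMap M M' (s i))) := by
        have h3 : n0 * ((∏ i, Algebra.norm M (b - algebraMap M M' (s i))) *
            (ϖ ^ d) ^ Fintype.card ι) = c ^ d * Algebra.norm M β ^ 2 := by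
          rw [← hN]
          congr 1
          rw [Finset.prod_congr rfl fun i _ => hnfac i, Finset.prod_mul_distrib,
            Finset.prod_const, Finset.card_univ]
          ring
        obtain ⟨g, hg⟩ := heven
        have h4 : (ϖ ^ d) ^ Fintype.card ι = ((ϖ ^ d) ^ g) ^ 2 := by rw [hg]; ring
        rw [h4] at h3
        have h5 : Ev w (n0 * ((∏ i, Algebra.norm M (b - algebraMap M M' (s i))) *
            ((ϖ ^ d) ^ g) ^ 2)) := by
          rw [h3]
          exact (Ev.of_val hcd).mul (Ev.sq (norm_ne_zero' hβ))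
        exact Ev.of_mul_sq (pow_ne_zero g (pow_ne_zero d hϖ0)) ((Ev.of_val hn0w).of_mul h5)
      have hEvi : ∀ i, Ev w (Algebra.norm M (b - algebraMap M M' (s i))) := fun i =>
        ev_of_units hw s hss hs1 b hsb hbne hEvprod i
      rcases Nat.even_or_odd d with he | ho
      · left
        refine ⟨hdeven he, fun i => ?_⟩
        rw [hnfac i]
        exact (Cl.pow_even hϖ0 he).ev.mul (hEvi i)
      · right
        constructor
        · obtain ⟨k, hk⟩ := ho
          have h3 : c ^ d * n0 * (-(c * r0)) ^ d =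
              c ^ d * n0 * (-(c * r0)) * ((-(c * r0)) ^ k) ^ 2 := by
            have : (-(c * r0)) ^ d = (-(c * r0)) * ((-(c * r0)) ^ k) ^ 2 := by
              rw [hk]; ring
            rw [this]; ring
          rw [h3] at hkey
          exact Cl.of_mul_sq (pow_ne_zero k hu0) hkey
        · intro i
          rw [hnfac i]
          have h3 : ϖ * (ϖ ^ d * Algebra.norm M (b - algebraMap M M' (s i))) =
              ϖ ^ (d + 1) * Algebra.norm M (b - algebraMap M M' (s i)) := by ring
          rw [h3]
          exact (Cl.pow_even hϖ0 (ho.add_one)).ev.mul (hEvi i)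

end

end Pool.Agent.H83.T5
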