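import Mathlib

/-!
Norms of finite extensions of a complete ultrametric field.
-/

namespace Pool.Agent.H83.T5

open Polynomial IntermediateField

section

variable {M : Type*} [NontriviallyNormedField M] {M' : Type*} [Field M'] [Algebra M M']
  [FiniteDimensional M M']

theorem norm_eq_coeff (z : M') : Algebra.norm M z =
    ((-1) ^ (minpoly M z).natDegree * (minpoly M z).coeff 0) ^ Module.finrank M⟮z⟯ M' := by
  have hz : IsIntegral M z := Algebra.IsIntegral.isIntegral z
  rw [Algebra.norm_eq_norm_adjoin]
  congr 1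
  have h := Algebra.PowerBasis.norm_gen_eq_coeff_zero_minpoly (adjoin.powerBasis hz)
  rw [adjoin.powerBasis_gen, adjoin.powerBasis_dim, minpoly_gen] at h
  exact h

theorem finrank_eq (z : M') : Module.finrank M M' =
    (minpoly M z).natDegree * Module.finrank M⟮z⟯ M' := by
  have hz : IsIntegral M z := Algebra.IsIntegral.isIntegral z
  rw [← adjoin.finrank hz, Module.finrank_mul_finrank]

variable [IsUltrametricDist M] [CompleteSpace M]

/-- the absolute value of the norm -/
theorem norm_algNorm (z : M') : ‖Algebra.norm M z‖ =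
    spectralNorm M M' z ^ Module.finrank M M' := by
  have hz : IsIntegral M z := Algebra.IsIntegral.isIntegral z
  have hn : (minpoly M z).natDegree ≠ 0 := (minpoly.natDegree_pos hz).ne'
  rw [norm_eq_coeff, finrank_eq z, pow_mul, spectralNorm.spectralNorm_eq_norm_coeff_zero_rpow,
    norm_pow, norm_mul, norm_pow, norm_neg, norm_one, one_pow, one_mul]
  congr 1
  rw [← Real.rpow_natCast, ← Real.rpow_mul (norm_nonneg _), one_div, inv_mul_cancel₀, Real.rpow_one]
  exact_mod_cast hn

omit [FiniteDimensional M M'] [IsUltrametricDist M] [CompleteSpace M] in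
theorem coeff_lt_one (z : M') (hz : spectralNorm M M' z < 1) (i : ℕ)
    (hi : i < (minpoly M z).natDegree) : ‖(minpoly M z).coeff i‖ < 1 := by
  have h1 : spectralValueTerms (minpoly M z) i < 1 :=
    lt_of_le_of_lt (le_ciSup (spectralValueTerms_bddAbove _) i) hz
  rw [spectralValueTerms_of_lt_natDegree _ hi] at h1
  by_contra hlt
  rw [not_lt] at hlt
  have h2 : (0 : ℝ) < 1 / (((minpoly M z).natDegree : ℝ) - i) := by
    apply one_div_pos.2
    have : (i : ℝ) < (minpoly M z).natDegree := by exact_mod_cast hi
    linarith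
  have h3 := Real.one_le_rpow hlt h2.le
  linarith

omit [CompleteSpace M] in
theorem norm_sub_one_pow_lt {x : M} (hx : ‖x - 1‖ < 1) (n : ℕ) : ‖x ^ n - 1‖ < 1 := by
  have hx1 : ‖x‖ ≤ 1 := by
    have h1 : x = (x - 1) + 1 := by ring
    rw [h1]
    refine (IsUltrametricDist.norm_add_le_max _ _).trans (max_le hx.le ?_)
    rw [norm_one]
  induction n with
  | zero => simp
  | succ n ih =>
    have h1 : x ^ (n + 1) - 1 = x ^ n * (x - 1) + (x ^ n - 1) := by ring
    rw [h1]
    refine lt_of_le_of_lt (IsUltrametricDist.norm_add_le_max _ _) (max_lt ?_ ih)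
    rw [norm_mul, norm_pow]
    exact lt_of_le_of_lt (mul_le_of_le_one_left (norm_nonneg _) (pow_le_one₀ (norm_nonneg _) hx1)) hx

/-- norms of principal units are principal units -/
theorem norm_one_add_sub_one (z : M') (hz : spectralNorm M M' z < 1) :
    ‖Algebra.norm M (1 + z) - 1‖ < 1 := by
  have hint : IsIntegral M z := Algebra.IsIntegral.isIntegral z
  rw [norm_eq_coeff]
  apply norm_sub_one_pow_lt
  have h1 : minpoly M (1 + z) = (minpoly M z).comp (X - C 1) := by
    have h2 := minpoly.add_algebraMap z (1 : M)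
    rw [map_one, add_comm] at h2
    exact h2
  set p := minpoly M z with hp
  have hpm : p.Monic := minpoly.monic hint
  have hdeg : (p.comp (X - C 1)).natDegree = p.natDegree := by
    rw [natDegree_comp, natDegree_X_sub_C, mul_one]
  have hc0 : (p.comp (X - C 1)).coeff 0 = p.eval (-1) := by
    rw [coeff_zero_eq_eval_zero, eval_comp]; simp
  rw [h1, hdeg, hc0, eval_eq_sum_range, Finset.sum_range_succ, hpm.coeff_natDegree, one_mul]
  have h3 : (-1 : M) ^ p.natDegree * (∑ i ∈ Finset.range p.natDegree, p.coeff i * (-1) ^ i +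
      (-1) ^ p.natDegree) - 1 =
      (-1 : M) ^ p.natDegree * ∑ i ∈ Finset.range p.natDegree, p.coeff i * (-1) ^ i := by
    rw [mul_add, ← mul_pow]; simp
  rw [h3, norm_mul, norm_pow, norm_neg, norm_one, one_pow, one_mul]
  have hpos : 0 < p.natDegree := minpoly.natDegree_pos hint
  obtain ⟨i, hi, hle⟩ := IsUltrametricDist.exists_norm_finsetSum_le_of_nonempty
    (Finset.nonempty_range_iff.2 hpos.ne') (fun i => p.coeff i * (-1) ^ i)
  refine lt_of_le_of_lt hle ?_
  rw [norm_mul, norm_pow, norm_neg, norm_one, one_pow, mul_one]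
  exact coeff_lt_one z hz i (Finset.mem_range.1 hi)

end

end Pool.Agent.H83.T5
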