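import Pool.Agent.H83.T5.Node
import Pool.Agent.H94.TC.NormRes

/-!
From closed points to Mumford pairs.
-/

set_option linter.unusedSectionVars false
set_option linter.style.haveILetI false

namespace Pool.Agent.H83.T5

open Polynomial WithZero
open Pool.Agent.H94.LT

section

variable {M : Type*} [NontriviallyNormedField M] [IsUltrametricDist M] [CompleteSpace M]
  {w : Valuation M ℤᵐ⁰}

theorem norm_root_sub {p : M[X]} (hp : p.Monic) (r : M) :
    Algebra.norm M (AdjoinRoot.root p - algebraMap M (AdjoinRoot p) r) =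
      (-1) ^ p.natDegree * p.eval r := by
  have h1 : AdjoinRoot.root p - algebraMap M (AdjoinRoot p) r = AdjoinRoot.mk p (X - C r) := by
    rw [map_sub, AdjoinRoot.mk_X, AdjoinRoot.mk_C]; rfl
  rw [h1, H94.TC.norm_eq_resultant p hp, natDegree_X_sub_C, resultant_X_sub_C_right _ _ _ le_rfl]

/-- the closed point of a monic irreducible divisor of `c Q² - f`, `f` a product of linear
factors -/
theorem exists_point {κ : Type*} [Fintype κ] {c : M} (hc : c ≠ 0) (r : κ → M) {p Q : M[X]}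
    (hp : p.Monic) (hirr : Irreducible p) (hcop : IsCoprime p (∏ i, (X - C (r i))))
    (hdvd : p ∣ C c * Q ^ 2 - ∏ i, (X - C (r i))) :
    haveI : Fact (Irreducible p) := ⟨hirr⟩
    AdjoinRoot.mk p Q ≠ 0 ∧ algebraMap M (AdjoinRoot p) c * (AdjoinRoot.mk p Q) ^ 2 =
      ∏ i, (AdjoinRoot.root p - algebraMap M (AdjoinRoot p) (r i)) := by
  haveI : Fact (Irreducible p) := ⟨hirr⟩
  have h1 : ∏ i, (AdjoinRoot.root p - algebraMap M (AdjoinRoot p) (r i)) =
      AdjoinRoot.mk p (∏ i, (X - C (r i))) := by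
    rw [map_prod]
    refine Finset.prod_congr rfl fun i _ => ?_
    rw [map_sub, AdjoinRoot.mk_X, AdjoinRoot.mk_C]; rfl
  have h2 : algebraMap M (AdjoinRoot p) c * (AdjoinRoot.mk p Q) ^ 2 =
      ∏ i, (AdjoinRoot.root p - algebraMap M (AdjoinRoot p) (r i)) := by
    have h3 := AdjoinRoot.mk_eq_mk.2 hdvd
    rw [h1, ← h3, map_mul, map_pow, AdjoinRoot.mk_C]; rfl
  refine ⟨?_, h2⟩
  intro h0
  rw [h0, h1] at h2
  have h4 : AdjoinRoot.mk p (∏ i, (X - C (r i))) = 0 := by rw [← h2]; ring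
  rw [AdjoinRoot.mk_eq_zero] at h4
  exact hirr.not_isUnit (hcop.isUnit_of_dvd' dvd_rfl h4)

/-- induction on monic polynomials by irreducible factors -/
theorem monic_induction {K : Type*} [Field K] {motive : K[X] → Prop} (h1 : motive 1)
    (hmul : ∀ p q : K[X], p.Monic → Irreducible p → q.Monic → motive q → motive (p * q)) :
    ∀ A : K[X], A.Monic → motive A := by
  intro A hA
  induction hn : A.natDegree using Nat.strong_induction_on generalizing A with
  | _ n ih =>
    by_cases hu : IsUnit A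
    · rw [hA.eq_one_of_isUnit hu]; exact h1
    · obtain ⟨p, hp, hirr, q, rfl⟩ := Polynomial.exists_monic_irreducible_factor A hu
      have hq : q.Monic := hp.of_mul_monic_left hA
      refine hmul p q hp hirr hq (ih _ ?_ q hq rfl)
      rw [← hn, hp.natDegree_mul hq]
      have := hirr.natDegree_pos
      omega

/-- parity at a place of good reduction -/
theorem pair_good (hw : ∀ x : M, ‖x‖ < 1 ↔ w x < 1) {ι : Type*} [Fintype ι]
    (hodd : Odd (Fintype.card ι)) {c : M} (hc : w c = 1) (r : ι → M) (hr : ∀ i, w (r i) ≤ 1)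
    (hrr : ∀ i j, i ≠ j → w (r i - r j) = 1) (A Q : M[X]) (hA : A.Monic)
    (hcop : IsCoprime A (∏ i, (X - C (r i)))) (hdvd : A ∣ C c * Q ^ 2 - ∏ i, (X - C (r i)))
    (i : ι) : Ev w (A.eval (r i)) := by
  have hc0 : c ≠ 0 := by rintro rfl; simp at hc
  revert hcop hdvd
  refine monic_induction (motive := fun A => IsCoprime A (∏ i, (X - C (r i))) →
    A ∣ C c * Q ^ 2 - ∏ i, (X - C (r i)) → Ev w (A.eval (r i))) ?_ ?_ A hA
  · intro _ _
    rw [eval_one]
    exact Ev.of_val (map_one w)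
  · intro p q hp hirr hq ih hcop hdvd
    rw [eval_mul]
    have hcop2 := IsCoprime.mul_left_iff.1 hcop
    have hp1 : p ∣ C c * Q ^ 2 - ∏ i, (X - C (r i)) := dvd_trans (Dvd.intro _ rfl) hdvd
    have hq1 : q ∣ C c * Q ^ 2 - ∏ i, (X - C (r i)) := dvd_trans (Dvd.intro_left _ rfl) hdvd
    refine Ev.mul ?_ (ih hcop2.2 hq1)
    haveI : Fact (Irreducible p) := ⟨hirr⟩
    haveI : FiniteDimensional M (AdjoinRoot p) := hp.finite_adjoinRoot
    obtain ⟨h1, h2⟩ := exists_point hc0 r hp hirr hcop2.1 hp1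
    have h3 := closed_good (M' := AdjoinRoot p) hw hodd hc r hr hrr h1 h2 i
    rw [norm_root_sub hp] at h3
    have h4 : Ev w ((-1 : M) ^ p.natDegree) := Ev.of_val (by
      rw [map_pow, Valuation.map_neg, map_one, one_pow])
    exact h4.of_mul h3

/-- the node -/
theorem pair_node (hw : ∀ x : M, ‖x‖ < 1 ↔ w x < 1) (h2 : w 2 = 1) {ι : Type*} [Fintype ι]
    (heven : Even (Fintype.card ι)) {ϖ c r0 : M} (hϖ : w ϖ = exp (-1 : ℤ)) (hc : w c = 1)
    (hr0 : w r0 = 1) (r : ι → M) (hr : ∀ i, w (r i) = exp (-1 : ℤ))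
    (hrr : ∀ i j, i ≠ j → w (r i - r j) = exp (-1 : ℤ)) (A Q : M[X]) (hA : A.Monic)
    (hcop : IsCoprime A ((X - C r0) * ∏ i, (X - C (r i))))
    (hdvd : A ∣ C c * Q ^ 2 - (X - C r0) * ∏ i, (X - C (r i))) :
    (Cl w ((-c) ^ A.natDegree * A.eval r0) ∧ ∀ i, Ev w (A.eval (r i))) ∨
    (Cl w ((-c) ^ A.natDegree * A.eval r0 * (-(c * r0))) ∧ ∀ i, Ev w (ϖ * A.eval (r i))) := by
  have hc0 : c ≠ 0 := by rintro rfl; simp at hc
  have hr00 : r0 ≠ 0 := by rintro rfl; simp at hr0
  have hϖ0 : ϖ ≠ 0 := by rintro rfl; rw [map_zero] at hϖ; exact exp_ne_zero hϖ.symm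
  -- one family of roots
  set r' : Option ι → M := fun o => o.elim r0 r with hr'
  have hprod : (X - C r0) * ∏ i, (X - C (r i)) = ∏ o : Option ι, (X - C (r' o)) := by
    rw [Fintype.prod_option]; rfl
  rw [hprod] at hcop hdvd
  refine monic_induction (motive := fun A => IsCoprime A (∏ o : Option ι, (X - C (r' o))) →
    A ∣ C c * Q ^ 2 - ∏ o : Option ι, (X - C (r' o)) →
    (Cl w ((-c) ^ A.natDegree * A.eval r0) ∧ ∀ i, Ev w (A.eval (r i))) ∨
    (Cl w ((-c) ^ A.natDegree * A.eval r0 * (-(c * r0))) ∧ ∀ i, Ev w (ϖ * A.eval (r i))))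
    ?_ ?_ A hA hcop hdvd
  · intro _ _
    left
    rw [eval_one, natDegree_one, pow_zero, one_mul]
    exact ⟨Cl.one, fun i => by rw [eval_one]; exact Ev.of_val (map_one w)⟩
  · intro p q hp hirr hq ih hcop hdvd
    have hcop2 := IsCoprime.mul_left_iff.1 hcop
    have hp1 : p ∣ C c * Q ^ 2 - ∏ o : Option ι, (X - C (r' o)) :=
      dvd_trans (Dvd.intro _ rfl) hdvd
    have hq1 : q ∣ C c * Q ^ 2 - ∏ o : Option ι, (X - C (r' o)) :=
      dvd_trans (Dvd.intro_left _ rfl) hdvd
    haveI : Fact (Irreducible p) := ⟨hirr⟩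
    haveI : FiniteDimensional M (AdjoinRoot p) := hp.finite_adjoinRoot
    obtain ⟨h3, h4⟩ := exists_point hc0 r' hp hirr hcop2.1 hp1
    rw [Fintype.prod_option] at h4
    have h5 := closed_node (M' := AdjoinRoot p) hw h2 heven hϖ hc hr0 r hr hrr h3 h4
    have hd : Module.finrank M (AdjoinRoot p) = p.natDegree :=
      finrank_quotient_span_eq_natDegree' hp
    rw [hd] at h5
    have hneg : Ev w ((-1 : M) ^ p.natDegree) := Ev.of_val (by
      rw [map_pow, Valuation.map_neg, map_one, one_pow])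
    have hc1 : c ^ p.natDegree * ((-1) ^ p.natDegree * p.eval r0) =
        (-c) ^ p.natDegree * p.eval r0 := by
      rw [← mul_assoc, ← mul_pow]; congr 2; ring
    simp only [norm_root_sub hp] at h5
    rw [hc1] at h5
    have hev1 : ∀ i, Ev w ((-1) ^ p.natDegree * p.eval (r i)) → Ev w (p.eval (r i)) :=
      fun i h => hneg.of_mul h
    have hev2 : ∀ i, Ev w (ϖ * ((-1) ^ p.natDegree * p.eval (r i))) →
        Ev w (ϖ * p.eval (r i)) := by
      intro i h
      have : ϖ * ((-1) ^ p.natDegree * p.eval (r i)) =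
        (-1) ^ p.natDegree * (ϖ * p.eval (r i)) := by ring
      rw [this] at h
      exact hneg.of_mul h
    have hdeg : (p * q).natDegree = p.natDegree + q.natDegree := hp.natDegree_mul hq
    have hsplit : (-c) ^ (p * q).natDegree * (p * q).eval r0 =
        ((-c) ^ p.natDegree * p.eval r0) * ((-c) ^ q.natDegree * q.eval r0) := by
      rw [hdeg, pow_add, eval_mul]; ring
    rw [hsplit]
    simp only [eval_mul]
    rcases h5 with ⟨ha, hb⟩ | ⟨ha, hb⟩ <;> rcases ih hcop2.2 hq1 with ⟨ha', hb'⟩ | ⟨ha', hb'⟩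
    · left
      exact ⟨ha.mul ha', fun i => (hev1 i (hb i)).mul (hb' i)⟩
    · right
      refine ⟨?_, fun i => ?_⟩
      · rw [mul_assoc]; exact ha.mul ha'
      · have h6 := (hev1 i (hb i)).mul (hb' i)
        have h7 : p.eval (r i) * (ϖ * q.eval (r i)) = ϖ * (p.eval (r i) * q.eval (r i)) := by ring
        rwa [h7] at h6
    · right
      refine ⟨?_, fun i => ?_⟩
      · have h6 := ha.mul ha'
        have h7 : (-c) ^ p.natDegree * p.eval r0 * (-(c * r0)) * ((-c) ^ q.natDegree * q.eval r0) =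
          (-c) ^ p.natDegree * p.eval r0 * ((-c) ^ q.natDegree * q.eval r0) * (-(c * r0)) := by
          ring
        rwa [h7] at h6
      · have h6 := (hev2 i (hb i)).mul (hb' i)
        have h7 : ϖ * p.eval (r i) * q.eval (r i) = ϖ * (p.eval (r i) * q.eval (r i)) := by ring
        rwa [h7] at h6
    · left
      refine ⟨?_, fun i => ?_⟩
      · have h6 := ha.mul ha'
        have h7 : (-c) ^ p.natDegree * p.eval r0 * (-(c * r0)) *
            ((-c) ^ q.natDegree * q.eval r0 * (-(c * r0))) =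
          (-c) ^ p.natDegree * p.eval r0 * ((-c) ^ q.natDegree * q.eval r0) *
            (-(c * r0)) ^ 2 := by ring
        rw [h7] at h6
        exact Cl.of_mul_sq (neg_ne_zero.2 (mul_ne_zero hc0 hr00)) h6
      · have h6 := (hev2 i (hb i)).mul (hb' i)
        have h7 : ϖ * p.eval (r i) * (ϖ * q.eval (r i)) =
          p.eval (r i) * q.eval (r i) * ϖ ^ 2 := by ring
        rw [h7] at h6
        exact Ev.of_mul_sq hϖ0 h6

end

end Pool.Agent.H83.T5
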