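import Pool.Agent.H83.T5.Place
import Pool.Agent.H83.T5.AdicLoc

/-!
The conditions at a place `w` of `L` on the conjugates `Δ(r_i)` of a Selmer element.
-/

set_option linter.unusedSectionVars false
set_option linter.style.haveILetI false

namespace Pool.Agent.H83.T5

open Polynomial WithZero IsDedekindDomain HeightOneSpectrum
open Pool.Agent.H94.TC Pool.Agent.H94.LT

section

variable {B L : Type*} [CommRing B] [IsDedekindDomain B] [Field L] [Algebra B L]
  [IsFractionRing B L] (w : HeightOneSpectrum B)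

theorem valued_alg (x : L) :
    (Valued.v (algebraMap L (w.adicCompletion L) x) : ℤᵐ⁰) = w.valuation L x := by
  rw [algebraMap_adicCompletion]
  exact valuedAdicCompletion_eq_valuation' w x

theorem ev_alg_iff (x : L) : Ev (Valued.v : Valuation (w.adicCompletion L) ℤᵐ⁰)
    (algebraMap L (w.adicCompletion L) x) ↔ Ev (w.valuation L) x := by
  rw [Ev, Ev, valued_alg, Ne, map_eq_zero]

end

section

variable {A K B L : Type*} [CommRing A] [IsDomain A] [IsPrincipalIdealRing A] [CommRing B]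
  [IsDedekindDomain B] [Algebra A B] [Module.IsTorsionFree A B] [Field K] [Field L] [Algebra K L]
  [Algebra A K] [IsFractionRing A K] [Algebra A L] [IsScalarTower A K L]
  [Algebra B L] [IsFractionRing B L] [IsScalarTower A B L]
  (v : HeightOneSpectrum A) (w : HeightOneSpectrum B) [w.asIdeal.LiesOver v.asIdeal]

theorem place_good {ι : Type*} [Fintype ι] (hodd : Odd (Fintype.card ι)) (f : A[X]) (D : A)
    (Δ : K[X]) (r : ι → L)
    (hf : (f.map (algebraMap A K)).map (algebraMap K L) = ∏ i, (X - C (r i)))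
    (h : LocImTw f D v Δ) (hD : w.valuation L (algebraMap A L D) = 1)
    (hr : ∀ i, w.valuation L (r i) ≤ 1)
    (hrr : ∀ i j, i ≠ j → w.valuation L (r i - r j) = 1) (i : ι) :
    Ev (w.valuation L) (aeval (r i) Δ) := by
  obtain ⟨P, Q, hP, hcop, hdvd, hg⟩ := place_data v w f D Δ r hf h
  set D' := algebraMap L (w.adicCompletion L) (algebraMap A L D) with hD'
  have hD1 : (Valued.v D' : ℤᵐ⁰) = 1 := by rw [hD', valued_alg, hD]
  have h1 := adic_good w hodd hD1 (fun i => algebraMap L (w.adicCompletion L) (r i))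
    (fun i => by rw [valued_alg]; exact hr i)
    (fun i j hij => by rw [← map_sub, valued_alg]; exact hrr i j hij) P Q hP hcop hdvd i
  obtain ⟨g, hg⟩ := hg i
  have h2 : Ev (Valued.v : Valuation (w.adicCompletion L) ℤᵐ⁰)
      ((-D') ^ P.natDegree * P.eval (algebraMap L (w.adicCompletion L) (r i))) :=
    (Ev.of_val (by rw [map_pow, Valuation.map_neg, hD1, one_pow])).mul h1
  rw [← hg] at h2
  have hg0 : g ≠ 0 := by
    rintro rfl
    apply h2.ne_zero; ring
  rw [← ev_alg_iff]
  exact Ev.of_mul_sq hg0 h2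

theorem place_node {ι : Type*} [Fintype ι] [DecidableEq ι] (hodd : Odd (Fintype.card ι)) (i0 : ι)
    (f : A[X]) (D : A) (Δ : K[X]) (r : ι → L)
    (hf : (f.map (algebraMap A K)).map (algebraMap K L) = ∏ i, (X - C (r i)))
    (h : LocImTw f D v Δ) (h2 : w.valuation L 2 = 1) (ϖ : L)
    (hϖ : w.valuation L ϖ = exp (-1 : ℤ)) (hD : w.valuation L (algebraMap A L D) = 1)
    (hr0 : w.valuation L (r i0) = 1) (hr : ∀ i, i ≠ i0 → w.valuation L (r i) = exp (-1 : ℤ))
    (hrr : ∀ i j, i ≠ i0 → j ≠ i0 → i ≠ j → w.valuation L (r i - r j) = exp (-1 : ℤ)) :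
    (Cl (Valued.v : Valuation (w.adicCompletion L) ℤᵐ⁰)
      (algebraMap L (w.adicCompletion L) (aeval (r i0) Δ)) ∧
      ∀ i, i ≠ i0 → Ev (w.valuation L) (aeval (r i) Δ)) ∨
    (Cl (Valued.v : Valuation (w.adicCompletion L) ℤᵐ⁰)
      (algebraMap L (w.adicCompletion L) (aeval (r i0) Δ * (-(algebraMap A L D * r i0)))) ∧
      ∀ i, i ≠ i0 → Ev (w.valuation L) (ϖ * aeval (r i) Δ)) := by
  obtain ⟨P, Q, hP, hcop, hdvd, hg⟩ := place_data v w f D Δ r hf h
  set D' := algebraMap L (w.adicCompletion L) (algebraMap A L D) with hD'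
  have hD1 : (Valued.v D' : ℤᵐ⁰) = 1 := by rw [hD', valued_alg, hD]
  have h2' : (Valued.v (2 : w.adicCompletion L) : ℤᵐ⁰) = 1 := by
    have h3 := valued_alg w (2 : L)
    rw [map_ofNat, h2] at h3
    exact h3
  have hcard : Even (Fintype.card {i : ι // i ≠ i0}) := by
    rw [Fintype.card_subtype_compl, Fintype.card_subtype_eq]
    obtain ⟨k, hk⟩ := hodd
    exact ⟨k, by omega⟩
  set r' : ι → w.adicCompletion L := fun i => algebraMap L (w.adicCompletion L) (r i) with hr'
  have hprod : ∏ i, (X - C (algebraMap L (w.adicCompletion L) (r i))) =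
      (X - C (r' i0)) * ∏ i : {i : ι // i ≠ i0}, (X - C (r' i)) := by
    rw [← Finset.mul_prod_erase Finset.univ _ (Finset.mem_univ i0)]
    congr 1
    exact Finset.prod_subtype (p := fun i => i ≠ i0) (Finset.univ.erase i0) (by simp) _
  rw [hprod] at hcop hdvd
  have h1 := adic_node w h2' hcard (ϖ := algebraMap L (w.adicCompletion L) ϖ)
    (by rw [valued_alg]; exact hϖ) hD1 (r0 := r' i0) (by rw [hr', valued_alg]; exact hr0)
    (fun i : {i : ι // i ≠ i0} => r' i) (fun i => by rw [hr', valued_alg]; exact hr i i.2)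
    (fun i j hij => by
      rw [hr']
      simp only
      rw [← map_sub, valued_alg]
      exact hrr i j i.2 j.2 (fun h => hij (Subtype.ext h))) P Q hP hcop hdvd
  have hDn : Ev (Valued.v : Valuation (w.adicCompletion L) ℤᵐ⁰) ((-D') ^ P.natDegree) :=
    Ev.of_val (by rw [map_pow, Valuation.map_neg, hD1, one_pow])
  have hg0 : ∀ i g, algebraMap L (w.adicCompletion L) (aeval (r i) Δ) * g ^ 2 =
      (-D') ^ P.natDegree * P.eval (r' i) → P.eval (r' i) ≠ 0 → g ≠ 0 := by
    rintro i g hg hne rfl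
    have h3 : (-D') ^ P.natDegree * P.eval (r' i) = 0 := by rw [← hg]; ring
    exact (mul_ne_zero hDn.ne_zero hne) h3
  obtain ⟨g0, hg00⟩ := hg i0
  rcases h1 with ⟨ha, hb⟩ | ⟨ha, hb⟩
  · left
    constructor
    · have hne := right_ne_zero_of_mul ha.ne_zero
      rw [← hg00] at ha
      exact Cl.of_mul_sq (hg0 i0 g0 hg00 hne) ha
    · intro i hi
      obtain ⟨g, hgi⟩ := hg i
      have h3 := hDn.mul (hb ⟨i, hi⟩)
      have hne := (hb ⟨i, hi⟩).ne_zero
      rw [← hgi] at h3
      rw [← ev_alg_iff]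
      exact Ev.of_mul_sq (hg0 i g hgi hne) h3
  · right
    constructor
    · have hne := right_ne_zero_of_mul (left_ne_zero_of_mul ha.ne_zero)
      rw [← hg00] at ha
      have h3 : algebraMap L (w.adicCompletion L) (aeval (r i0) Δ) * g0 ^ 2 * (-(D' * r' i0)) =
          algebraMap L (w.adicCompletion L) (aeval (r i0) Δ * (-(algebraMap A L D * r i0))) *
            g0 ^ 2 := by
        rw [map_mul, map_neg, map_mul]
        ring
      rw [h3] at ha
      exact Cl.of_mul_sq (hg0 i0 g0 hg00 hne) ha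
    · intro i hi
      obtain ⟨g, hgi⟩ := hg i
      have h3 := hDn.mul (hb ⟨i, hi⟩)
      have hne := right_ne_zero_of_mul (hb ⟨i, hi⟩).ne_zero
      have h4 : (-D') ^ P.natDegree * (algebraMap L (w.adicCompletion L) ϖ *
          P.eval (r' (⟨i, hi⟩ : {i : ι // i ≠ i0}))) =
          algebraMap L (w.adicCompletion L) (ϖ * aeval (r i) Δ) * g ^ 2 := by
        rw [map_mul, mul_assoc, hgi]
        ring
      rw [h4] at h3
      rw [← ev_alg_iff]
      exact Ev.of_mul_sq (hg0 i g hgi hne) h3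

end

end Pool.Agent.H83.T5
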