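import Pool.Agent.H83.T5.Conj
import Pool.Agent.H83.T5.Fac
import Pool.Agent.H83.T5.Model
import Pool.Agent.H83.T5.PlacePar

/-!
Parity of the valuations of a Selmer element at all primes of `k[x]`.
-/

set_option linter.unusedSectionVars false
set_option linter.style.haveILetI false

namespace Pool.Agent.H83.T5

open Polynomial WithZero IsDedekindDomain HeightOneSpectrum
open Pool.Agent.H94.LT Pool.Agent.H94.TC

section

variable {F k : Type*} [Field F] [Field k] [Algebra F k] [FiniteDimensional F k]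

attribute [local instance] polyAlg ratAlg isScalarTower_rat

theorem isIntegral_poly (p : k[X]) : IsIntegral F[X] p := by
  induction p using Polynomial.induction_on' with
  | add p q hp hq => exact hp.add hq
  | monomial n a =>
    rw [← C_mul_X_pow_eq_monomial]
    have hX : IsIntegral F[X] (X : k[X]) := by
      have h1 : (X : k[X]) = algebraMap F[X] k[X] X := by
        show _ = mapRingHom (algebraMap F k) X
        rw [coe_mapRingHom, Polynomial.map_X]
      rw [h1]
      exact isIntegral_algebraMap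
    have hC : IsIntegral F[X] (C a : k[X]) := by
      have h2 : IsIntegral F a := Algebra.IsIntegral.isIntegral a
      obtain ⟨g, hg, hg2⟩ := h2
      refine ⟨g.map C, hg.map C, ?_⟩
      rw [eval₂_map]
      have h3 : (algebraMap F[X] k[X]).comp C = (C : k →+* k[X]).comp (algebraMap F k) := by
        refine RingHom.ext fun a => ?_
        show mapRingHom (algebraMap F k) (C a) = _
        rw [coe_mapRingHom, Polynomial.map_C]
        rfl
      rw [h3, ← hom_eval₂, hg2, map_zero]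
    exact hC.mul (hX.pow n)

theorem exists_below (w : HeightOneSpectrum k[X]) :
    ∃ v : HeightOneSpectrum F[X], w.asIdeal.LiesOver v.asIdeal := by
  haveI : Algebra.IsIntegral F[X] k[X] := ⟨isIntegral_poly⟩
  have hne : w.asIdeal.under F[X] ≠ ⊥ := by
    intro h0
    exact w.ne_bot (Ideal.eq_bot_of_comap_eq_bot (R := F[X]) h0)
  have hp : (w.asIdeal.under F[X]).IsPrime := Ideal.IsPrime.under F[X] w.asIdeal
  exact ⟨⟨w.asIdeal.under F[X], hp, hne⟩, ⟨rfl⟩⟩

theorem mem_below {w : HeightOneSpectrum k[X]} {v : HeightOneSpectrum F[X]}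
    (h : w.asIdeal.LiesOver v.asIdeal) (p : F[X]) :
    p ∈ v.asIdeal ↔ p.map (algebraMap F k) ∈ w.asIdeal := by
  rw [h.over]
  rfl

theorem asIdeal_eq_span {w : HeightOneSpectrum k[X]} {p : k[X]} (hp : Irreducible p)
    (h : p ∈ w.asIdeal) : w.asIdeal = Ideal.span {p} := by
  have h1 : Ideal.span {p} ≤ w.asIdeal := by
    rw [Ideal.span_singleton_le_iff_mem]; exact h
  have hmax : (Ideal.span {p}).IsMaximal := PrincipalIdealRing.isMaximal_of_irreducible hp
  exact (hmax.eq_of_le w.isPrime.ne_top h1).symm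

variable [Fintype (k ≃ₐ[F] k)] [DecidableEq (k ≃ₐ[F] k)]

/-- the value of `Δ` at the conjugate `θ_σ` -/
noncomputable def dd (φ : F[X]) (τ : k) (Δ : (RatFunc F)[X]) (σ : k ≃ₐ[F] k) : RatFunc k :=
  aeval (algebraMap k[X] (RatFunc k) (th φ τ σ)) Δ

theorem sL_dd (φ : F[X]) (τ : k) (Δ : (RatFunc F)[X]) (σ ρ : k ≃ₐ[F] k) :
    sL σ (dd φ τ Δ ρ) = dd φ τ Δ (σ * ρ) := by
  rw [dd, dd, sL_aeval, sL_alg, sB_th]

theorem fPoly_split (P φ : F[X]) (τ : k)
    (hP : P.map (algebraMap F k) = ∏ σ : k ≃ₐ[F] k, (X - C (σ τ)))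
    (hne : ∀ σ : k ≃ₐ[F] k, qq φ τ σ ≠ 0) :
    ((fPoly P φ).map (algebraMap F[X] (RatFunc F))).map (algebraMap (RatFunc F) (RatFunc k)) =
      ∏ σ, (X - C (algebraMap k[X] (RatFunc k) (th φ τ σ))) := by
  have h1 := fPoly_map (algebraMap F k) P φ (fun σ : k ≃ₐ[F] k => σ τ) hP hne
  have h2 : (algebraMap (RatFunc F) (RatFunc k)).comp (algebraMap F[X] (RatFunc F)) =
      (algebraMap k[X] (RatFunc k)).comp (mapRingHom (algebraMap F k)) :=
    RingHom.ext fun p => ratAlg_algebraMap F k p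
  rw [Polynomial.map_map, h2, ← Polynomial.map_map, h1, Polynomial.map_prod]
  refine Finset.prod_congr rfl fun σ _ => ?_
  rw [Polynomial.map_sub, Polynomial.map_X, Polynomial.map_C]
  rfl

/-- primes outside `D W` -/
theorem par_good (P φ D : F[X]) (τ : k)
    (hP : P.map (algebraMap F k) = ∏ σ : k ≃ₐ[F] k, (X - C (σ τ)))
    (hne : ∀ σ : k ≃ₐ[F] k, qq φ τ σ ≠ 0)
    (hτ : ∀ σ ρ : k ≃ₐ[F] k, σ τ = ρ τ → σ = ρ) (hodd : Odd (Fintype.card (k ≃ₐ[F] k)))
    (Δ : (RatFunc F)[X]) (hloc : ∀ v : HeightOneSpectrum F[X], LocImTw (fPoly P φ) D v Δ)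
    (w : HeightOneSpectrum k[X]) (hD : D.map (algebraMap F k) ∉ w.asIdeal)
    (hW : (∏ σ, qq φ τ σ) ∉ w.asIdeal) :
    Ev (w.valuation (RatFunc k)) (dd φ τ Δ 1) := by
  obtain ⟨v, hv⟩ := exists_below (F := F) w
  haveI := hv
  refine place_good v w hodd (fPoly P φ) D Δ
    (fun σ => algebraMap k[X] (RatFunc k) (th φ τ σ)) (fPoly_split P φ τ hP hne) (hloc v)
    ?_ ?_ ?_ 1
  · rw [IsScalarTower.algebraMap_apply F[X] k[X] (RatFunc k)]
    exact val_eq_one hD
  · intro σ
    exact (val_eq_one (good_th φ τ hW σ)).le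
  · intro σ ρ h
    rw [← map_sub]
    exact val_eq_one (good_sub φ τ hW hτ h)

/-- primes dividing `D` -/
theorem par_inert (φ D : F[X]) (τ : k) (hodd : Odd (Fintype.card (k ≃ₐ[F] k)))
    (hD : ∀ Q : F[X], Irreducible Q → Q ∣ D → Nat.Coprime Q.natDegree (Module.finrank F k))
    (Δ : (RatFunc F)[X]) (hne : dd φ τ Δ 1 ≠ 0) (hnorm : IsSquare (∏ σ, dd φ τ Δ σ))
    (w : HeightOneSpectrum k[X]) (hw : D.map (algebraMap F k) ∈ w.asIdeal) :
    Ev (w.valuation (RatFunc k)) (dd φ τ Δ 1) := by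
  obtain ⟨v, hv⟩ := exists_below (F := F) w
  obtain ⟨Q, hQ0, hQ⟩ := exists_gen v
  have hQirr : Irreducible Q := by
    have : (Ideal.span {Q}).IsPrime := by rw [← hQ]; exact v.isPrime
    exact ((Ideal.span_singleton_prime hQ0).1 this).irreducible
  have hQD : Q ∣ D := by
    rw [← Ideal.mem_span_singleton, ← hQ, mem_below hv]
    exact hw
  have hQk := irreducible_map_of_coprime (k := k) hQirr (hD Q hQirr hQD)
  have hQw : Q.map (algebraMap F k) ∈ w.asIdeal := by
    rw [← mem_below hv, hQ]; exact Ideal.mem_span_singleton_self _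
  have hspan := asIdeal_eq_span hQk hQw
  have hstab : ∀ (σ : k ≃ₐ[F] k) (p : k[X]), sB σ p ∈ w.asIdeal ↔ p ∈ w.asIdeal := by
    intro σ p
    rw [hspan, Ideal.mem_span_singleton, Ideal.mem_span_singleton]
    conv_lhs => rw [← sB_base σ Q]
    exact map_dvd_iff (sB σ)
  have hval : ∀ σ, w.valuation (RatFunc k) (dd φ τ Δ σ) =
      w.valuation (RatFunc k) (dd φ τ Δ 1) := by
    intro σ
    have h1 := val_transport σ w w (hstab σ) (dd φ τ Δ 1)
    rwa [sL_dd, mul_one] at h1
  refine ⟨hne, ?_⟩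
  obtain ⟨s, hs⟩ := hnorm
  have h1 := congrArg (w.valuation (RatFunc k)) hs
  rw [map_prod, Finset.prod_congr rfl fun σ _ => hval σ, Finset.prod_const, Finset.card_univ,
    map_mul] at h1
  have h2 := congrArg log h1
  have hs0 : w.valuation (RatFunc k) s ≠ 0 := by
    intro h0
    rw [h0, mul_zero] at h1
    have h3 := pow_eq_zero_iff (Fintype.card_ne_zero (α := k ≃ₐ[F] k)) |>.1 h1
    exact hne ((Valuation.zero_iff _).1 h3)
  rw [log_pow, log_mul hs0 hs0] at h2
  have h4 : Even ((Fintype.card (k ≃ₐ[F] k)) • log (w.valuation (RatFunc k) (dd φ τ Δ 1))) :=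
    ⟨_, h2⟩
  rw [nsmul_eq_mul, Int.even_mul] at h4
  rcases h4 with h4 | h4
  · rw [Int.even_coe_nat] at h4
    exact absurd h4 (Nat.not_even_iff_odd.2 hodd)
  · exact h4

end

end Pool.Agent.H83.T5
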