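import Pool.Agent.H94.TC.ParTw

/-!
From the Selmer condition at `v` to a Mumford pair over `L_w`, where the polynomial splits.
-/

set_option linter.unusedSectionVars false
set_option linter.style.haveILetI false

namespace Pool.Agent.H83.T5

open Polynomial WithZero IsDedekindDomain HeightOneSpectrum
open Pool.Agent.H94.TC

section

variable {A K B L : Type*} [CommRing A] [IsDomain A] [IsPrincipalIdealRing A] [CommRing B]
  [IsDedekindDomain B] [Algebra A B] [Module.IsTorsionFree A B] [Field K] [Field L] [Algebra K L]
  [Algebra A K] [IsFractionRing A K] [Algebra A L] [IsScalarTower A K L]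
  [Algebra B L] [IsFractionRing B L] [IsScalarTower A B L]
  (v : HeightOneSpectrum A) (w : HeightOneSpectrum B) [w.asIdeal.LiesOver v.asIdeal]

theorem place_data {ι : Type*} [Fintype ι] (f : A[X]) (D : A) (Δ : K[X]) (r : ι → L)
    (hf : (f.map (algebraMap A K)).map (algebraMap K L) = ∏ i, (X - C (r i)))
    (h : LocImTw f D v Δ) :
    ∃ P' Q' : (w.adicCompletion L)[X], P'.Monic ∧
      IsCoprime P' (∏ i, (X - C (algebraMap L (w.adicCompletion L) (r i)))) ∧
      P' ∣ C (algebraMap L (w.adicCompletion L) (algebraMap A L D)) * Q' ^ 2 -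
        ∏ i, (X - C (algebraMap L (w.adicCompletion L) (r i))) ∧
      ∀ i, ∃ g : w.adicCompletion L,
        algebraMap L (w.adicCompletion L) (aeval (r i) Δ) * g ^ 2 =
          (-algebraMap L (w.adicCompletion L) (algebraMap A L D)) ^ P'.natDegree *
            P'.eval (algebraMap L (w.adicCompletion L) (r i)) := by
  obtain ⟨P, Q, G, hP, hcop, hPQ, hG⟩ := h
  set ψ := compMap K L v w with hψ
  have hcomp : ψ.comp (algebraMap K (v.adicCompletion K)) =
      (algebraMap L (w.adicCompletion L)).comp (algebraMap K L) :=
    RingHom.ext fun x => compMap_coe L v w x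
  have hψD : ψ (algebraMap K (v.adicCompletion K) (algebraMap A K D)) =
      algebraMap L (w.adicCompletion L) (algebraMap A L D) := by
    rw [hψ, compMap_coe, ← IsScalarTower.algebraMap_apply A K L]
  have hψf : ((f.map (algebraMap A K)).map (algebraMap K (v.adicCompletion K))).map ψ =
      ∏ i, (X - C (algebraMap L (w.adicCompletion L) (r i))) := by
    rw [Polynomial.map_map, hcomp, ← Polynomial.map_map, hf, Polynomial.map_prod]
    refine Finset.prod_congr rfl fun i _ => ?_
    rw [Polynomial.map_sub, Polynomial.map_X, Polynomial.map_C]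
  have hψΔ : (Δ.map (algebraMap K (v.adicCompletion K))).map ψ =
      (Δ.map (algebraMap K L)).map (algebraMap L (w.adicCompletion L)) := by
    rw [Polynomial.map_map, hcomp, ← Polynomial.map_map]
  refine ⟨P.map ψ, Q.map ψ, hP.map ψ, ?_, ?_, ?_⟩
  · rw [← hψf]
    exact hcop.map (mapRingHom ψ)
  · have h1 := Polynomial.map_dvd ψ hPQ
    rw [Polynomial.map_sub, Polynomial.map_mul, Polynomial.map_pow, Polynomial.map_C, hψD,
      hψf] at h1
    exact h1
  · intro i
    set ri := algebraMap L (w.adicCompletion L) (r i) with hri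
    refine ⟨(G.map ψ).eval ri, ?_⟩
    have h1 := Polynomial.map_dvd ψ hG
    rw [Polynomial.map_sub, Polynomial.map_mul, Polynomial.map_mul, Polynomial.map_pow,
      Polynomial.map_pow, Polynomial.map_neg, Polynomial.map_C, hψD, hψf, hψΔ] at h1
    have h2 : (∏ i, (X - C (algebraMap L (w.adicCompletion L) (r i)))).eval ri = 0 := by
      rw [eval_prod]
      exact Finset.prod_eq_zero (Finset.mem_univ i) (by rw [eval_sub, eval_X, eval_C, sub_self])
    obtain ⟨R, hR⟩ := h1
    have h3 := congrArg (eval ri) hR
    rw [eval_mul, h2, zero_mul, eval_sub, sub_eq_zero, eval_mul, eval_mul, eval_pow, eval_pow,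
      eval_neg, eval_C] at h3
    have h4 : ((Δ.map (algebraMap K L)).map (algebraMap L (w.adicCompletion L))).eval ri =
        algebraMap L (w.adicCompletion L) (aeval (r i) Δ) := by
      rw [hri, eval_map_algebraMap, aeval_algebraMap_apply, aeval_map_algebraMap]
    rw [h4] at h3
    rw [natDegree_map]
    exact h3

end

end Pool.Agent.H83.T5
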