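import Pool.Agent.H83.T5.Setup
import Pool.Agent.H83.T5.Id

/-!
`θ` is not a square; for `D = -s²` and for `D = P(c) (φ - c) s²` it is the class of a point.
-/

set_option linter.unusedSectionVars false
set_option linter.style.haveILetI false

namespace Pool.Agent.H83.T5

open Polynomial WithZero IsDedekindDomain HeightOneSpectrum
open Pool.Agent.H94.LT Pool.Agent.H94.TC

section

variable {F k : Type*} [Field F] [Field k] [Algebra F k] [FiniteDimensional F k]

attribute [local instance] polyAlg ratAlg isScalarTower_rat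

variable [Fintype (k ≃ₐ[F] k)] [DecidableEq (k ≃ₐ[F] k)]

theorem th_not_isSquare {P φ : F[X]} {τ : k}
    (hP : P.map (algebraMap F k) = ∏ σ : k ≃ₐ[F] k, (X - C (σ τ)))
    (hτ : ∀ σ ρ : k ≃ₐ[F] k, σ τ = ρ τ → σ = ρ)
    (hcard : Fintype.card (k ≃ₐ[F] k) = Module.finrank F k)
    (h1 : 1 < Fintype.card (k ≃ₐ[F] k)) (hW : Irreducible (P.comp φ)) :
    ¬ IsSquare (algebraMap k[X] (RatFunc k) (th φ τ 1)) := by
  rintro ⟨y, hy⟩
  haveI : Nontrivial (k ≃ₐ[F] k) := Fintype.one_lt_card_iff_nontrivial.1 h1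
  obtain ⟨σ, hσ⟩ := exists_ne (1 : k ≃ₐ[F] k)
  have hq := qq_irreducible hP hcard hW σ
  have h2 := bad_th φ τ (w := place (qq φ τ σ) hq) (σ := σ) hq.ne_zero rfl hτ (Ne.symm hσ)
  rw [hy, ← sq] at h2
  have h3 : Ev ((place (qq φ τ σ) hq).valuation (RatFunc k)) (y ^ 2) := by
    have hy0 : y ≠ 0 := by
      rintro rfl
      rw [zero_pow two_ne_zero, map_zero] at h2
      exact exp_ne_zero h2.symm
    exact Ev.sq hy0
  have h4 := h3.even h2
  exact absurd h4 (by decide)

theorem root_not_isSquare {P φ : F[X]} {τ : k}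
    (hP : P.map (algebraMap F k) = ∏ σ : k ≃ₐ[F] k, (X - C (σ τ)))
    (hτ : ∀ σ ρ : k ≃ₐ[F] k, σ τ = ρ τ → σ = ρ)
    (hcard : Fintype.card (k ≃ₐ[F] k) = Module.finrank F k)
    (h1 : 1 < Fintype.card (k ≃ₐ[F] k)) (hW : Irreducible (P.comp φ)) :
    ¬ IsSquare (AdjoinRoot.root ((fPoly P φ).map (algebraMap F[X] (RatFunc F)))) := by
  intro h
  have hne : ∀ σ : k ≃ₐ[F] k, qq φ τ σ ≠ 0 := fun σ => (qq_irreducible hP hcard hW σ).ne_zero
  have h2 : ((fPoly P φ).map (algebraMap F[X] (RatFunc F))).eval₂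
      (algebraMap (RatFunc F) (RatFunc k)) (algebraMap k[X] (RatFunc k) (th φ τ 1)) = 0 :=
    eval_root hP hne 1
  have h3 := h.map (AdjoinRoot.lift (algebraMap (RatFunc F) (RatFunc k)) _ h2)
  rw [AdjoinRoot.lift_root] at h3
  exact th_not_isSquare hP hτ hcard h1 hW h3

/-- the value of `U - W / (φ - c)` -/
theorem value_isSquare [Finite k] {P φ : F[X]} {τ : k}
    (hP : P.map (algebraMap F k) = ∏ σ : k ≃ₐ[F] k, (X - C (σ τ)))
    (hτ : ∀ σ ρ : k ≃ₐ[F] k, σ τ = ρ τ → σ = ρ)
    (hgen : ∀ c : k, ∃ p : F[X], aeval τ p = c)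
    (hcard : Fintype.card (k ≃ₐ[F] k) = Module.finrank F k)
    (hodd : Odd (Fintype.card (k ≃ₐ[F] k))) (hW : Irreducible (P.comp φ)) (c : F)
    (hPc : P.eval c ≠ 0) (hφ : φ - C c ≠ 0) (s : F[X]) :
    IsSquare (AdjoinRoot.mk ((fPoly P φ).map (algebraMap F[X] (RatFunc F)))
      (X * (C (-algebraMap F[X] (RatFunc F) (C (P.eval c) * (φ - C c) * s ^ 2)) *
        (X - C (algebraMap F[X] (RatFunc F) (P.comp φ) /
          algebraMap F[X] (RatFunc F) (φ - C c)))))) := by
  have hne : ∀ σ : k ≃ₐ[F] k, qq φ τ σ ≠ 0 := fun σ => (qq_irreducible hP hcard hW σ).ne_zero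
  refine transfer hP hτ hne hgen ?_
  -- the constant
  have hprod : ∏ σ : k ≃ₐ[F] k, (algebraMap F k c - σ τ) = algebraMap F k (P.eval c) := by
    have h1 := congrArg (eval (algebraMap F k c)) hP
    rw [eval_map_algebraMap, aeval_algebraMap_apply, eval_prod] at h1
    rw [← coe_aeval_eq_eval, h1]
    refine Finset.prod_congr rfl fun σ _ => ?_
    rw [eval_sub, eval_X, eval_C]
  set e : k := algebraMap F k (P.eval c) * (algebraMap F k c - τ) with he
  have hPc' : algebraMap F k (P.eval c) ≠ 0 := by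
    rw [Ne, FaithfulSMul.algebraMap_eq_zero_iff]; exact hPc
  have he0 : e ≠ 0 := by
    refine mul_ne_zero hPc' ?_
    rw [← hprod] at hPc'
    exact Finset.prod_ne_zero_iff.1 hPc' 1 (Finset.mem_univ _)
  have hsq : IsSquare (∏ σ : k ≃ₐ[F] k, σ e) := by
    have h1 : ∏ σ : k ≃ₐ[F] k, σ e =
        algebraMap F k (P.eval c) ^ (Fintype.card (k ≃ₐ[F] k) + 1) := by
      have h2 : ∀ σ : k ≃ₐ[F] k, σ e =
          algebraMap F k (P.eval c) * (algebraMap F k c - σ τ) := by
        intro σ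
        rw [he, map_mul, map_sub, AlgEquiv.commutes, AlgEquiv.commutes]
      rw [Finset.prod_congr rfl fun σ _ => h2 σ, Finset.prod_mul_distrib, hprod,
        Finset.prod_const, Finset.card_univ, pow_succ]
    rw [h1]
    obtain ⟨j, hj⟩ := hodd
    exact ⟨algebraMap F k (P.eval c) ^ (j + 1), by rw [hj, ← pow_add]; congr 1; ring⟩
  obtain ⟨y, hy⟩ := isSquare_of_prod hodd he0 hsq
  -- the computation in `k(x)`
  set ι := algebraMap k[X] (RatFunc k) with hι
  set θ := ι (th φ τ 1) with hθ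
  have hbase : ∀ p : F[X], algebraMap (RatFunc F) (RatFunc k) (algebraMap F[X] (RatFunc F) p) =
      ι (p.map (algebraMap F k)) := ratAlg_algebraMap F k
  have hWθ : ι ((P.comp φ).map (algebraMap F k)) = ι (qq φ τ 1) * θ := by
    rw [hθ, ← map_mul, qq_mul_th, prod_qq φ τ P hP]
  have hφ0 : ι ((φ - C c).map (algebraMap F k)) ≠ 0 := by
    rw [hι, Ne, FaithfulSMul.algebraMap_eq_zero_iff, Polynomial.map_eq_zero]; exact hφ
  refine ⟨θ * ι (s.map (algebraMap F k)) * ι (C y), ?_⟩
  rw [dd, map_mul, aeval_X, map_mul, aeval_C, map_sub, aeval_X, aeval_C, map_neg, map_div₀,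
    hbase, hbase, hbase, hWθ]
  have h5 : ι (qq φ τ 1) = ι ((φ - C c).map (algebraMap F k)) +
      ι (C (algebraMap F k c - τ)) := by
    rw [← map_add, qq, Polynomial.map_sub, Polynomial.map_C, C_sub, AlgEquiv.one_apply]
    congr 1
    ring
  have h6 : ι ((C (P.eval c) * (φ - C c) * s ^ 2).map (algebraMap F k)) =
      ι (C (algebraMap F k (P.eval c))) * ι ((φ - C c).map (algebraMap F k)) *
        ι (s.map (algebraMap F k)) ^ 2 := by
    rw [Polynomial.map_mul, Polynomial.map_mul, Polynomial.map_pow, Polynomial.map_C, map_mul,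
      map_mul, map_pow]
  have h7 : ι (C (algebraMap F k (P.eval c))) * ι (C (algebraMap F k c - τ)) =
      ι (C y) * ι (C y) := by
    rw [← map_mul ι, ← map_mul ι, ← C_mul, ← C_mul, ← hy]
  rw [h5, h6]
  set a := ι ((φ - C c).map (algebraMap F k)) with ha
  set b := ι (C (algebraMap F k c - τ)) with hb
  set p := ι (C (algebraMap F k (P.eval c))) with hp
  set s' := ι (s.map (algebraMap F k)) with hs'
  field_simp
  linear_combination (θ ^ 2 * s' ^ 2) * h7

end

section

variable {F : Type*} [Field F]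

theorem fPoly_coeff_zero (P φ : F[X]) (hW : P.comp φ ≠ 0) (hP : P.Monic)
    (hodd : Odd P.natDegree) :
    (fPoly P φ).eval 0 = -(P.comp φ) ^ (P.natDegree - 1) := by
  have h1 := hPoly_lead P φ hW
  have hpos : P.natDegree ≠ 0 := by
    intro h0; rw [h0] at hodd; exact absurd hodd (by decide)
  have h2 : (hPoly P φ).coeff 0 = -1 := by
    rw [coeff_zero_eq_eval_zero, hPoly, eval_finsetSum, Finset.sum_range_succ,
      Finset.sum_eq_zero]
    · rw [eval_mul, eval_mul, eval_pow, eval_sub, eval_mul, eval_C, eval_C, eval_X, eval_one,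
        mul_zero, zero_sub, hodd.neg_one_pow, hP.coeff_natDegree, Nat.sub_self, pow_zero, eval_one,
        C_1]
      ring
    · intro i hi
      rw [eval_mul, eval_pow, eval_X, zero_pow (by have := Finset.mem_range.1 hi; omega),
        mul_zero]
  rw [← coeff_zero_eq_eval_zero, fPoly, integralNormalization_coeff_ne_natDegree (by rw [h1.1]; omega),
    h1.1, h1.2, h2]
  rw [Nat.sub_zero]
  ring

end

section

variable {F : Type} [Field F] [Finite F]

theorem finite_root {P φ : F[X]} (hP : P.Monic) (hirr : Irreducible P) (h1 : 1 < P.natDegree)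
    (hW : Irreducible (P.comp φ)) :
    ¬ IsSquare (AdjoinRoot.root ((fPoly P φ).map (algebraMap F[X] (RatFunc F)))) := by
  obtain ⟨k, _, _, _, _, _, _, τ, hPs, hτ, hgen, hcard, hrank⟩ := exists_data hP hirr
  exact root_not_isSquare hPs hτ hcard (by rw [hcard, hrank]; exact h1) hW

theorem finite_value {P φ : F[X]} (hP : P.Monic) (hirr : Irreducible P)
    (hodd : Odd P.natDegree) (hW : Irreducible (P.comp φ)) (c : F)
    (hPc : P.eval c ≠ 0) (hφ : φ - C c ≠ 0) (s : F[X]) :
    IsSquare (AdjoinRoot.mk ((fPoly P φ).map (algebraMap F[X] (RatFunc F)))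
      (X * (C (-algebraMap F[X] (RatFunc F) (C (P.eval c) * (φ - C c) * s ^ 2)) *
        (X - C (algebraMap F[X] (RatFunc F) (P.comp φ) /
          algebraMap F[X] (RatFunc F) (φ - C c)))))) := by
  obtain ⟨k, _, _, _, _, _, _, τ, hPs, hτ, hgen, hcard, hrank⟩ := exists_data hP hirr
  exact value_isSquare hPs hτ hgen hcard (by rw [hcard, hrank]; exact hodd) hW c hPc hφ s

end

end Pool.Agent.H83.T5
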