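import Pool.Agent.H83.T5.Trans

/-!
The splitting field of `P` over the finite field `F`.
-/

set_option linter.unusedSectionVars false
set_option linter.style.haveILetI false

namespace Pool.Agent.H83.T5

open Polynomial IsDedekindDomain HeightOneSpectrum
open Pool.Agent.H94.TC

/-- the splitting field, abstractly -/
theorem exists_field {F : Type} [Field F] [Finite F] {P : F[X]} (hP : P.Monic)
    (hirr : Irreducible P) :
    ∃ (k : Type) (_ : Field k) (_ : Algebra F k) (τ : k), Module.finrank F k = P.natDegree ∧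
      Finite k ∧ FiniteDimensional F k ∧ aeval τ P = 0 ∧ ∀ c : k, ∃ p : F[X], aeval τ p = c := by
  haveI : Fact (Irreducible P) := ⟨hirr⟩
  refine ⟨AdjoinRoot P, inferInstance, inferInstance, AdjoinRoot.root P, ?_, ?_, ?_, ?_, ?_⟩
  · exact finrank_quotient_span_eq_natDegree' hP
  · haveI : Module.Finite F (AdjoinRoot P) := hP.finite_adjoinRoot
    exact Module.finite_of_finite F
  · exact hP.finite_adjoinRoot
  · rw [AdjoinRoot.aeval_eq, AdjoinRoot.mk_self]
  · intro c
    obtain ⟨p, rfl⟩ := AdjoinRoot.mk_surjective c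
    exact ⟨p, AdjoinRoot.aeval_eq p⟩

theorem exists_data {F : Type} [Field F] [Finite F] {P : F[X]} (hP : P.Monic)
    (hirr : Irreducible P) :
    ∃ (k : Type) (_ : Field k) (_ : Algebra F k) (_ : FiniteDimensional F k) (_ : Finite k)
      (_ : Fintype (k ≃ₐ[F] k)) (_ : DecidableEq (k ≃ₐ[F] k)) (τ : k),
      P.map (algebraMap F k) = ∏ σ : k ≃ₐ[F] k, (X - C (σ τ)) ∧
      (∀ σ ρ : k ≃ₐ[F] k, σ τ = ρ τ → σ = ρ) ∧
      (∀ c : k, ∃ p : F[X], aeval τ p = c) ∧
      Fintype.card (k ≃ₐ[F] k) = Module.finrank F k ∧ Module.finrank F k = P.natDegree := by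
  classical
  obtain ⟨k, _, _, τ, hrank, _, _, hroot, hgen⟩ := exists_field hP hirr
  haveI : Fintype (k ≃ₐ[F] k) := Fintype.ofFinite _
  haveI : IsGalois F k := inferInstance
  have hcard : Fintype.card (k ≃ₐ[F] k) = Module.finrank F k := by
    rw [← Nat.card_eq_fintype_card]
    exact IsGalois.card_aut_eq_finrank F k
  have hτ : ∀ σ ρ : k ≃ₐ[F] k, σ τ = ρ τ → σ = ρ := by
    intro σ ρ h
    refine AlgEquiv.ext fun c => ?_
    obtain ⟨p, rfl⟩ := hgen c
    rw [← aeval_algHom_apply, ← aeval_algHom_apply, h]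
  have hPs : P.map (algebraMap F k) = ∏ σ : k ≃ₐ[F] k, (X - C (σ τ)) := by
    have h1 : (∏ σ : k ≃ₐ[F] k, (X - C (σ τ))) ∣ P.map (algebraMap F k) := by
      refine Finset.prod_dvd_of_coprime (fun σ _ ρ _ hσρ => ?_) fun σ _ => ?_
      · refine isCoprime_X_sub_C_of_isUnit_sub ?_
        rw [isUnit_iff_ne_zero, Ne, sub_eq_zero]
        exact fun h0 => hσρ (hτ _ _ h0)
      · rw [dvd_iff_isRoot, IsRoot.def, eval_map_algebraMap, aeval_algHom_apply, hroot, map_zero]
    refine (eq_of_monic_of_dvd_of_natDegree_le (monic_prod_of_monic _ _ fun σ _ =>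
      monic_X_sub_C _) (hP.map _) h1 ?_)
    rw [natDegree_map, ← hrank, ← hcard, natDegree_prod_of_monic _ _ fun σ _ => monic_X_sub_C _]
    simp
  exact ⟨k, inferInstance, inferInstance, inferInstance, inferInstance, inferInstance,
    inferInstance, τ, hPs, hτ, hgen, hcard, hrank⟩

theorem finite_main {F : Type} [Field F] [Finite F] (h2 : (2 : F) ≠ 0) {P φ D : F[X]}
    (hP : P.Monic) (hirr : Irreducible P) (hodd : Odd P.natDegree)
    (hW : Irreducible (P.comp φ))
    (hD : ∀ Q : F[X], Irreducible Q → Q ∣ D → Nat.Coprime Q.natDegree P.natDegree)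
    (hWD : ¬ P.comp φ ∣ D) (Δ : (RatFunc F)[X])
    (hloc : ∀ v : HeightOneSpectrum F[X], LocImTw (fPoly P φ) D v Δ)
    (hcop : IsCoprime Δ ((fPoly P φ).map (algebraMap F[X] (RatFunc F))))
    (hnorm : IsSquare (Algebra.norm (RatFunc F)
      (AdjoinRoot.mk ((fPoly P φ).map (algebraMap F[X] (RatFunc F))) Δ))) :
    IsSquare (AdjoinRoot.mk ((fPoly P φ).map (algebraMap F[X] (RatFunc F))) Δ) ∨
      (IsSquare (AdjoinRoot.mk (P.comp φ) (-D)) ∧
      IsSquare (AdjoinRoot.mk ((fPoly P φ).map (algebraMap F[X] (RatFunc F))) (X * Δ))) := by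
  obtain ⟨k, _, _, _, _, _, _, τ, hPs, hτ, hgen, hcard, hrank⟩ := exists_data hP hirr
  refine selmer_square P φ D τ hPs hτ hgen hcard ?_ ?_ hW ?_ hWD Δ hloc hcop hnorm
  · rw [hcard, hrank]; exact hodd
  · intro h0
    apply h2
    apply (algebraMap F k).injective
    rw [map_ofNat, map_zero]
    exact h0
  · rw [hrank]; exact hD

end Pool.Agent.H83.T5
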