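import Pool.Agent.H83.T5.Norm

/-!
Square roots of principal units in finite extensions of a complete ultrametric field of residue
characteristic `≠ 2`.
-/

set_option linter.unusedSectionVars false
set_option linter.style.haveILetI false

namespace Pool.Agent.H83.T5

section

variable {E : Type*} [NormedField E] [IsUltrametricDist E] [CompleteSpace E]

theorem exists_sq (h2 : ‖(2 : E)‖ = 1) (z : E) (hz : ‖z‖ < 1) : ∃ s : E, s ^ 2 = 1 + z := by
  -- `s = 1 + t`, `t = (z - t²) / 2`
  set f : E → E := fun t => (z - t ^ 2) / 2 with hf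
  set S : Set E := Metric.closedBall (0 : E) ‖z‖ with hS
  have h20 : (2 : E) ≠ 0 := by
    intro h0; rw [h0, norm_zero] at h2; exact zero_ne_one h2
  have hmem : ∀ t, t ∈ S ↔ ‖t‖ ≤ ‖z‖ := by
    intro t; rw [hS, mem_closedBall_zero_iff]
  have hmaps : Set.MapsTo f S S := by
    intro t ht
    rw [hmem] at ht ⊢
    rw [hf]
    simp only
    rw [norm_div, h2, div_one, sub_eq_add_neg]
    refine (IsUltrametricDist.norm_add_le_max _ _).trans (max_le le_rfl ?_)
    rw [norm_neg, norm_pow, sq]
    refine (mul_le_of_le_one_left (norm_nonneg _) (ht.trans hz.le)).trans ht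
  have hcontr : ContractingWith ⟨‖z‖, norm_nonneg z⟩ (hmaps.restrict f S S) := by
    refine ⟨by exact_mod_cast hz, ?_⟩
    refine LipschitzWith.of_dist_le_mul fun x y => ?_
    have hx := (hmem _).1 x.2
    have hy := (hmem _).1 y.2
    rw [Subtype.dist_eq, Subtype.dist_eq, Set.MapsTo.val_restrict_apply,
      Set.MapsTo.val_restrict_apply, dist_eq_norm, dist_eq_norm]
    have h1 : f x - f y = ((y : E) + x) * (y - x) / 2 := by
      simp only [hf]; ring
    rw [h1, norm_div, h2, div_one, norm_mul, norm_sub_rev (y : E) x]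
    refine mul_le_mul_of_nonneg_right ?_ (norm_nonneg _)
    exact (IsUltrametricDist.norm_add_le_max _ _).trans (max_le hy hx)
  obtain ⟨t, -, ht, -⟩ := hcontr.exists_fixedPoint' (Metric.isClosed_closedBall.isComplete)
    hmaps (x := 0) (by rw [hmem]; simp) (edist_ne_top _ _)
  refine ⟨1 + t, ?_⟩
  have h3 : (z - t ^ 2) / 2 = t := ht
  rw [div_eq_iff h20] at h3
  linear_combination -h3

end

section

variable {M : Type*} [NontriviallyNormedField M] {M' : Type*} [Field M'] [Algebra M M']
  [FiniteDimensional M M'] [IsUltrametricDist M] [CompleteSpace M]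

theorem exists_sq_ext (h2 : ‖(2 : M)‖ = 1) (z : M') (hz : spectralNorm M M' z < 1) :
    ∃ s : M', s ^ 2 = 1 + z := by
  letI : NormedField M' := spectralNorm.normedField M M'
  haveI : CompleteSpace M' := spectralNorm.completeSpace M M'
  haveI : IsUltrametricDist M' := by
    refine IsUltrametricDist.isUltrametricDist_of_isNonarchimedean_norm ?_
    exact isNonarchimedean_spectralNorm (K := M) (L := M')
  refine exists_sq ?_ z hz
  have h := spectralNorm_extends (K := M) (L := M') (2 : M)
  rw [h2, map_ofNat] at h
  exact h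

end

end Pool.Agent.H83.T5
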