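import Pool.Agent.H83.T5.Core

/-!
Transfer between `K[U]/(f)` and `k(x)`.
-/

set_option linter.unusedSectionVars false
set_option linter.style.haveILetI false

namespace Pool.Agent.H83.T5

open Polynomial WithZero IsDedekindDomain HeightOneSpectrum
open Pool.Agent.H94.LT Pool.Agent.H94.TC

section

variable {F k : Type*} [Field F] [Field k] [Algebra F k] [FiniteDimensional F k]

attribute [local instance] polyAlg ratAlg isScalarTower_rat

variable [Fintype (k ≃ₐ[F] k)] [DecidableEq (k ≃ₐ[F] k)]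

theorem fK_monic {P φ : F[X]} {τ : k}
    (hP : P.map (algebraMap F k) = ∏ σ : k ≃ₐ[F] k, (X - C (σ τ)))
    (hne : ∀ σ : k ≃ₐ[F] k, qq φ τ σ ≠ 0) :
    ((fPoly P φ).map (algebraMap F[X] (RatFunc F))).Monic := by
  rw [← monic_map_iff (f := algebraMap (RatFunc F) (RatFunc k)), fPoly_split P φ τ hP hne]
  exact monic_prod_of_monic _ _ fun σ _ => monic_X_sub_C _

theorem norm_eq {P φ : F[X]} {τ : k}
    (hP : P.map (algebraMap F k) = ∏ σ : k ≃ₐ[F] k, (X - C (σ τ)))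
    (hne : ∀ σ : k ≃ₐ[F] k, qq φ τ σ ≠ 0) (Δ : (RatFunc F)[X]) :
    algebraMap (RatFunc F) (RatFunc k) (Algebra.norm (RatFunc F)
      (AdjoinRoot.mk ((fPoly P φ).map (algebraMap F[X] (RatFunc F))) Δ)) =
      ∏ σ, dd φ τ Δ σ := by
  rw [norm_eq_resultant _ (fK_monic hP hne), ← resultant_map_map, fPoly_split P φ τ hP hne,
    ← natDegree_map (algebraMap (RatFunc F) (RatFunc k)), fPoly_split P φ τ hP hne,
    resultant_prod_left _ _ _ _ _ (natDegree_map_le)]
  · refine Finset.prod_congr rfl fun σ _ => ?_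
    rw [natDegree_X_sub_C, resultant_X_sub_C_left _ _ _ natDegree_map_le, eval_map_algebraMap]
    rfl
  · refine Finset.prod_ne_zero_iff.2 fun σ _ => ?_
    rw [leadingCoeff_X_sub_C]
    exact one_ne_zero

theorem eval_root {P φ : F[X]} {τ : k}
    (hP : P.map (algebraMap F k) = ∏ σ : k ≃ₐ[F] k, (X - C (σ τ)))
    (hne : ∀ σ : k ≃ₐ[F] k, qq φ τ σ ≠ 0) (σ : k ≃ₐ[F] k) :
    aeval (algebraMap k[X] (RatFunc k) (th φ τ σ))
      ((fPoly P φ).map (algebraMap F[X] (RatFunc F))) = 0 := by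
  rw [← eval_map_algebraMap, fPoly_split P φ τ hP hne, eval_prod]
  refine Finset.prod_eq_zero (Finset.mem_univ σ) ?_
  rw [eval_sub, eval_X, eval_C, sub_self]

theorem dd_ne_zero {P φ : F[X]} {τ : k}
    (hP : P.map (algebraMap F k) = ∏ σ : k ≃ₐ[F] k, (X - C (σ τ)))
    (hne : ∀ σ : k ≃ₐ[F] k, qq φ τ σ ≠ 0) {Δ : (RatFunc F)[X]}
    (h : IsCoprime Δ ((fPoly P φ).map (algebraMap F[X] (RatFunc F)))) (σ : k ≃ₐ[F] k) :
    dd φ τ Δ σ ≠ 0 := by
  obtain ⟨a, b, hab⟩ := h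
  intro h0
  have h1 := congrArg (aeval (algebraMap k[X] (RatFunc k) (th φ τ σ))) hab
  rw [map_add, map_mul, map_mul, eval_root hP hne, mul_zero, add_zero, map_one] at h1
  have h2 : aeval (algebraMap k[X] (RatFunc k) (th φ τ σ)) Δ = 0 := h0
  rw [h2, mul_zero] at h1
  exact zero_ne_one h1

/-- a polynomial vanishing at `θ` is divisible by `f` -/
theorem dvd_of_aeval {P φ : F[X]} {τ : k}
    (hP : P.map (algebraMap F k) = ∏ σ : k ≃ₐ[F] k, (X - C (σ τ)))
    (hτ : ∀ σ ρ : k ≃ₐ[F] k, σ τ = ρ τ → σ = ρ)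
    (hne : ∀ σ : k ≃ₐ[F] k, qq φ τ σ ≠ 0) {g : (RatFunc F)[X]}
    (h : aeval (algebraMap k[X] (RatFunc k) (th φ τ 1)) g = 0) :
    (fPoly P φ).map (algebraMap F[X] (RatFunc F)) ∣ g := by
  rw [← map_dvd_map' (algebraMap (RatFunc F) (RatFunc k)), fPoly_split P φ τ hP hne]
  refine Finset.prod_dvd_of_coprime (fun σ _ ρ _ hσρ => ?_) fun σ _ => ?_
  · refine isCoprime_X_sub_C_of_isUnit_sub ?_
    rw [isUnit_iff_ne_zero, ← map_sub, Ne, FaithfulSMul.algebraMap_eq_zero_iff, th_sub φ τ hσρ]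
    refine mul_ne_zero ?_ (Finset.prod_ne_zero_iff.2 fun κ _ => hne κ)
    rw [Ne, C_eq_zero, sub_eq_zero]
    exact fun h0 => hσρ (hτ _ _ h0)
  · rw [dvd_iff_isRoot, IsRoot.def, eval_map_algebraMap]
    have h1 := congrArg (sL σ) h
    rw [sL_aeval, sL_alg, sB_th, mul_one, map_zero] at h1
    exact h1

/-- every element of `k(x)` is a polynomial in `θ` over `F(x)` -/
theorem exists_aeval {P φ : F[X]} {τ : k}
    (hP : P.map (algebraMap F k) = ∏ σ : k ≃ₐ[F] k, (X - C (σ τ)))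
    (hne : ∀ σ : k ≃ₐ[F] k, qq φ τ σ ≠ 0) (hgen : ∀ c : k, ∃ p : F[X], aeval τ p = c)
    (z : RatFunc k) :
    ∃ p : (RatFunc F)[X], aeval (algebraMap k[X] (RatFunc k) (th φ τ 1)) p = z := by
  set θ := algebraMap k[X] (RatFunc k) (th φ τ 1) with hθ
  have hint : IsIntegral (RatFunc F) θ :=
    ⟨_, fK_monic hP hne, by rw [← aeval_def]; exact eval_root hP hne 1⟩
  have hθ0 : θ ≠ 0 := by
    rw [hθ, Ne, FaithfulSMul.algebraMap_eq_zero_iff, th]
    exact Finset.prod_ne_zero_iff.2 fun ρ _ => hne ρ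
  set E := IntermediateField.adjoin (RatFunc F) {θ} with hE
  have hθE : θ ∈ E := IntermediateField.mem_adjoin_simple_self _ _
  have hbase : ∀ p : F[X], algebraMap k[X] (RatFunc k) (p.map (algebraMap F k)) ∈ E := by
    intro p
    rw [← ratAlg_algebraMap]
    exact E.algebraMap_mem _
  have hq : algebraMap k[X] (RatFunc k) (qq φ τ 1) ∈ E := by
    have h1 : algebraMap k[X] (RatFunc k) (qq φ τ 1) * θ =
        algebraMap k[X] (RatFunc k) ((P.comp φ).map (algebraMap F k)) := by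
      rw [hθ, ← map_mul, qq_mul_th, prod_qq φ τ P hP]
    rw [eq_div_of_mul_eq hθ0 h1]
    exact E.div_mem (hbase _) hθE
  have hτE : algebraMap k[X] (RatFunc k) (C τ) ∈ E := by
    have h1 : algebraMap k[X] (RatFunc k) (C τ) =
        algebraMap k[X] (RatFunc k) (φ.map (algebraMap F k)) -
          algebraMap k[X] (RatFunc k) (qq φ τ 1) := by
      rw [← map_sub, qq]
      congr 1
      rw [AlgEquiv.one_apply]
      ring
    rw [h1]
    exact E.sub_mem (hbase _) hq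
  have hX : algebraMap k[X] (RatFunc k) X ∈ E := by
    have := hbase X
    rwa [Polynomial.map_X] at this
  have hC : ∀ c : k, algebraMap k[X] (RatFunc k) (C c) ∈ E := by
    intro c
    obtain ⟨p, rfl⟩ := hgen c
    induction p using Polynomial.induction_on' with
    | add p q hp hq =>
      rw [map_add, C_add, map_add]
      exact E.add_mem hp hq
    | monomial n a =>
      rw [aeval_monomial, C_mul, map_mul, C_pow, map_pow]
      refine E.mul_mem ?_ (pow_mem hτE n)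
      have := hbase (C a)
      rwa [Polynomial.map_C] at this
  have hpoly : ∀ p : k[X], algebraMap k[X] (RatFunc k) p ∈ E := by
    intro p
    induction p using Polynomial.induction_on' with
    | add p q hp hq =>
      rw [map_add]
      exact E.add_mem hp hq
    | monomial n a =>
      rw [← C_mul_X_pow_eq_monomial, map_mul, map_pow]
      exact E.mul_mem (hC a) (pow_mem hX n)
  have hz : z ∈ E := by
    obtain ⟨a, b, hb, rfl⟩ := IsFractionRing.div_surjective (A := k[X]) z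
    exact E.div_mem (hpoly a) (hpoly b)
  have h2 : z ∈ (IntermediateField.adjoin (RatFunc F) {θ}).toSubalgebra := hz
  rw [IntermediateField.adjoin_simple_toSubalgebra_of_isAlgebraic hint.isAlgebraic,
    Algebra.adjoin_singleton_eq_range_aeval] at h2
  obtain ⟨p, hp⟩ := h2
  exact ⟨p, hp⟩

theorem transfer {P φ : F[X]} {τ : k}
    (hP : P.map (algebraMap F k) = ∏ σ : k ≃ₐ[F] k, (X - C (σ τ)))
    (hτ : ∀ σ ρ : k ≃ₐ[F] k, σ τ = ρ τ → σ = ρ)
    (hne : ∀ σ : k ≃ₐ[F] k, qq φ τ σ ≠ 0) (hgen : ∀ c : k, ∃ p : F[X], aeval τ p = c)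
    {Δ : (RatFunc F)[X]} (h : IsSquare (dd φ τ Δ 1)) :
    IsSquare (AdjoinRoot.mk ((fPoly P φ).map (algebraMap F[X] (RatFunc F))) Δ) := by
  obtain ⟨z, hz⟩ := h
  obtain ⟨p, hp⟩ := exists_aeval hP hne hgen z
  refine ⟨AdjoinRoot.mk _ p, ?_⟩
  rw [← map_mul, AdjoinRoot.mk_eq_mk]
  refine dvd_of_aeval hP hτ hne ?_
  have h1 : aeval (algebraMap k[X] (RatFunc k) (th φ τ 1)) Δ = z * z := hz
  rw [map_sub, map_mul, hp, h1, sub_self]

/-- the theorem with the splitting field as a datum -/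
theorem selmer_square [Finite k] (P φ D : F[X]) (τ : k)
    (hP : P.map (algebraMap F k) = ∏ σ : k ≃ₐ[F] k, (X - C (σ τ)))
    (hτ : ∀ σ ρ : k ≃ₐ[F] k, σ τ = ρ τ → σ = ρ)
    (hgen : ∀ c : k, ∃ p : F[X], aeval τ p = c)
    (hcard : Fintype.card (k ≃ₐ[F] k) = Module.finrank F k)
    (hodd : Odd (Fintype.card (k ≃ₐ[F] k))) (h2 : (2 : k) ≠ 0) (hW : Irreducible (P.comp φ))
    (hD : ∀ Q : F[X], Irreducible Q → Q ∣ D → Nat.Coprime Q.natDegree (Module.finrank F k))
    (hWD : ¬ P.comp φ ∣ D) (Δ : (RatFunc F)[X])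
    (hloc : ∀ v : HeightOneSpectrum F[X], LocImTw (fPoly P φ) D v Δ)
    (hcop : IsCoprime Δ ((fPoly P φ).map (algebraMap F[X] (RatFunc F))))
    (hnorm : IsSquare (Algebra.norm (RatFunc F)
      (AdjoinRoot.mk ((fPoly P φ).map (algebraMap F[X] (RatFunc F))) Δ))) :
    IsSquare (AdjoinRoot.mk ((fPoly P φ).map (algebraMap F[X] (RatFunc F))) Δ) ∨
      (IsSquare (AdjoinRoot.mk (P.comp φ) (-D)) ∧
      IsSquare (AdjoinRoot.mk ((fPoly P φ).map (algebraMap F[X] (RatFunc F))) (X * Δ))) := by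
  have hne : ∀ σ : k ≃ₐ[F] k, qq φ τ σ ≠ 0 := fun σ => (qq_irreducible hP hcard hW σ).ne_zero
  have hnorm' : IsSquare (∏ σ, dd φ τ Δ σ) := by
    rw [← norm_eq hP hne]
    exact hnorm.map (algebraMap (RatFunc F) (RatFunc k))
  rcases core P φ D τ hP hτ hcard hodd h2 hW hD hWD Δ hloc (dd_ne_zero hP hne hcop 1) hnorm'
    with h | ⟨h, h'⟩
  · exact Or.inl (transfer hP hτ hne hgen h)
  · refine Or.inr ⟨h, transfer hP hτ hne hgen ?_⟩
    have h1 : dd φ τ (X * Δ) 1 = algebraMap k[X] (RatFunc k) (th φ τ 1) * dd φ τ Δ 1 := by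
      rw [dd, dd, map_mul, aeval_X]
    rw [h1]
    exact h'

end

end Pool.Agent.H83.T5
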