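import Pool.Agent.H83.T5.Sqrt
import Pool.Agent.H94.LT.Cl

/-!
Finite extensions containing an unramified quadratic extension: all norms have even valuation.
-/

set_option linter.unusedSectionVars false
set_option linter.style.haveILetI false

namespace Pool.Agent.H83.T5

open Polynomial WithZero IntermediateField
open Pool.Agent.H94.LT

section

variable {M : Type*} [NontriviallyNormedField M] {w : Valuation M ℤᵐ⁰}

theorem norm_lt_iff (hw : ∀ x : M, ‖x‖ < 1 ↔ w x < 1) (x y : M) : ‖x‖ < ‖y‖ ↔ w x < w y := by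
  by_cases hy : y = 0
  · subst hy
    simp only [norm_zero, map_zero]
    constructor
    · intro h; exact absurd h (not_lt.2 (norm_nonneg _))
    · intro h; exact absurd h (not_lt.2 zero_le)
  · have h1 := hw (x / y)
    rw [norm_div, map_div₀, div_lt_one (norm_pos_iff.2 hy),
      div_lt_one₀ (zero_lt_iff.2 ((Valuation.ne_zero_iff _).2 hy))] at h1
    exact h1

theorem norm_le_iff (hw : ∀ x : M, ‖x‖ < 1 ↔ w x < 1) (x y : M) : ‖x‖ ≤ ‖y‖ ↔ w x ≤ w y := by
  rw [← not_lt, ← not_lt, norm_lt_iff hw]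

theorem norm_eq_iff (hw : ∀ x : M, ‖x‖ < 1 ↔ w x < 1) (x y : M) : ‖x‖ = ‖y‖ ↔ w x = w y := by
  rw [le_antisymm_iff, le_antisymm_iff, norm_le_iff hw, norm_le_iff hw]

theorem norm_eq_one_iff' (hw : ∀ x : M, ‖x‖ < 1 ↔ w x < 1) (x : M) : ‖x‖ = 1 ↔ w x = 1 := by
  have := norm_eq_iff hw x 1
  rwa [norm_one, map_one] at this

theorem norm_le_one_iff' (hw : ∀ x : M, ‖x‖ < 1 ↔ w x < 1) (x : M) : ‖x‖ ≤ 1 ↔ w x ≤ 1 := by
  have := norm_le_iff hw x 1
  rwa [norm_one, map_one] at this

end

section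

variable {M : Type*} [Field M] {M' : Type*} [Field M'] [Algebra M M'] [FiniteDimensional M M']

theorem exists_lin {u : M} {ρ : M'} (hρ : ρ ^ 2 = algebraMap M M' u) (y : M') (hy : y ∈ M⟮ρ⟯) :
    ∃ a b : M, y = algebraMap M M' a + algebraMap M M' b * ρ := by
  have hint : IsIntegral M ρ := Algebra.IsIntegral.isIntegral ρ
  have h1 : y ∈ (M⟮ρ⟯).toSubalgebra := hy
  rw [adjoin_simple_toSubalgebra_of_isAlgebraic hint.isAlgebraic,
    Algebra.adjoin_singleton_eq_range_aeval] at h1
  obtain ⟨p, rfl⟩ := h1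
  have hm : (X ^ 2 - C u : M[X]).Monic := monic_X_pow_sub_C u two_ne_zero
  have hdeg : (X ^ 2 - C u : M[X]).natDegree = 2 := natDegree_X_pow_sub_C
  have hr : (p %ₘ (X ^ 2 - C u)).degree ≤ 1 := by
    have h2 := degree_modByMonic_lt p hm
    rw [degree_eq_natDegree hm.ne_zero, hdeg] at h2
    exact Order.le_of_lt_succ h2
  have h3 := modByMonic_add_div p (X ^ 2 - C u)
  refine ⟨(p %ₘ (X ^ 2 - C u)).coeff 0, (p %ₘ (X ^ 2 - C u)).coeff 1, ?_⟩
  show aeval ρ p = _
  conv_lhs => rw [← h3, eq_X_add_C_of_degree_le_one hr]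
  simp only [map_add, map_mul, aeval_C, aeval_X, map_sub, map_pow, hρ, sub_self, zero_mul,
    add_zero]
  ring

end

section

variable {M : Type*} [NontriviallyNormedField M] [IsUltrametricDist M] [CompleteSpace M]
  {M' : Type*} [Field M'] [Algebra M M'] [FiniteDimensional M M'] {w : Valuation M ℤᵐ⁰}

theorem sn_mul (x y : M') : spectralNorm M M' (x * y) = spectralNorm M M' x * spectralNorm M M' y :=
  spectralAlgNorm_mul x y

theorem sn_add (x y : M') : spectralNorm M M' (x + y) ≤
    max (spectralNorm M M' x) (spectralNorm M M' y) := isNonarchimedean_spectralNorm x y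

theorem sn_alg (x : M) : spectralNorm M M' (algebraMap M M' x) = ‖x‖ := spectralNorm_extends x

theorem sn_neg (x : M') : spectralNorm M M' (-x) = spectralNorm M M' x :=
  spectralNorm_neg (Algebra.IsAlgebraic.isAlgebraic x)

theorem sn_sub (x y : M') : spectralNorm M M' (x - y) ≤
    max (spectralNorm M M' x) (spectralNorm M M' y) := by
  rw [sub_eq_add_neg, ← sn_neg y]; exact sn_add x (-y)

theorem sn_add_eq_of_lt {x y : M'} (h : spectralNorm M M' x < spectralNorm M M' y) :
    spectralNorm M M' (x + y) = spectralNorm M M' y := by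
  apply le_antisymm
  · exact (sn_add x y).trans (max_le h.le le_rfl)
  · by_contra hlt
    rw [not_le] at hlt
    have h1 : y = (x + y) - x := by ring
    have h2 := sn_sub (M := M) (x + y) x
    rw [← h1] at h2
    exact absurd (lt_of_le_of_lt h2 (max_lt hlt h)) (lt_irrefl _)

theorem sn_ne_zero {x : M'} (hx : x ≠ 0) : spectralNorm M M' x ≠ 0 :=
  (spectralNorm_zero_lt hx (Algebra.IsAlgebraic.isAlgebraic x)).ne'

theorem sn_pos {x : M'} (hx : x ≠ 0) : 0 < spectralNorm M M' x :=
  spectralNorm_zero_lt hx (Algebra.IsAlgebraic.isAlgebraic x)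

theorem sn_inv (x : M') : spectralNorm M M' x⁻¹ = (spectralNorm M M' x)⁻¹ := by
  by_cases hx : x = 0
  · subst hx; simp [spectralNorm_zero]
  · have h := sn_mul (M := M) x x⁻¹
    rw [mul_inv_cancel₀ hx, spectralNorm_one] at h
    exact (inv_eq_of_mul_eq_one_right h.symm).symm

theorem sn_div (x y : M') : spectralNorm M M' (x / y) =
    spectralNorm M M' x / spectralNorm M M' y := by
  rw [div_eq_mul_inv, sn_mul, sn_inv, div_eq_mul_inv]

theorem sn_pow (x : M') (n : ℕ) : spectralNorm M M' (x ^ n) = spectralNorm M M' x ^ n := by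
  induction n with
  | zero => simp [spectralNorm_one]
  | succ n ih => rw [pow_succ, sn_mul, ih, pow_succ]

/-- in `M(√u)` all values are values of elements of `M` -/
theorem sn_lin (hw : ∀ x : M, ‖x‖ < 1 ↔ w x < 1) {u : M} (hu : w u = 1) (hcl : ¬ Cl w u)
    {ρ : M'} (hρ : ρ ^ 2 = algebraMap M M' u) (a b : M) :
    ∃ m : M, spectralNorm M M' (algebraMap M M' a + algebraMap M M' b * ρ) = ‖m‖ := by
  have hu1 : ‖u‖ = 1 := (norm_eq_one_iff' hw u).2 hu
  have hρ1 : spectralNorm M M' ρ = 1 := by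
    have h1 := congrArg (spectralNorm M M') hρ
    rw [sn_pow, sn_alg, hu1] at h1
    exact (pow_eq_one_iff_of_nonneg (spectralNorm_nonneg _) two_ne_zero).1 h1
  have hbρ : spectralNorm M M' (algebraMap M M' b * ρ) = ‖b‖ := by
    rw [sn_mul, sn_alg, hρ1, mul_one]
  rcases lt_trichotomy ‖a‖ ‖b‖ with h | h | h
  · refine ⟨b, ?_⟩
    rw [sn_add_eq_of_lt, hbρ]
    rw [hbρ, sn_alg]; exact h
  · by_cases hb : b = 0
    · subst hb
      exact ⟨a, by rw [map_zero, zero_mul, add_zero, sn_alg]⟩
    · refine ⟨b, ?_⟩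
      have hb' : algebraMap M M' b ≠ 0 := by rw [Ne, map_eq_zero]; exact hb
      set c := a / b with hc
      have hc1 : ‖c‖ = 1 := by
        rw [hc, norm_div, h, div_self]; exact norm_ne_zero_iff.2 hb
      have h1 : algebraMap M M' a + algebraMap M M' b * ρ =
          algebraMap M M' b * (algebraMap M M' c + ρ) := by
        rw [mul_add, ← map_mul, hc, mul_div_cancel₀ _ hb]
      rw [h1, sn_mul, sn_alg]
      have h2 : spectralNorm M M' (algebraMap M M' c + ρ) = 1 := by
        apply le_antisymm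
        · refine (sn_add _ _).trans (max_le ?_ hρ1.le)
          rw [sn_alg, hc1]
        · by_contra hlt
          rw [not_le] at hlt
          have h3 : spectralNorm M M' (algebraMap M M' c - ρ) ≤ 1 := by
            refine (sn_sub _ _).trans (max_le ?_ hρ1.le)
            rw [sn_alg, hc1]
          have h4 : algebraMap M M' (c ^ 2 - u) =
              (algebraMap M M' c + ρ) * (algebraMap M M' c - ρ) := by
            rw [map_sub, map_pow, ← hρ]; ring
          have h5 : ‖c ^ 2 - u‖ < ‖u‖ := by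
            rw [← sn_alg (M' := M') (c ^ 2 - u), h4, sn_mul, hu1]
            calc spectralNorm M M' (algebraMap M M' c + ρ) *
                  spectralNorm M M' (algebraMap M M' c - ρ)
                ≤ spectralNorm M M' (algebraMap M M' c + ρ) * 1 :=
                  mul_le_mul_of_nonneg_left h3 (spectralNorm_nonneg _)
              _ < 1 := by rw [mul_one]; exact hlt
          rw [norm_lt_iff hw] at h5
          have hu0 : u ≠ 0 := by rintro rfl; simp at hu
          have h6 := close hu0 h5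
          rw [mul_comm] at h6
          refine hcl (Cl.of_mul_sq ?_ h6)
          rintro h0
          rw [h0, norm_zero] at hc1
          exact zero_ne_one hc1
      rw [h2, mul_one]
  · refine ⟨a, ?_⟩
    rw [add_comm, sn_add_eq_of_lt, sn_alg]
    rw [hbρ, sn_alg]; exact h

theorem finrank_adjoin_sqrt {u : M} (hu : w u = 1) (hcl : ¬ Cl w u)
    {ρ : M'} (hρ : ρ ^ 2 = algebraMap M M' u) : Module.finrank M M⟮ρ⟯ = 2 := by
  have hint : IsIntegral M ρ := Algebra.IsIntegral.isIntegral ρ
  have hirr : Irreducible (X ^ 2 - C u : M[X]) := by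
    rw [X_pow_sub_C_irreducible_iff_of_prime Nat.prime_two]
    intro b hb
    apply hcl
    rw [← hb]
    refine Cl.sq ?_
    rintro rfl
    rw [← hb] at hu
    simp at hu
  have hmin : minpoly M ρ = X ^ 2 - C u := by
    refine (minpoly.eq_of_irreducible_of_monic hirr ?_ (monic_X_pow_sub_C u two_ne_zero)).symm
    simp [hρ]
  rw [adjoin.finrank hint, hmin, natDegree_X_pow_sub_C]

theorem unram (hw : ∀ x : M, ‖x‖ < 1 ↔ w x < 1) {u : M} (hu : w u = 1) (hcl : ¬ Cl w u)
    {ρ : M'} (hρ : ρ ^ 2 = algebraMap M M' u) :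
    Even (Module.finrank M M') ∧ ∀ x : M', x ≠ 0 → Ev w (Algebra.norm M x) := by
  have h2 := finrank_adjoin_sqrt hu hcl hρ
  constructor
  · rw [← Module.finrank_mul_finrank M M⟮ρ⟯ M', h2]
    exact even_two_mul _
  · intro x hx
    set y := Algebra.norm M⟮ρ⟯ x with hy
    have hN : Algebra.norm M y = Algebra.norm M x := Algebra.norm_norm
    have hNx : Algebra.norm M x ≠ 0 := by
      rw [Ne, Algebra.norm_eq_zero_iff]; exact hx
    refine ⟨hNx, ?_⟩
    -- `y` as a linear combination
    obtain ⟨a, b, hab⟩ := exists_lin hρ (y : M') y.2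
    set ρ' : M⟮ρ⟯ := ⟨ρ, mem_adjoin_simple_self M ρ⟩ with hρ'
    have hρ'2 : ρ' ^ 2 = algebraMap M M⟮ρ⟯ u := by
      apply Subtype.ext
      simpa using hρ
    have hy' : y = algebraMap M M⟮ρ⟯ a + algebraMap M M⟮ρ⟯ b * ρ' := by
      apply Subtype.ext
      simpa using hab
    obtain ⟨m, hm⟩ := sn_lin (M' := M⟮ρ⟯) hw hu hcl hρ'2 a b
    rw [← hy'] at hm
    have h3 := norm_algNorm (M := M) y
    rw [hm, h2, hN, ← _root_.norm_pow, norm_eq_iff hw, map_pow] at h3
    rw [h3, log_pow]
    exact ⟨log (w m), by simp; ring⟩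

end

end Pool.Agent.H83.T5
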